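import Pool.Agent.L7h46.GK.Apg1

/-! Project GK (helper46): the file `R453/GS/Apg2.lean` of the starting tree with a general level `κ`. -/

/-!
Project GS (helper460), job APG: the rough numbers in arithmetic progressions to small moduli.
-/

set_option autoImplicit false
set_option linter.unusedSectionVars false

namespace Pool.Agent.L7h46.GK

open Lv (κ)
open Pool.Agent.R453.GS

variable [Lv]

open Finset Filter Topology
open Pool.Agent.H442R2.EHI (lis)

lemma sum_gr (N r c y : ℕ) : ∑ n ∈ (Icc 1 y).filter (fun n => n ≡ c [MOD r]), gr N n =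
    Real.log N * ((RR N r c y).card : ℝ) := by
  unfold gr RR
  rw [← sum_filter, filter_filter, sum_const, nsmul_eq_mul, mul_comm]

/-- eventually all numerical conditions -/
lemma ev_num (K U x0 : ℕ) : ∀ᶠ N : ℕ in atTop, Big N ∧ 1 ≤ Real.log N ∧ SP ((1 - κ)) 1 N ≤ 3 ∧
    x0 ≤ ZZ N ∧ 4 ^ (K + 1) ≤ Real.log N ∧ Real.log N ^ K ≤ ZZ N ∧
    1000 * 4 ^ (U + 2) ≤ Real.log N ∧ 1000 * Real.log N ^ (U + 2) ≤ ZZ N := by
  have hLT : Tendsto (fun N : ℕ => Real.log (N : ℝ)) atTop atTop :=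
    Real.tendsto_log_atTop.comp tendsto_natCast_atTop_atTop
  have hS := sum_pow (α := (1 - κ)) (β := 1) kc_pos (by have := kpos; linarith) (ε := 1) one_pos
  have hpow : ∀ (k : ℕ) (c : ℝ), ∀ᶠ N : ℕ in atTop, c * Real.log N ^ k ≤ ZZ N := by
    intro k c
    have h := (isLittleO_log_rpow_rpow_atTop (k : ℝ) (show (0 : ℝ) < (1 - κ) from kc_pos)).bound
      (show 0 < 1 / (2 * (|c| + 1)) by positivity)
    filter_upwards [(tendsto_natCast_atTop_atTop (R := ℝ)).eventually h, hLT.eventually_ge_atTop 1,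
      eventually_ge_atTop 2] with N h1 h2 h3
    rw [Real.rpow_natCast, Real.norm_of_nonneg (by positivity),
      Real.norm_of_nonneg (Real.rpow_nonneg (Nat.cast_nonneg N) _)] at h1
    have hN1 : (1 : ℝ) ≤ N := by exact_mod_cast (by omega : 1 ≤ N)
    have h4 : (1 : ℝ) ≤ (N : ℝ) ^ (1 - κ : ℝ) := Real.one_le_rpow hN1 kc_pos.le
    have h5 : (N : ℝ) ^ (1 - κ : ℝ) < (ZZ N : ℝ) + 1 := Nat.lt_floor_add_one _
    have h6 : (1 : ℝ) ≤ ZZ N := by exact_mod_cast (Nat.one_le_floor_iff _).2 h4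
    have h7 : c * Real.log N ^ k ≤ (|c| + 1) * Real.log N ^ k := by
      apply mul_le_mul_of_nonneg_right _ (by positivity)
      linarith [le_abs_self c]
    have h8 : (|c| + 1) * Real.log N ^ k ≤ (|c| + 1) * (1 / (2 * (|c| + 1)) * (N : ℝ) ^ (1 - κ : ℝ)) :=
      mul_le_mul_of_nonneg_left h1 (by positivity)
    have h9 : (|c| + 1) * (1 / (2 * (|c| + 1)) * (N : ℝ) ^ (1 - κ : ℝ)) = (N : ℝ) ^ (1 - κ : ℝ) / 2 := by
      field_simp
    linarith
  have hx := hpow 0 x0
  filter_upwards [big, hLT.eventually_ge_atTop 1, hS, hx, hLT.eventually_ge_atTop (4 ^ (K + 1)), hpow K 1,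
    hLT.eventually_ge_atTop (1000 * 4 ^ (U + 2)), hpow (U + 2) 1000] with N h1 h2 h3 h4 h5 h6 h7 h8
  refine ⟨h1, h2, ?_, ?_, h5, by simpa using h6, h7, h8⟩
  · have h9 : Real.log (1 / (1 - κ)) ≤ 2 := by
      have h2 := kc_third
      have h3 := Real.log_le_sub_one_of_pos (show 0 < 1 / (1 - κ) from one_div_pos.2 kc_pos)
      have h4 : 1 / (1 - κ) ≤ 3 := by
        rw [div_le_iff₀ kc_pos]
        linarith
      linarith
    unfold SP PP
    linarith
  · rw [pow_zero, mul_one] at h4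
    exact_mod_cast h4

/-- the main term -/
lemma sum_Wt {N y : ℕ} (hB : Big N) (_hy : y ≤ N) : ∑ n ∈ Icc 1 y, Wt N n =
    Real.log N * ∑ m ∈ mm N y, ∑ n ∈ Ioc (m * MM N m) y, 1 / ((m : ℝ) * Real.log ((n : ℝ) / m)) := by
  unfold Wt
  rw [← mul_sum]
  congr 1
  have h1 : ∀ n ∈ Icc 1 y, ∑ m ∈ mm N n, 1 / ((m : ℝ) * Real.log ((n : ℝ) / m)) =
      ∑ m ∈ mm N y, if m ∈ mm N n then 1 / ((m : ℝ) * Real.log ((n : ℝ) / m)) else 0 := by
    intro n hn
    rw [mem_Icc] at hn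
    rw [← sum_filter]
    apply sum_congr _ fun _ _ => rfl
    ext m
    rw [mem_filter]
    constructor
    · intro h
      refine ⟨?_, h⟩
      rw [mem_mm] at h ⊢
      exact ⟨⟨h.1.1, h.1.2.trans hn.2⟩, h.2.1, lt_of_lt_of_le h.2.2 hn.2⟩
    · exact fun h => h.2
  rw [sum_congr rfl h1, sum_comm]
  apply sum_congr rfl
  intro m hm
  rw [← sum_filter]
  apply sum_congr _ fun _ _ => rfl
  rw [mem_mm] at hm
  have hM : 2 ≤ MM N m := hB.Z2.trans (le_max_right _ _)
  ext n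
  rw [mem_filter, mem_Icc, mem_Ioc, mem_mm]
  have g1 : m * 2 ≤ m * MM N m := Nat.mul_le_mul_left _ hM
  have g2 : 1 ≤ m := hm.1.1
  constructor
  · rintro ⟨⟨h2, h3⟩, _, _, h4⟩
    exact ⟨h4, h3⟩
  · rintro ⟨h2, h3⟩
    exact ⟨⟨by omega, h3⟩, ⟨g2, by omega⟩, hm.2.1, h2⟩

theorem apg : ApgStm := by
  intro K U
  obtain ⟨x0, hpap⟩ := pap (K + 1) (U + 2)
  obtain ⟨N₀, hN₀⟩ := eventually_atTop.1 (ev_num K U x0)
  refine ⟨N₀, fun N hN r hr hrN c y hy => ?_⟩
  obtain ⟨hB, hL1, hS3, hx0, h4K, hKZ, hU4, hUZ⟩ := hN₀ N hN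
  have hZ2 := hB.Z2
  have hL0 : 0 < Real.log N := hB.L
  have hrZ : r ≤ ZZ N := by exact_mod_cast hrN.trans hKZ
  rw [sum_gr]
  by_cases hc : c.Coprime r
  swap
  · rw [RR_empty hr hrZ hc, if_neg hc]
    simp only [card_empty, Nat.cast_zero, mul_zero, sub_zero, abs_zero]
    positivity
  rw [if_pos hc, sum_Wt hB hy]
  set L := Real.log N with hLd
  have hNr : (0 : ℝ) < N := by exact_mod_cast (by have := hB.two; omega : 0 < N)
  have hZr : (0 : ℝ) < ZZ N := by exact_mod_cast (by omega : 0 < ZZ N)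
  have hZ2r : (2 : ℝ) ≤ ZZ N := by exact_mod_cast hZ2
  have hZl : L / 4 ≤ Real.log (ZZ N) := by have := hB.Zl; linarith
  have hφ : (1 : ℝ) ≤ (Nat.totient r : ℝ) := by exact_mod_cast Nat.totient_pos.2 hr
  have hyr : (y : ℝ) ≤ N := by exact_mod_cast hy
  -- the number of cofactors
  have hmcard : ((mm N y).card : ℝ) ≤ N / ZZ N := by
    have h1 : (mm N y).card ≤ y / ZZ N := by
      have hsub : mm N y ⊆ Icc 1 (y / ZZ N) := by
        intro m hm
        rw [mem_mm] at hm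
        rw [mem_Icc, Nat.le_div_iff_mul_le (by omega)]
        refine ⟨hm.1.1, ?_⟩
        exact (lt_of_le_of_lt (Nat.mul_le_mul_left _ (le_max_right _ _)) hm.2.2).le
      refine (Finset.card_le_card hsub).trans ?_
      rw [Nat.card_Icc, Nat.add_sub_cancel]
    calc ((mm N y).card : ℝ) ≤ ((y / ZZ N : ℕ) : ℝ) := by exact_mod_cast h1
      _ ≤ (y : ℝ) / ZZ N := Nat.cast_div_le
      _ ≤ N / ZZ N := div_le_div_of_nonneg_right hyr hZr.le
  -- one cofactor
  have hone : ∀ m ∈ mm N y, |((AA N r c y m).card : ℝ) -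
      (∑ k ∈ Ioc (MM N m) (y / m), 1 / Real.log k) / (Nat.totient r : ℝ)| ≤
        2 * 4 ^ (U + 2) / L ^ (U + 2) * N * ((1 : ℝ) / m) := by
    intro m hm
    rw [mem_mm] at hm
    obtain ⟨⟨hm1, _⟩, hm2, hm3⟩ := hm
    have hm0 : (0 : ℝ) < m := by exact_mod_cast hm1
    obtain ⟨c', hc', hcc⟩ := inv_class hr (rough_coprime hr hrZ hm1 hm2) hc
    have hMZ : ZZ N ≤ MM N m := le_max_right _ _
    have hMY : MM N m ≤ y / m := by
      rw [Nat.le_div_iff_mul_le hm1, mul_comm]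
      exact le_of_lt hm3
    have hcard : ((AA N r c y m).card : ℝ) =
        (((Icc 1 (y / m)).filter (fun p => p.Prime ∧ p ≡ c' [MOD r])).card : ℝ) -
        (((Icc 1 (MM N m)).filter (fun p => p.Prime ∧ p ≡ c' [MOD r])).card : ℝ) := by
      have e1 : (Icc 1 (y / m)).filter (fun p => p.Prime ∧ p ≡ c' [MOD r]) =
          (Icc 1 (MM N m)).filter (fun p => p.Prime ∧ p ≡ c' [MOD r]) ∪ AA N r c y m := by
        unfold AA
        ext p
        simp only [mem_union, mem_filter, mem_Icc, mem_Ioc, hcc p]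
        constructor
        · rintro ⟨⟨h1, h2⟩, h3⟩
          rcases Nat.lt_or_ge (MM N m) p with h | h
          · exact Or.inr ⟨⟨h, h2⟩, h3⟩
          · exact Or.inl ⟨⟨h1, h⟩, h3⟩
        · rintro (⟨⟨h1, h2⟩, h3⟩ | ⟨⟨h1, h2⟩, h3⟩)
          · exact ⟨⟨h1, h2.trans hMY⟩, h3⟩
          · exact ⟨⟨h3.1.pos, h2⟩, h3⟩
      have hd : Disjoint ((Icc 1 (MM N m)).filter (fun p => p.Prime ∧ p ≡ c' [MOD r])) (AA N r c y m) := by
        rw [disjoint_left]
        intro p h1 h2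
        rw [mem_filter, mem_Icc] at h1
        unfold AA at h2
        rw [mem_filter, mem_Ioc] at h2
        omega
      rw [e1, card_union_of_disjoint hd]
      push_cast
      ring
    have hcond : ∀ x : ℕ, ZZ N ≤ x → |(((Icc 1 x).filter (fun p => p.Prime ∧ p ≡ c' [MOD r])).card : ℝ) -
        lis x / (Nat.totient r : ℝ)| ≤ x * (4 ^ (U + 2) / L ^ (U + 2)) := by
      intro x hx
      have hxr : (ZZ N : ℝ) ≤ x := by exact_mod_cast hx
      have hx0' : (0 : ℝ) < x := by linarith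
      have hlx : L / 4 ≤ Real.log x := hZl.trans (Real.log_le_log hZr hxr)
      have hlx0 : 0 < Real.log x := by linarith
      have hrx : (r : ℝ) ≤ Real.log x ^ (K + 1) := by
        calc (r : ℝ) ≤ L ^ K := hrN
          _ ≤ L ^ K * (L / 4 ^ (K + 1)) := by
            apply le_mul_of_one_le_right (by positivity)
            rw [one_le_div (by positivity)]
            exact h4K
          _ = (L / 4) ^ (K + 1) := by rw [div_pow, pow_succ L]; field_simp
          _ ≤ Real.log x ^ (K + 1) := pow_le_pow_left₀ (by positivity) hlx _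
      refine (hpap x (hx0.trans hx) r hr hrx c' hc').trans ?_
      rw [div_eq_mul_one_div]
      apply mul_le_mul_of_nonneg_left _ hx0'.le
      calc 1 / Real.log x ^ (U + 2) ≤ 1 / (L / 4) ^ (U + 2) :=
            one_div_le_one_div_of_le (by positivity) (pow_le_pow_left₀ (by positivity) hlx _)
        _ = 4 ^ (U + 2) / L ^ (U + 2) := by rw [div_pow, one_div_div]
    have h1 := hcond _ hMZ
    have h2 := hcond _ (hMZ.trans hMY)
    have hlis := lis_sub (a := MM N m) (b := y / m) (by omega) hMY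
    have hYr : ((y / m : ℕ) : ℝ) ≤ N * (1 / m) := by
      rw [mul_one_div]
      exact Nat.cast_div_le.trans (div_le_div_of_nonneg_right hyr hm0.le)
    have hMr : ((MM N m : ℕ) : ℝ) ≤ N * (1 / m) := le_trans (by exact_mod_cast hMY) hYr
    have he : 0 < (4 : ℝ) ^ (U + 2) / L ^ (U + 2) := by positivity
    rw [hcard, ← hlis]
    have e2 : ∀ a b p q f : ℝ, a - b - (p - q) / f = (a - p / f) - (b - q / f) := by intros; ring
    rw [e2]
    refine (abs_sub _ _).trans ?_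
    have h3 := mul_le_mul_of_nonneg_right hYr he.le
    have h4 := mul_le_mul_of_nonneg_right hMr he.le
    have e3 : 2 * 4 ^ (U + 2) / L ^ (U + 2) * N * ((1 : ℝ) / m) =
        N * (1 / m) * (4 ^ (U + 2) / L ^ (U + 2)) + N * (1 / m) * (4 ^ (U + 2) / L ^ (U + 2)) := by ring
    rw [e3]
    linarith
  -- the sum over the cofactors
  have hsum : |∑ m ∈ mm N y, ((AA N r c y m).card : ℝ) -
      (∑ m ∈ mm N y, ∑ k ∈ Ioc (MM N m) (y / m), 1 / Real.log k) / (Nat.totient r : ℝ)| ≤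
        32 * 4 ^ (U + 2) / L ^ (U + 2) * N := by
    rw [sum_div, ← sum_sub_distrib]
    refine (abs_sum_le_sum_abs _ _).trans ((sum_le_sum hone).trans ?_)
    rw [← mul_sum]
    have hs := sum_inv_le hB hy
    have hS0 := SP_nonneg ((1 - κ)) 1 N
    have h16 : ∑ m ∈ mm N y, (1 : ℝ) / m ≤ 16 := hs.trans (by nlinarith)
    have he : 0 ≤ 2 * 4 ^ (U + 2) / L ^ (U + 2) * N := by positivity
    have := mul_le_mul_of_nonneg_left h16 he
    have e3 : 32 * 4 ^ (U + 2) / L ^ (U + 2) * N = 2 * 4 ^ (U + 2) / L ^ (U + 2) * N * 16 := by ring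
    rw [e3]
    exact this
  -- the number of the rough numbers
  have hcount : |((RR N r c y).card : ℝ) - ∑ m ∈ mm N y, ((AA N r c y m).card : ℝ)| ≤ 1 + N / ZZ N := by
    have h1 : (∑ m ∈ mm N y, ((AA N r c y m).card : ℝ)) ≤ (RR N r c y).card := by
      exact_mod_cast card_ge
    have h2 : ((RR N r c y).card : ℝ) ≤ ∑ m ∈ mm N y, ((AA N r c y m).card : ℝ) + 1 + ((y / ZZ N : ℕ) : ℝ) := by
      exact_mod_cast card_le (N := N) (r := r) (c := c) (y := y) (by omega)
    have h3 : ((y / ZZ N : ℕ) : ℝ) ≤ N / ZZ N := Nat.cast_div_le.trans (div_le_div_of_nonneg_right hyr hZr.le)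
    rw [abs_of_nonneg (by linarith)]
    linarith
  -- the main term
  have hmain : |(∑ m ∈ mm N y, ∑ n ∈ Ioc (m * MM N m) y, 1 / ((m : ℝ) * Real.log ((n : ℝ) / m))) -
      ∑ m ∈ mm N y, ∑ k ∈ Ioc (MM N m) (y / m), 1 / Real.log k| ≤ 8 / L * (N / ZZ N) := by
    rw [← sum_sub_distrib]
    refine (abs_sum_le_sum_abs _ _).trans ?_
    have h1 : ∀ m ∈ mm N y, |∑ n ∈ Ioc (m * MM N m) y, 1 / ((m : ℝ) * Real.log ((n : ℝ) / m)) -
        ∑ k ∈ Ioc (MM N m) (y / m), 1 / Real.log k| ≤ 8 / L := by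
      intro m hm
      rw [mem_mm] at hm
      refine (cmp2 hm.1.1 (hZ2.trans (le_max_right _ _)) hm.2.2).trans ?_
      have h2 : L / 4 ≤ Real.log (MM N m) := hZl.trans
        (Real.log_le_log hZr (by exact_mod_cast (le_max_right _ _ : ZZ N ≤ MM N m)))
      calc 2 / Real.log (MM N m) ≤ 2 / (L / 4) := div_le_div_of_nonneg_left (by norm_num) (by positivity) h2
        _ = 8 / L := by field_simp; norm_num
    refine (sum_le_card_nsmul _ _ _ h1).trans ?_
    rw [nsmul_eq_mul, mul_comm]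
    exact mul_le_mul_of_nonneg_left hmcard (by positivity)
  set P := ∑ m ∈ mm N y, ((AA N r c y m).card : ℝ) with hP
  set Q := ∑ m ∈ mm N y, ∑ k ∈ Ioc (MM N m) (y / m), 1 / Real.log k with hQ
  set T := ∑ m ∈ mm N y, ∑ n ∈ Ioc (m * MM N m) y, 1 / ((m : ℝ) * Real.log ((n : ℝ) / m)) with hT
  set R := ((RR N r c y).card : ℝ) with hR
  have e1 : L * R - L * T / (Nat.totient r : ℝ) = L * (R - P) + L * (P - Q / (Nat.totient r : ℝ)) -
      L * (T - Q) / (Nat.totient r : ℝ) := by ring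
  rw [e1]
  have b1 : |L * (R - P)| ≤ L * (1 + N / ZZ N) := by
    rw [abs_mul, abs_of_pos hL0]
    exact mul_le_mul_of_nonneg_left hcount hL0.le
  have b2 : |L * (P - Q / (Nat.totient r : ℝ))| ≤ L * (32 * 4 ^ (U + 2) / L ^ (U + 2) * N) := by
    rw [abs_mul, abs_of_pos hL0]
    exact mul_le_mul_of_nonneg_left hsum hL0.le
  have b3 : |L * (T - Q) / (Nat.totient r : ℝ)| ≤ 8 * (N / ZZ N) := by
    rw [abs_div, abs_of_pos (show (0 : ℝ) < (Nat.totient r : ℝ) by linarith), abs_mul, abs_of_pos hL0]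
    refine (div_le_self (by positivity) hφ).trans ?_
    calc L * |T - Q| ≤ L * (8 / L * (N / ZZ N)) := mul_le_mul_of_nonneg_left hmain hL0.le
      _ = 8 * (N / ZZ N) := by field_simp
  have hLU : 0 < L ^ U := by positivity
  have hZN : (ZZ N : ℝ) ≤ N := by
    have hN1 : (1 : ℝ) ≤ N := by exact_mod_cast (by have := hB.two; omega : 1 ≤ N)
    unfold ZZ
    refine (Nat.floor_le (Real.rpow_nonneg hNr.le _)).trans ?_
    nth_rewrite 2 [← Real.rpow_one (N : ℝ)]
    exact Real.rpow_le_rpow_of_exponent_le hN1 (by have := kpos; linarith)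
  have hNZ1 : 1 ≤ N / (ZZ N : ℝ) := by
    rw [one_le_div hZr]
    exact hZN
  have c1 : N / (ZZ N : ℝ) ≤ N / (1000 * L ^ (U + 2)) := div_le_div_of_nonneg_left hNr.le (by positivity) hUZ
  have c2 : N / (1000 * L ^ (U + 2)) * (10 * L) ≤ N / L ^ U * (1 / 100) := by
    have e : N / (1000 * L ^ (U + 2)) * (10 * L) = N / L ^ U * (1 / 100) * (1 / L) := by
      rw [pow_add]
      field_simp
      norm_num
    rw [e]
    have : 1 / L ≤ 1 := by rw [div_le_one hL0]; exact hL1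
    have h0 : 0 ≤ N / L ^ U * (1 / 100) := by positivity
    nlinarith
  have c3 : L * (32 * 4 ^ (U + 2) / L ^ (U + 2) * N) ≤ N / L ^ U * (32 / 1000) := by
    have e : L * (32 * 4 ^ (U + 2) / L ^ (U + 2) * N) = N / L ^ U * (32 / 1000) * (1000 * 4 ^ (U + 2) / L) := by
      rw [pow_add L]
      field_simp
    rw [e]
    have : 1000 * 4 ^ (U + 2) / L ≤ 1 := by rw [div_le_one hL0]; exact hU4
    have h0 : 0 ≤ N / L ^ U * (32 / 1000) := by positivity
    nlinarith
  have c4 : L * (1 + N / ZZ N) + 8 * (N / ZZ N) ≤ N / (ZZ N : ℝ) * (10 * L) := by nlinarith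
  have c5 : N / (ZZ N : ℝ) * (10 * L) ≤ N / L ^ U * (1 / 100) :=
    (mul_le_mul_of_nonneg_right c1 (by positivity)).trans c2
  have h0 : 0 < N / L ^ U := by positivity
  refine (abs_sub _ _).trans ?_
  have := abs_add_le (L * (R - P)) (L * (P - Q / (Nat.totient r : ℝ)))
  linarith

end Pool.Agent.L7h46.GK
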