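import Pool.Agent.L7h46.GK.Stm
import Pool.Agent.R460.GS.Base
import Pool.Agent.Y614.GJ.Core
import Pool.Agent.Y378.GJ.Pw
import Pool.Agent.Y948.GJ.TiMaj

set_option autoImplicit false
set_option linter.unusedSectionVars false

/-! Project GK (helper46): the file `R460/GS/Core2.lean` of the starting tree with a general level `κ`. -/

/-! The mean square in a residue class, for general functions. Adapted from `Y614/GJ/Core` and `Y378/GJ/Pw`. -/

namespace Pool.Agent.L7h46.GK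

open Lv (κ)
open Pool.Agent.R460.GS

variable [Lv]

open Finset
open Pool.Agent.Y883.GJ
open Pool.Agent.H807R2.Dav (ee)
open Pool.Agent.Y614.GJ.Core (P P_nonneg S_le P_le q_le_phi card_above gcd_above dirich ev_log)

/-- truncation -/
noncomputable def tr (y : ℕ) (F : ℕ → ℂ) (n : ℕ) : ℂ := if n ≤ y then F n else 0

lemma tr_sum {y N : ℕ} (hy : y ≤ N) (p : ℕ → Prop) [DecidablePred p] (F H : ℕ → ℂ) :
    ∑ n ∈ (Icc 1 N).filter p, tr y F n * H n = ∑ n ∈ (Icc 1 y).filter p, F n * H n := by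
  have h1 : (Icc 1 y).filter p ⊆ (Icc 1 N).filter p :=
    filter_subset_filter _ (Icc_subset_Icc le_rfl hy)
  rw [← sum_subset h1]
  · refine sum_congr rfl fun n hn => ?_
    rw [mem_filter, mem_Icc] at hn
    unfold tr
    rw [if_pos hn.1.2]
  · intro n hn hn'
    rw [mem_filter, mem_Icc] at hn hn'
    have : ¬ n ≤ y := fun h => hn' ⟨⟨hn.1.1, h⟩, hn.2⟩
    unfold tr
    rw [if_neg this, zero_mul]

lemma cl_tr {q y N : ℕ} (hy : y ≤ N) (F : ℕ → ℂ) (β : ℝ) (l : ZMod q) :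
    cl q N (tr y F) β l = cl q y F β l := by
  unfold cl
  exact tr_sum hy _ F _

lemma cs_tr {q y N : ℕ} (hy : y ≤ N) (F : ℕ → ℂ) (β : ℝ) (χ : DirichletCharacter ℂ q) :
    cs q N (tr y F) β χ = cs q y F β χ := by
  unfold cs
  have h := tr_sum hy (fun _ => True) F (fun n => χ (n : ZMod q) * ee (n * β))
  rw [filter_true, filter_true] at h
  simp only [mul_assoc]
  exact h

lemma conv_tr {y₁ y₂ N : ℕ} (h1 : y₁ ≤ N) (h2 : y₂ ≤ N) (F G : ℕ → ℂ) (n : ℕ) :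
    (∑ b ∈ Icc 1 N, ∑ c ∈ Icc 1 N, if b + c = n then tr y₁ F b * tr y₂ G c else 0) =
      ∑ b ∈ Icc 1 y₁, ∑ c ∈ Icc 1 y₂, if b + c = n then F b * G c else 0 := by
  rw [← sum_subset (Icc_subset_Icc le_rfl h1 : Icc 1 y₁ ⊆ Icc 1 N)]
  · refine sum_congr rfl fun b hb => ?_
    rw [mem_Icc] at hb
    rw [← sum_subset (Icc_subset_Icc le_rfl h2 : Icc 1 y₂ ⊆ Icc 1 N)]
    · refine sum_congr rfl fun c hc => ?_
      rw [mem_Icc] at hc
      unfold tr
      rw [if_pos hb.2, if_pos hc.2]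
    · intro c hc hc'
      rw [mem_Icc] at hc hc'
      have : ¬ c ≤ y₂ := fun h => hc' ⟨hc.1, h⟩
      unfold tr
      rw [if_neg this, mul_zero, ite_self]
  · intro b hb hb'
    rw [mem_Icc] at hb hb'
    have : ¬ b ≤ y₁ := fun h => hb' ⟨hb.1, h⟩
    refine sum_eq_zero fun c _ => ?_
    unfold tr
    rw [if_neg this, zero_mul, ite_self]

lemma norm_tr_le (y : ℕ) (F : ℕ → ℂ) (n : ℕ) : ‖tr y F n‖ ≤ ‖F n‖ := by
  unfold tr
  split_ifs
  · exact le_rfl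
  · rw [norm_zero]; exact norm_nonneg _

/-- the major arcs -/
lemma majorG (h3 : LiftStm) (F G : ℕ → ℂ) {q N k : ℕ} [NeZero q] [NeZero (k * q)] {h : ℤ} {β η : ℝ}
    {a : ZMod q} {X : ℝ} (hβ : β = h / (k * q : ℕ) + η)
    (hX : ∀ a' : ZMod (k * q), ((a'.val : ℕ) : ZMod q) = a →
      ‖∑ l : ZMod (k * q), cl (k * q) N F η l * cl (k * q) N G η (a' - l)‖ ^ 2 ≤
        X * (∑ l : ZMod (k * q), ‖cl (k * q) N F η l‖ ^ 2 +
          ∑ l : ZMod (k * q), ‖cl (k * q) N G η l‖ ^ 2)) :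
    ‖∑ l : ZMod q, cl q N F β l * cl q N G β (a - l)‖ ^ 2 ≤
      (k : ℝ) ^ 2 * (X * (P (k * q) N F β + P (k * q) N G β)) := by
  obtain ⟨l1, -⟩ := h3 q k N F G h β η hβ
  have l2 : ∀ F' : ℕ → ℂ, ∑ l : ZMod (k * q), ‖cl (k * q) N F' η l‖ ^ 2 = P (k * q) N F' β := by
    intro F'
    obtain ⟨-, l2⟩ := h3 q k N F' F' h β η hβ
    exact sum_congr rfl fun l _ => by rw [l2]
  rw [l2, l2] at hX
  set Y := X * (P (k * q) N F β + P (k * q) N G β) with hY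
  set S := univ.filter (fun a' : ZMod (k * q) => ((a'.val : ℕ) : ZMod q) = a) with hS
  have hc : (S.card : ℝ) ≤ k := by exact_mod_cast card_above k q a
  have h0 : ∀ a' ∈ S, ‖∑ l : ZMod (k * q), cl (k * q) N F η l *
      cl (k * q) N G η (a' - l)‖ ^ 2 ≤ Y := fun a' ha' => hX a' (mem_filter.1 ha').2
  calc ‖∑ l : ZMod q, cl q N F β l * cl q N G β (a - l)‖ ^ 2
      ≤ (∑ a' ∈ S, ‖∑ l : ZMod (k * q), cl (k * q) N F η l *
          cl (k * q) N G η (a' - l)‖) ^ 2 := by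
        have := l1 a
        gcongr
    _ ≤ S.card * ∑ a' ∈ S, ‖∑ l : ZMod (k * q), cl (k * q) N F η l *
          cl (k * q) N G η (a' - l)‖ ^ 2 := sq_sum_le_card_mul_sum_sq
    _ ≤ S.card * ∑ a' ∈ S, Y := by
        gcongr with a' ha'
        exact h0 a' ha'
    _ = (S.card : ℝ) ^ 2 * Y := by rw [sum_const, nsmul_eq_mul]; ring
    _ ≤ (k : ℝ) ^ 2 * Y := by
        rcases S.eq_empty_or_nonempty with hS0 | ⟨a', ha'⟩
        · -- no class: use the class of `a`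
          exfalso
          have : ((a.val : ℕ) : ZMod (k * q)) ∈ S := by
            rw [hS, mem_filter]
            refine ⟨mem_univ _, ?_⟩
            have hq : 0 < q := NeZero.pos q
            have hk : 0 < k := Nat.pos_of_ne_zero (left_ne_zero_of_mul (NeZero.ne (k * q)))
            have h1 : a.val < k * q := lt_of_lt_of_le (ZMod.val_lt a) (Nat.le_mul_of_pos_left q hk)
            rw [ZMod.val_natCast, Nat.mod_eq_of_lt h1, ZMod.natCast_zmod_val]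
          rw [hS0] at this
          exact absurd this (notMem_empty _)
        · have hY0 : 0 ≤ Y := le_trans (by positivity) (h0 a' ha')
          gcongr

/-- the estimate for one frequency -/
lemma pointG (h3 : LiftStm) (h5 : OrthStm) (F G : ℕ → ℂ) {A C T : ℕ} {L : ℝ} {N q : ℕ} [NeZero q]
    {a : ZMod q} (hL : L = Real.log N) (hL8 : 8 ≤ L) (hN : 1 ≤ N)
    (hqN : (q : ℝ) ≤ N) (hqLC : (q : ℝ) * L ^ C ≤ N)
    (hgcd : (Nat.gcd a.val q : ℝ) ≤ L ^ T)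
    (hmin : ∀ (k : ℕ) (h : ℤ) (β : ℝ), L ^ C ≤ k → (q : ℝ) * k * L ^ C ≤ N →
      IsCoprime h (k : ℤ) → |q * β - h / k| ≤ 1 / (k : ℝ) ^ 2 →
      ∑ χ : DirichletCharacter ℂ q, ‖cs q N G β χ‖ ^ 2 ≤ (N : ℝ) ^ 2 / L ^ (A + 11))
    (hnon : ∀ β : ℝ, ∑ l ∈ univ.filter (fun l : ZMod q => ¬ IsUnit l),
      ‖cl q N G β l‖ ^ 2 ≤ (N : ℝ) ^ 2 / (q * L ^ (A + 9)) / 2)
    (hpw : ∀ j : ℕ, ((j + 1 : ℕ) : ℝ) ≤ L ^ C → ∀ a' : ZMod ((j + 1) * q),
      (Nat.gcd a'.val ((j + 1) * q) : ℝ) ≤ L ^ (T + C) → ∀ η : ℝ, |η| ≤ L ^ C / N →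
      ‖∑ l : ZMod ((j + 1) * q), cl ((j + 1) * q) N F η l *
        cl ((j + 1) * q) N G η (a' - l)‖ ^ 2 ≤
      (N : ℝ) ^ 2 / ((((j + 1) * q : ℕ) : ℝ) * L ^ (A + 2 * C + 9)) *
        (∑ l : ZMod ((j + 1) * q), ‖cl ((j + 1) * q) N F η l‖ ^ 2 +
          ∑ l : ZMod ((j + 1) * q), ‖cl ((j + 1) * q) N G η l‖ ^ 2))
    (β : ℝ) :
    ‖∑ l : ZMod q, cl q N F β l * cl q N G β (a - l)‖ ^ 2 ≤
      (N : ℝ) ^ 2 / (q * L ^ (A + 9)) * P q N F β +
      L ^ C * ((N : ℝ) ^ 2 / (q * L ^ (A + 2 * C + 9))) *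
        ∑ j ∈ range ⌊L ^ C⌋₊, (P ((j + 1) * q) N F β + P ((j + 1) * q) N G β) := by
  have hL0 : 0 < L := by linarith
  have hq0 : (0 : ℝ) < q := by exact_mod_cast NeZero.pos q
  have hN0 : (0 : ℝ) < N := by exact_mod_cast hN
  have hLC : 0 < L ^ C := by positivity
  have hsum0 : 0 ≤ ∑ j ∈ range ⌊L ^ C⌋₊,
      (P ((j + 1) * q) N F β + P ((j + 1) * q) N G β) :=
    sum_nonneg fun j _ => add_nonneg (P_nonneg _ _ _ _) (P_nonneg _ _ _ _)
  set n := ⌊(N : ℝ) / (q * L ^ C)⌋₊ with hn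
  have hn0 : 0 < n := by
    rw [hn, Nat.floor_pos, le_div_iff₀ (by positivity), one_mul]
    exact hqLC
  have hn1 : (n : ℝ) ≤ (N : ℝ) / (q * L ^ C) := Nat.floor_le (by positivity)
  have hn2 : (N : ℝ) / (q * L ^ C) < n + 1 := Nat.lt_floor_add_one _
  obtain ⟨j, h, hj, hcop, hx⟩ := dirich ((q : ℝ) * β) hn0
  have hjn : ((j + 1 : ℕ) : ℝ) ≤ n := by exact_mod_cast hj
  have hk0 : (0 : ℝ) < ((j + 1 : ℕ) : ℝ) := by positivity
  have hk1 : (1 : ℝ) ≤ ((j + 1 : ℕ) : ℝ) := by exact_mod_cast Nat.succ_pos j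
  have hP0 : 0 ≤ P q N F β := P_nonneg _ _ _ _
  by_cases hkC : L ^ C ≤ ((j + 1 : ℕ) : ℝ)
  · -- minor arcs
    have e1 : (q : ℝ) * ((j + 1 : ℕ) : ℝ) * L ^ C ≤ N := by
      have := (le_div_iff₀ (by positivity)).1 (hjn.trans hn1)
      linarith
    have e2 : |(q : ℝ) * β - h / ((j + 1 : ℕ) : ℝ)| ≤ 1 / ((j + 1 : ℕ) : ℝ) ^ 2 := by
      refine hx.trans ?_
      rw [sq]
      apply one_div_le_one_div_of_le (by positivity)
      apply mul_le_mul_of_nonneg_right _ hk0.le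
      linarith
    have e3 := hmin (j + 1) h β hkC e1 hcop e2
    have e4 := P_le h5 e3 (hnon β)
    have hφ0 : (0 : ℝ) < q.totient := by exact_mod_cast Nat.totient_pos.2 (NeZero.pos q)
    have e5 : ((q.totient : ℝ))⁻¹ ≤ 3 * L / q := by
      have h1 := q_le_phi (NeZero.pos q)
      have h2 : Real.log q ≤ L := by
        rw [hL]
        exact Real.log_le_log hq0 hqN
      rw [inv_eq_one_div, div_le_div_iff₀ hφ0 hq0, one_mul]
      refine h1.trans ?_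
      rw [mul_comm (3 * L)]
      apply mul_le_mul_of_nonneg_left _ hφ0.le
      linarith
    have e6 : ((q.totient : ℝ))⁻¹ * ((N : ℝ) ^ 2 / L ^ (A + 11)) ≤
        (N : ℝ) ^ 2 / (q * L ^ (A + 9)) / 2 := by
      calc ((q.totient : ℝ))⁻¹ * ((N : ℝ) ^ 2 / L ^ (A + 11))
          ≤ 3 * L / q * ((N : ℝ) ^ 2 / L ^ (A + 11)) := by gcongr
        _ = (N : ℝ) ^ 2 / (q * L ^ (A + 9)) * (3 / L) := by
            rw [show A + 11 = (A + 9) + 2 by ring, pow_add]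
            field_simp
        _ ≤ (N : ℝ) ^ 2 / (q * L ^ (A + 9)) * (1 / 2) := by
            have : 3 / L ≤ 1 / 2 := by
              rw [div_le_div_iff₀ hL0 (by norm_num)]
              linarith
            gcongr
        _ = _ := by ring
    have e7 : P q N G β ≤ (N : ℝ) ^ 2 / (q * L ^ (A + 9)) := by
      refine e4.trans ?_
      linarith
    calc ‖∑ l : ZMod q, cl q N F β l * cl q N G β (a - l)‖ ^ 2
        ≤ P q N F β * P q N G β := S_le q N F G β a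
      _ ≤ P q N F β * ((N : ℝ) ^ 2 / (q * L ^ (A + 9))) := by gcongr
      _ = (N : ℝ) ^ 2 / (q * L ^ (A + 9)) * P q N F β + 0 := by ring
      _ ≤ _ := by
          gcongr
          positivity
  · -- major arcs
    rw [not_le] at hkC
    set k : ℕ := j + 1 with hk
    have hηle : |β - h / ((k * q : ℕ) : ℝ)| ≤ L ^ C / N := by
      have e1 : β - h / ((k * q : ℕ) : ℝ) = ((q : ℝ) * β - h / (k : ℝ)) / q := by
        push_cast
        field_simp
      rw [e1, abs_div, abs_of_pos hq0, div_le_div_iff₀ hq0 hN0]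
      have e2 : (N : ℝ) ≤ (n + 1) * (q * L ^ C) := by
        have := (div_lt_iff₀ (by positivity)).1 hn2
        linarith
      have hn3 : (0 : ℝ) < n + 1 := by positivity
      calc |(q : ℝ) * β - h / (k : ℝ)| * N ≤ 1 / (((n : ℝ) + 1) * (k : ℝ)) * N := by gcongr
        _ ≤ 1 / ((n : ℝ) + 1) * N := by
            apply mul_le_mul_of_nonneg_right _ hN0.le
            apply one_div_le_one_div_of_le hn3
            nlinarith
        _ ≤ 1 / ((n : ℝ) + 1) * ((n + 1) * (q * L ^ C)) := by gcongr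
        _ = L ^ C * q := by field_simp
    have e3 := majorG h3 F G (a := a)
      (X := (N : ℝ) ^ 2 / (((k * q : ℕ) : ℝ) * L ^ (A + 2 * C + 9)))
      (h := h) (β := β) (η := β - h / ((k * q : ℕ) : ℝ)) (by ring)
      (fun a' ha' => hpw j hkC.le a' (by
        have h1 := gcd_above ha'
        have h2 : ((Nat.gcd a'.val (k * q) : ℕ) : ℝ) ≤ (k : ℝ) * (Nat.gcd a.val q : ℝ) := by
          exact_mod_cast h1
        calc ((Nat.gcd a'.val (k * q) : ℕ) : ℝ) ≤ (k : ℝ) * (Nat.gcd a.val q : ℝ) := h2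
          _ ≤ L ^ C * L ^ T := by gcongr
          _ = L ^ (T + C) := by rw [← pow_add, add_comm]) _ hηle)
    have hPk : 0 ≤ P (k * q) N F β + P (k * q) N G β :=
      add_nonneg (P_nonneg _ _ _ _) (P_nonneg _ _ _ _)
    have e4 : P (k * q) N F β + P (k * q) N G β ≤ ∑ j ∈ range ⌊L ^ C⌋₊,
        (P ((j + 1) * q) N F β + P ((j + 1) * q) N G β) := by
      refine single_le_sum (f := fun j => P ((j + 1) * q) N F β + P ((j + 1) * q) N G β)
        (fun j _ => add_nonneg (P_nonneg _ _ _ _) (P_nonneg _ _ _ _)) (mem_range.2 ?_)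
      have : k ≤ ⌊L ^ C⌋₊ := Nat.le_floor hkC.le
      omega
    have hX0 : 0 ≤ (N : ℝ) ^ 2 / (q * L ^ (A + 2 * C + 9)) := by positivity
    calc ‖∑ l : ZMod q, cl q N F β l * cl q N G β (a - l)‖ ^ 2
        ≤ (k : ℝ) ^ 2 * ((N : ℝ) ^ 2 / (((k * q : ℕ) : ℝ) * L ^ (A + 2 * C + 9)) *
          (P (k * q) N F β + P (k * q) N G β)) := e3
      _ = k * ((N : ℝ) ^ 2 / (q * L ^ (A + 2 * C + 9))) *
          (P (k * q) N F β + P (k * q) N G β) := by
          rw [Nat.cast_mul]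
          field_simp
      _ ≤ L ^ C * ((N : ℝ) ^ 2 / (q * L ^ (A + 2 * C + 9))) *
          ∑ j ∈ range ⌊L ^ C⌋₊, (P ((j + 1) * q) N F β + P ((j + 1) * q) N G β) := by
          gcongr
      _ = 0 + L ^ C * ((N : ℝ) ^ 2 / (q * L ^ (A + 2 * C + 9))) *
          ∑ j ∈ range ⌊L ^ C⌋₊, (P ((j + 1) * q) N F β + P ((j + 1) * q) N G β) := by
          ring
      _ ≤ _ := by
          gcongr
          positivity


lemma sum_norm_le {ι : Type*} (s : Finset ι) (x : ι → ℂ) (K : ℝ) (h : ∀ i ∈ s, ‖x i‖ ≤ K) :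
    ‖∑ i ∈ s, x i‖ ≤ (s.card : ℝ) * K := by
  refine (norm_sum_le_of_le _ h).trans (le_of_eq ?_)
  rw [sum_const, nsmul_eq_mul]

open Classical in
/-- the pointwise estimate on the major arcs -/
lemma pwG (h3 : OrthStm) {q N : ℕ} [NeZero q] (F G : ℕ → ℂ) {A C₃ K B₂ U : ℕ} {L η : ℝ} {a : ZMod q}
    (hL : L = Real.log N) (hL200 : 200 ≤ L) (hN : 1 ≤ N) (hqN : (q : ℝ) ≤ N)
    (B : Finset (DirichletCharacter ℂ q)) (hBc : (B.card : ℝ) ≤ L ^ C₃)
    (hgood : ∀ S : Finset (DirichletCharacter ℂ q), Disjoint S B →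
      ∑ χ ∈ S, ‖cs q N G η χ‖ ^ 2 ≤ (N : ℝ) ^ 2 / L ^ (A + 4))
    (hnon : ∑ l ∈ univ.filter (fun l : ZMod q => ¬ IsUnit l), ‖cl q N G η l‖ ^ 2 ≤
      (N : ℝ) ^ 2 / (q * L ^ (A + 2)))
    (hsm : ∀ χ : DirichletCharacter ℂ q, (χ.conductor : ℝ) ≤ L ^ K → ‖cs q N G η χ‖ ≤ N / L ^ U)
    (hU : C₃ + A + 4 ≤ 2 * U)
    (hsh : ∀ χ : DirichletCharacter ℂ q, L ^ K < χ.conductor →
      ‖∑ l : ZMod q, cl q N F η l * χ (a - l)‖ ≤ N / L ^ B₂)
    (hB₂ : 2 * C₃ + A + 3 ≤ 2 * B₂) :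
    ‖∑ l : ZMod q, cl q N F η l * cl q N G η (a - l)‖ ^ 2 ≤ (N : ℝ) ^ 2 / (q * L ^ A) *
      (∑ l : ZMod q, ‖cl q N F η l‖ ^ 2 + ∑ l : ZMod q, ‖cl q N G η l‖ ^ 2) := by
  have hL0 : 0 < L := by linarith
  have hL1 : 1 ≤ L := by linarith
  have hNp : (0 : ℝ) < N := by exact_mod_cast hN
  have hq0 : 0 < q := Nat.pos_of_ne_zero (NeZero.ne q)
  have hqr : (0 : ℝ) < q := by exact_mod_cast hq0
  have hφ0 : (0 : ℝ) < q.totient := by exact_mod_cast Nat.totient_pos.2 hq0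
  have hφ : ((q.totient : ℝ))⁻¹ ≤ 3 * L / q := by
    have h1 := q_le_phi hq0
    have h2 : Real.log q ≤ L := by
      rw [hL]
      exact Real.log_le_log hqr hqN
    rw [inv_eq_one_div, div_le_div_iff₀ hφ0 hqr, one_mul]
    refine h1.trans ?_
    rw [mul_comm (3 * L)]
    apply mul_le_mul_of_nonneg_left _ hφ0.le
    linarith
  obtain ⟨BF, hBF⟩ : ∃ BF : Finset (DirichletCharacter ℂ q),
      BF = B.filter (fun χ => L ^ K < (χ.conductor : ℝ)) := ⟨_, rfl⟩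
  have hBFc : (BF.card : ℝ) ≤ L ^ C₃ := by
    refine le_trans ?_ hBc
    rw [hBF]
    exact_mod_cast card_filter_le _ _
  have hFB : ∑ χ ∈ univ.filter (fun χ => χ ∉ BF), ‖cs q N G η χ‖ ^ 2 ≤
      2 * ((N : ℝ) ^ 2 / L ^ (A + 4)) := by
    have hsub : univ.filter (fun χ => χ ∉ BF) ⊆
        (univ.filter (fun χ => χ ∉ B)) ∪ (B.filter (fun χ => ¬ L ^ K < (χ.conductor : ℝ))) := by
      intro χ hχ
      rw [mem_filter] at hχ
      rw [mem_union, mem_filter, mem_filter]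
      by_cases hb : χ ∈ B
      · right
        refine ⟨hb, fun h => hχ.2 ?_⟩
        rw [hBF, mem_filter]
        exact ⟨hb, h⟩
      · left
        exact ⟨mem_univ _, hb⟩
    have hdis : Disjoint (univ.filter (fun χ => χ ∉ B))
        (B.filter (fun χ => ¬ L ^ K < (χ.conductor : ℝ))) := by
      rw [disjoint_left]
      intro χ k1 k2
      exact (mem_filter.1 k1).2 (mem_filter.1 k2).1
    refine (sum_le_sum_of_subset_of_nonneg hsub fun _ _ _ => sq_nonneg _).trans ?_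
    rw [sum_union hdis]
    have k1 : ∑ χ ∈ univ.filter (fun χ => χ ∉ B), ‖cs q N G η χ‖ ^ 2 ≤ (N : ℝ) ^ 2 / L ^ (A + 4) := by
      apply hgood
      rw [disjoint_left]
      intro χ k1 k2
      exact (mem_filter.1 k1).2 k2
    have k2 : ∑ χ ∈ B.filter (fun χ => ¬ L ^ K < (χ.conductor : ℝ)),
        ‖cs q N G η χ‖ ^ 2 ≤ (N : ℝ) ^ 2 / L ^ (A + 4) := by
      calc ∑ χ ∈ B.filter (fun χ => ¬ L ^ K < (χ.conductor : ℝ)), ‖cs q N G η χ‖ ^ 2
          ≤ ∑ χ ∈ B.filter (fun χ => ¬ L ^ K < (χ.conductor : ℝ)), ((N : ℝ) / L ^ U) ^ 2 := by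
            refine sum_le_sum fun χ hχ => ?_
            exact pow_le_pow_left₀ (norm_nonneg _) (hsm χ (not_lt.1 (mem_filter.1 hχ).2)) 2
        _ = ((B.filter (fun χ => ¬ L ^ K < (χ.conductor : ℝ))).card : ℝ) * ((N : ℝ) / L ^ U) ^ 2 := by
            rw [sum_const, nsmul_eq_mul]
        _ ≤ L ^ C₃ * ((N : ℝ) / L ^ U) ^ 2 := by
            apply mul_le_mul_of_nonneg_right _ (sq_nonneg _)
            refine le_trans ?_ hBc
            exact_mod_cast card_filter_le _ _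
        _ = (N : ℝ) ^ 2 * (L ^ C₃ / L ^ (2 * U)) := by
            rw [div_pow, ← pow_mul, mul_comm U 2]
            ring
        _ ≤ (N : ℝ) ^ 2 * (1 / L ^ (A + 4)) := by
            have e1 : L ^ C₃ / L ^ (2 * U) ≤ 1 / L ^ (A + 4) := by
              rw [div_le_div_iff₀ (by positivity) (by positivity), one_mul, ← pow_add]
              exact pow_le_pow_right₀ hL1 (by omega)
            gcongr
        _ = _ := by ring
    linarith
  obtain ⟨Fc, hFc⟩ : ∃ Fc : ZMod q → ℂ, Fc = cl q N F η := ⟨_, rfl⟩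
  obtain ⟨Gc, hGc⟩ : ∃ Gc : ZMod q → ℂ, Gc = cl q N G η := ⟨_, rfl⟩
  obtain ⟨Gb, hGb⟩ : ∃ Gb : ZMod q → ℂ, Gb = clB q N G η BF := ⟨_, rfl⟩
  obtain ⟨SF, hSF⟩ : ∃ SF : ℝ, SF = ∑ l, ‖Fc l‖ ^ 2 := ⟨_, rfl⟩
  obtain ⟨SG, hSG⟩ : ∃ SG : ℝ, SG = ∑ l, ‖Gc l‖ ^ 2 := ⟨_, rfl⟩
  have hSF0 : 0 ≤ SF := by rw [hSF]; exact sum_nonneg fun _ _ => sq_nonneg _
  have hSG0 : 0 ≤ SG := by rw [hSG]; exact sum_nonneg fun _ _ => sq_nonneg _
  obtain ⟨E, hE⟩ : ∃ E : ℝ, E = (N : ℝ) ^ 2 / (q * L ^ (A + 1)) := ⟨_, rfl⟩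
  have hE0 : 0 ≤ E := by rw [hE]; positivity
  have hGg : ∑ l, ‖Gc l - Gb l‖ ^ 2 ≤ E := by
    rw [hE, hGc, hGb, (h3 q N G η BF).1]
    have k1 : (q.totient : ℝ)⁻¹ * ∑ χ ∈ univ.filter (fun χ => χ ∉ BF), ‖cs q N G η χ‖ ^ 2 ≤
        3 * L / q * (2 * ((N : ℝ) ^ 2 / L ^ (A + 4))) := by
      refine mul_le_mul hφ ?_ (sum_nonneg fun _ _ => sq_nonneg _) (by positivity)
      exact hFB
    have k2 : 3 * L / q * (2 * ((N : ℝ) ^ 2 / L ^ (A + 4))) = 6 / L ^ 2 * ((N : ℝ) ^ 2 / (q * L ^ (A + 1))) := by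
      have e : L ^ (A + 4) = L ^ (A + 1) * L * L ^ 2 := by ring
      rw [e]
      field_simp
      try ring
    have k3 : (N : ℝ) ^ 2 / (q * L ^ (A + 2)) = 1 / L * ((N : ℝ) ^ 2 / (q * L ^ (A + 1))) := by
      have e : L ^ (A + 2) = L ^ (A + 1) * L := by ring
      rw [e]
      field_simp
    have k4 : 6 / L ^ 2 ≤ 1 / 2 := by
      rw [div_le_div_iff₀ (by positivity) two_pos]
      nlinarith
    have k5 : 1 / L ≤ 1 / 2 := by
      rw [div_le_div_iff₀ hL0 two_pos]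
      linarith
    have k6 : 0 ≤ (N : ℝ) ^ 2 / (q * L ^ (A + 1)) := by positivity
    rw [k2] at k1
    rw [k3] at hnon
    have k7 := mul_le_mul_of_nonneg_right k4 k6
    have k8 := mul_le_mul_of_nonneg_right k5 k6
    have k9 : (q.totient : ℝ)⁻¹ * ∑ χ ∈ univ.filter (fun χ => χ ∉ BF), ‖cs q N G η χ‖ ^ 2 +
        ∑ l ∈ univ.filter (fun l : ZMod q => ¬ IsUnit l), ‖cl q N G η l‖ ^ 2 ≤
        (N : ℝ) ^ 2 / (q * L ^ (A + 1)) := by linarith
    convert k9 using 2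
  have hcs : ∀ χ : DirichletCharacter ℂ q, ‖cs q N G η χ‖ ^ 2 ≤ q.totient * SG := by
    intro χ
    have k1 : ‖cs q N G η χ‖ ^ 2 ≤ ∑ χ : DirichletCharacter ℂ q, ‖cs q N G η χ‖ ^ 2 :=
      single_le_sum (f := fun χ : DirichletCharacter ℂ q => ‖cs q N G η χ‖ ^ 2)
        (fun _ _ => sq_nonneg _) (mem_univ χ)
    refine k1.trans ?_
    rw [(h3 q N G η B).2.2, hSG, hGc]
    apply mul_le_mul_of_nonneg_left _ hφ0.le
    exact sum_le_sum_of_subset_of_nonneg (filter_subset _ _) fun _ _ _ => sq_nonneg _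
  have t1 : ‖∑ l, Fc l * (Gc (a - l) - Gb (a - l))‖ ^ 2 ≤ SF * E := by
    refine (Pool.Agent.Y378.GJ.cauchy Fc (fun l => Gc l - Gb l) a).trans ?_
    rw [← hSF]
    exact mul_le_mul_of_nonneg_left hGg hSF0
  have t2 : ‖∑ l, Fc l * Gb (a - l)‖ ^ 2 ≤ SG * E := by
    have e1 : ∑ l, Fc l * Gb (a - l) = (q.totient : ℂ)⁻¹ * ∑ χ ∈ BF, cs q N G η χ *
        ∑ l, Fc l * χ⁻¹ (a - l) := by
      rw [hGb]
      unfold clB
      have e2 : ∀ l : ZMod q, Fc l * ((q.totient : ℂ)⁻¹ * ∑ χ ∈ BF, χ⁻¹ (a - l) * cs q N G η χ) =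
          ∑ χ ∈ BF, (q.totient : ℂ)⁻¹ * (cs q N G η χ * (Fc l * χ⁻¹ (a - l))) := by
        intro l
        rw [mul_sum, mul_sum]
        refine sum_congr rfl fun χ _ => ?_
        ring
      rw [sum_congr rfl fun l _ => e2 l, sum_comm, mul_sum]
      refine sum_congr rfl fun χ _ => ?_
      rw [← mul_sum, ← mul_sum]
    have e3 : ‖∑ χ ∈ BF, cs q N G η χ * ∑ l, Fc l * χ⁻¹ (a - l)‖ ≤
        (BF.card : ℝ) * (Real.sqrt (q.totient * SG) * (N / L ^ B₂)) := by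
      apply sum_norm_le
      intro χ hχ
      rw [norm_mul]
      rw [hBF, mem_filter] at hχ
      refine mul_le_mul (Real.le_sqrt_of_sq_le (hcs χ)) ?_ (norm_nonneg _) (Real.sqrt_nonneg _)
      rw [hFc]
      apply hsh
      rw [DirichletCharacter.conductor_inv]
      exact hχ.2
    rw [e1, norm_mul, norm_inv, Complex.norm_natCast]
    calc ((q.totient : ℝ)⁻¹ * ‖∑ χ ∈ BF, cs q N G η χ * ∑ l, Fc l * χ⁻¹ (a - l)‖) ^ 2
        ≤ ((q.totient : ℝ)⁻¹ * (L ^ C₃ * (Real.sqrt (q.totient * SG) * (N / L ^ B₂)))) ^ 2 := by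
          have : (BF.card : ℝ) * (Real.sqrt (q.totient * SG) * (N / L ^ B₂)) ≤
              L ^ C₃ * (Real.sqrt (q.totient * SG) * (N / L ^ B₂)) := by
            apply mul_le_mul_of_nonneg_right hBFc
            positivity
          have h4 := e3.trans this
          gcongr
      _ = (q.totient : ℝ)⁻¹ * (L ^ (2 * C₃) * (SG * (N ^ 2 / L ^ (2 * B₂)))) := by
          have h5 : Real.sqrt (q.totient * SG) ^ 2 = q.totient * SG := Real.sq_sqrt (by positivity)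
          rw [mul_pow, mul_pow, mul_pow, h5, div_pow, ← pow_mul, ← pow_mul, mul_comm C₃ 2, mul_comm B₂ 2]
          field_simp
      _ ≤ (3 * L / q) * (L ^ (2 * C₃) * (SG * (N ^ 2 / L ^ (2 * B₂)))) := by
          apply mul_le_mul_of_nonneg_right hφ
          positivity
      _ = SG * (N ^ 2 / q * (3 * L ^ (2 * C₃ + 1) / L ^ (2 * B₂))) := by
          rw [pow_succ]
          field_simp
          try ring
      _ ≤ SG * (N ^ 2 / q * (1 / L ^ (A + 1))) := by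
          have e1 : 3 * L ^ (2 * C₃ + 1) / L ^ (2 * B₂) ≤ 1 / L ^ (A + 1) := by
            rw [div_le_div_iff₀ (by positivity) (by positivity), one_mul]
            calc 3 * L ^ (2 * C₃ + 1) * L ^ (A + 1) ≤ L * L ^ (2 * C₃ + 1) * L ^ (A + 1) := by
                  gcongr; linarith
              _ = L ^ (2 * C₃ + A + 3) := by ring
              _ ≤ L ^ (2 * B₂) := pow_le_pow_right₀ hL1 hB₂
          gcongr
      _ = SG * E := by
          rw [hE]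
          field_simp
  have hsum : ∑ l : ZMod q, Fc l * Gc (a - l) =
      (∑ l, Fc l * (Gc (a - l) - Gb (a - l))) + ∑ l, Fc l * Gb (a - l) := by
    rw [← sum_add_distrib]
    refine sum_congr rfl fun l _ => ?_
    ring
  rw [← hFc, ← hGc, ← hSF, ← hSG, hsum]
  have e4 : (N : ℝ) ^ 2 / (q * L ^ A) = L * E := by
    rw [hE, pow_succ L A]
    field_simp
  rw [e4]
  have k1 := norm_add_le (∑ l, Fc l * (Gc (a - l) - Gb (a - l))) (∑ l, Fc l * Gb (a - l))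
  obtain ⟨X, hX⟩ : ∃ X, X = ‖∑ l, Fc l * (Gc (a - l) - Gb (a - l))‖ := ⟨_, rfl⟩
  obtain ⟨Y, hY⟩ : ∃ Y, Y = ‖∑ l, Fc l * Gb (a - l)‖ := ⟨_, rfl⟩
  rw [← hX, ← hY] at k1
  rw [← hX] at t1
  rw [← hY] at t2
  calc ‖(∑ l, Fc l * (Gc (a - l) - Gb (a - l))) + ∑ l, Fc l * Gb (a - l)‖ ^ 2 ≤ (X + Y) ^ 2 :=
        pow_le_pow_left₀ (norm_nonneg _) k1 2
    _ ≤ 2 * X ^ 2 + 2 * Y ^ 2 := by nlinarith [sq_nonneg (X - Y)]
    _ ≤ 2 * (E * (SF + SG)) := by nlinarith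
    _ ≤ L * (E * (SF + SG)) := by
        apply mul_le_mul_of_nonneg_right (by linarith)
        positivity
    _ = L * E * (SF + SG) := by ring


/-- the norm of a sum over an interval with an exponential factor -/
lemma ee_step (η : ℝ) (i : ℕ) : ‖ee (((i + 1 : ℕ) : ℝ) * η) - ee ((i : ℝ) * η)‖ ≤ 7 * |η| := by
  have e2 : ee (((i + 1 : ℕ) : ℝ) * η) - ee ((i : ℝ) * η) = ee ((i : ℝ) * η) * (ee η - 1) := by
    have e3 : (((i + 1 : ℕ) : ℝ) * η) = (i : ℝ) * η + η := by push_cast; ring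
    rw [e3, Pool.Agent.H807R2.Dav.ee_add]
    ring
  rw [e2, norm_mul, Pool.Agent.H807R2.Dav.norm_ee, one_mul]
  exact Pool.Agent.Y948.GJ.ee_sub_one _

lemma cs_abel {q N y : ℕ} (hy : y ≤ N) (G : ℕ → ℂ) (η : ℝ) (χ : DirichletCharacter ℂ q) (X : ℝ)
    (hX : ∀ y' : ℕ, y' ≤ N → ‖∑ n ∈ Icc 1 y', G n * χ (n : ZMod q)‖ ≤ X) :
    ‖cs q y G η χ‖ ≤ X * (1 + 7 * |η| * y) := by
  unfold cs
  have h := abelI (fun n => G n * χ (n : ZMod q)) (fun n => ee ((n : ℝ) * η)) X (7 * |η|) y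
    (fun m hm => hX m (hm.trans hy)) (fun i => (Pool.Agent.H807R2.Dav.norm_ee _).le) (fun i => ee_step η i)
  refine le_trans (le_of_eq ?_) h
  congr 1
  refine sum_congr rfl fun n _ => ?_
  rw [smul_eq_mul]
  ring

/-- from a character to the primitive character -/
lemma char_split {q N y : ℕ} [NeZero q] (hy : y ≤ N) (G : ℕ → ℂ) (χ : DirichletCharacter ℂ q) (T₂ : ℝ)
    (h2 : ∑ n ∈ (Icc 1 N).filter (fun n => ¬ n.Coprime q), ‖G n‖ ≤ T₂) :
    ‖∑ n ∈ Icc 1 y, G n * χ (n : ZMod q)‖ ≤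
      ‖∑ n ∈ Icc 1 y, G n * χ.primitiveCharacter (n : ZMod χ.conductor)‖ + T₂ := by
  obtain ⟨ψ, hψ⟩ : ∃ ψ, ψ = χ.primitiveCharacter := ⟨_, rfl⟩
  rw [← hψ]
  have hcs : ∑ n ∈ Icc 1 y, G n * χ (n : ZMod q) = ∑ n ∈ Icc 1 y, G n * ψ (n : ZMod χ.conductor) -
      ∑ n ∈ (Icc 1 y).filter (fun n => ¬ n.Coprime q), G n * ψ (n : ZMod χ.conductor) := by
    rw [← Finset.sum_filter_add_sum_filter_not (Icc 1 y) (fun n => n.Coprime q)
      (fun n => G n * ψ (n : ZMod χ.conductor)), add_sub_cancel_right]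
    rw [← Finset.sum_filter_add_sum_filter_not (Icc 1 y) (fun n => n.Coprime q)]
    have h3 : ∑ n ∈ (Icc 1 y).filter (fun n => ¬ n.Coprime q), G n * χ (n : ZMod q) = 0 := by
      refine Finset.sum_eq_zero fun n hn => ?_
      rw [Finset.mem_filter] at hn
      have : χ (n : ZMod q) = 0 := by
        apply χ.map_nonunit
        rw [ZMod.isUnit_iff_coprime]
        exact hn.2
      rw [this, mul_zero]
    rw [h3, add_zero]
    refine Finset.sum_congr rfl fun n hn => ?_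
    rw [Finset.mem_filter] at hn
    have h4 := DirichletCharacter.primitiveCharacter_apply_of_isCoprime χ (a := (n : ℤ))
      (Nat.isCoprime_iff_coprime.2 hn.2)
    rw [Int.cast_natCast, Int.cast_natCast] at h4
    rw [hψ, ← h4]
  have hrest : ‖∑ n ∈ (Icc 1 y).filter (fun n => ¬ n.Coprime q), G n * ψ (n : ZMod χ.conductor)‖ ≤ T₂ := by
    refine (norm_sum_le _ _).trans (le_trans ?_ h2)
    refine le_trans (Finset.sum_le_sum fun n _ => ?_)
      (sum_le_sum_of_subset_of_nonneg (filter_subset_filter _ (Icc_subset_Icc le_rfl hy))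
        fun _ _ _ => norm_nonneg _)
    rw [norm_mul]
    exact mul_le_of_le_one_right (norm_nonneg _) (DirichletCharacter.norm_le_one _ _)
  rw [hcs]
  exact (norm_sub_le _ _).trans (add_le_add le_rfl hrest)

/-- characters of small conductor -/
lemma small_ap {N K U : ℕ} {G : ℕ → ℂ} (hAp : ApAt N K U G) (hNc : NcAt N U G) {q : ℕ} [NeZero q]
    (hqN : q ≤ N) (χ : DirichletCharacter ℂ q) (hχ : (χ.conductor : ℝ) ≤ Real.log N ^ K) (hL : 1 ≤ Real.log N)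
    (y : ℕ) (hy : y ≤ N) :
    ‖∑ n ∈ Icc 1 y, G n * χ (n : ZMod q)‖ ≤ 2 * Real.log N ^ K * (N / Real.log N ^ U) := by
  have hr : NeZero χ.conductor := ⟨DirichletCharacter.conductor_ne_zero χ⟩
  have hr0 : 0 < χ.conductor := Nat.pos_of_ne_zero hr.out
  have hL0 : 0 < Real.log N := by linarith
  have hX0 : 0 ≤ (N : ℝ) / Real.log N ^ U := by positivity
  have h1 := char_split hy G χ _ (hNc q (Nat.pos_of_ne_zero (NeZero.ne q)) hqN)
  have h2 : ∑ n ∈ Icc 1 y, G n * χ.primitiveCharacter (n : ZMod χ.conductor) =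
      ∑ c ∈ range χ.conductor, χ.primitiveCharacter (c : ZMod χ.conductor) *
        ∑ n ∈ (Icc 1 y).filter (fun n => n ≡ c [MOD χ.conductor]), G n := by
    have e1 : ∀ n ∈ Icc 1 y, n % χ.conductor ∈ range χ.conductor := fun n _ =>
      mem_range.2 (Nat.mod_lt _ hr0)
    rw [← sum_fiberwise_of_maps_to e1]
    refine sum_congr rfl fun c hc => ?_
    rw [mul_sum]
    rw [mem_range] at hc
    have e2 : (Icc 1 y).filter (fun n => n % χ.conductor = c) =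
        (Icc 1 y).filter (fun n => n ≡ c [MOD χ.conductor]) := by
      apply filter_congr
      intro n _
      unfold Nat.ModEq
      rw [Nat.mod_eq_of_lt hc]
    rw [e2]
    refine sum_congr rfl fun n hn => ?_
    rw [mem_filter] at hn
    have e3 : (n : ZMod χ.conductor) = (c : ZMod χ.conductor) :=
      (ZMod.natCast_eq_natCast_iff' _ _ _).2 hn.2
    rw [e3]
    ring
  have h3 : ‖∑ n ∈ Icc 1 y, G n * χ.primitiveCharacter (n : ZMod χ.conductor)‖ ≤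
      Real.log N ^ K * (N / Real.log N ^ U) := by
    rw [h2]
    calc ‖∑ c ∈ range χ.conductor, χ.primitiveCharacter (c : ZMod χ.conductor) *
        ∑ n ∈ (Icc 1 y).filter (fun n => n ≡ c [MOD χ.conductor]), G n‖
        ≤ ((range χ.conductor).card : ℝ) * (N / Real.log N ^ U) := by
          apply sum_norm_le
          intro c _
          rw [norm_mul]
          calc _ ≤ 1 * (N / Real.log N ^ U) :=
                mul_le_mul (DirichletCharacter.norm_le_one _ _) (hAp _ hr0 hχ c y hy) (norm_nonneg _)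
                  zero_le_one
            _ = _ := one_mul _
      _ ≤ _ := by
          rw [card_range]
          exact mul_le_mul_of_nonneg_right hχ hX0
  have h4 : 1 * (N / Real.log N ^ U) ≤ Real.log N ^ K * (N / Real.log N ^ U) :=
    mul_le_mul_of_nonneg_right (one_le_pow₀ hL) hX0
  linarith

/-- characters of small conductor on the major arcs -/
lemma small_cs {N K U C : ℕ} {G : ℕ → ℂ} (hAp : ApAt N K U G) (hNc : NcAt N U G) {q : ℕ} [NeZero q]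
    (hqN : q ≤ N) (χ : DirichletCharacter ℂ q) (hχ : (χ.conductor : ℝ) ≤ Real.log N ^ K)
    (hL : 16 ≤ Real.log N) (hN : 1 ≤ N) (y : ℕ) (hy : y ≤ N) (η : ℝ) (hη : |η| ≤ Real.log N ^ C / N) :
    ‖cs q y G η χ‖ ≤ Real.log N ^ (K + C + 1) * (N / Real.log N ^ U) := by
  have hL1 : 1 ≤ Real.log N := by linarith
  obtain ⟨L, hLd⟩ : ∃ L, L = Real.log (N : ℝ) := ⟨_, rfl⟩
  have h1 := cs_abel hy G η χ _ (fun y' hy' => small_ap hAp hNc hqN χ hχ hL1 y' hy')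
  rw [← hLd] at h1 hL hL1 hη ⊢
  have hN0 : (0 : ℝ) < N := by exact_mod_cast hN
  have hL0 : 0 < L := by linarith
  have h2 : 1 + 7 * |η| * y ≤ 8 * L ^ C := by
    have h3 : |η| * y ≤ L ^ C := by
      calc |η| * y ≤ (L ^ C / N) * N := by
            apply mul_le_mul hη (by exact_mod_cast hy) (Nat.cast_nonneg _) (by positivity)
        _ = L ^ C := by field_simp
    have h4 : 1 ≤ L ^ C := one_le_pow₀ hL1
    nlinarith
  refine h1.trans ?_
  calc 2 * L ^ K * (N / L ^ U) * (1 + 7 * |η| * y) ≤ 2 * L ^ K * (N / L ^ U) * (8 * L ^ C) := by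
        apply mul_le_mul_of_nonneg_left h2
        positivity
    _ = 16 * (L ^ (K + C) * (N / L ^ U)) := by rw [pow_add]; ring
    _ ≤ L * (L ^ (K + C) * (N / L ^ U)) := by
        apply mul_le_mul_of_nonneg_right hL
        positivity
    _ = _ := by rw [pow_succ]; ring

lemma bd_sq {N : ℕ} {F : ℕ → ℂ} (hF : BdAt N F) (hL : 8 ≤ Real.log N) :
    ∑ n ∈ Icc 1 N, ‖F n‖ ^ 2 ≤ N * Real.log N ^ 8 := by
  obtain ⟨L, hLd⟩ : ∃ L, L = Real.log (N : ℝ) := ⟨_, rfl⟩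
  have hb : ∀ n ∈ Icc 1 N, ‖F n‖ ≤ L ^ 2 * (n.divisors.card : ℝ) := by rw [hLd]; exact hF
  rw [← hLd] at hL ⊢
  have hL0 : 0 < L := by linarith
  calc ∑ n ∈ Icc 1 N, ‖F n‖ ^ 2 ≤ ∑ n ∈ Icc 1 N, L ^ 4 * (n.divisors.card : ℝ) ^ 2 := by
        refine sum_le_sum fun n hn => ?_
        calc ‖F n‖ ^ 2 ≤ (L ^ 2 * (n.divisors.card : ℝ)) ^ 2 :=
              pow_le_pow_left₀ (norm_nonneg _) (hb n hn) 2
          _ = _ := by ring
    _ = L ^ 4 * ∑ n ∈ Icc 1 N, (n.divisors.card : ℝ) ^ 2 := by rw [mul_sum]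
    _ ≤ L ^ 4 * (N * (1 + L) ^ 3) := by
        have := Pool.Agent.W93.LV.tau_sq N
        rw [← hLd] at this
        gcongr
    _ ≤ L ^ 4 * (N * (L ^ 4)) := by
        have h1 : (1 + L) ^ 3 ≤ (2 * L) ^ 3 := pow_le_pow_left₀ (by linarith) (by linarith) 3
        have h2 : (2 * L) ^ 3 ≤ L ^ 4 := by
          calc (2 * L) ^ 3 = 8 * L ^ 3 := by ring
            _ ≤ L * L ^ 3 := mul_le_mul_of_nonneg_right hL (by positivity)
            _ = L ^ 4 := by ring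
        have h3 := h1.trans h2
        gcongr
    _ = N * L ^ 8 := by ring


/-- the classes which are not units -/
lemma nonu {c : ℕ} (hc : ∀ (q N : ℕ) [NeZero q] (F : ℕ → ℂ) (ℓ T β : ℝ), 1 ≤ N → 1 + Real.log N ≤ ℓ →
    (∀ n ∈ Icc 1 N, ‖F n‖ ≤ ℓ * (n.divisors.card : ℝ)) →
    (∑ n ∈ (Icc 1 N).filter (fun n => ¬ n.Coprime q), ‖F n‖ ≤ T) →
    ∑ l ∈ univ.filter (fun l : ZMod q => ¬ IsUnit l), ‖cl q N F β l‖ ^ 2 ≤
      ((N : ℝ) / q + 1) * Real.sqrt (T * (N * ℓ ^ c)))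
    {N U X : ℕ} {G : ℕ → ℂ} {L : ℝ} (hL : L = Real.log N) (hL8 : 8 ≤ L) (hN : 1 ≤ N)
    (hG : BdAt N G) (hNc : NcAt N U G) (hU : 2 * X + 4 + 2 * c ≤ U) {q : ℕ} [NeZero q] (hqN : (q : ℝ) ≤ N)
    (y : ℕ) (hy : y ≤ N) (β : ℝ) :
    ∑ l ∈ univ.filter (fun l : ZMod q => ¬ IsUnit l), ‖cl q y G β l‖ ^ 2 ≤
      (N : ℝ) ^ 2 / (q * L ^ X) / 2 := by
  have hL0 : 0 < L := by linarith
  have hL1 : 1 ≤ L := by linarith
  have hN0 : (0 : ℝ) < N := by exact_mod_cast hN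
  have hq0 : (0 : ℝ) < q := by exact_mod_cast NeZero.pos q
  have hqNn : q ≤ N := by exact_mod_cast hqN
  have h1 : ∀ l : ZMod q, cl q y G β l = cl q N (tr y G) β l := fun l => (cl_tr hy G β l).symm
  simp only [h1]
  have e1 := hc q N (tr y G) (L ^ 2) (N / L ^ U) β hN (by rw [← hL]; nlinarith)
    (fun n hn => (norm_tr_le y G n).trans (by rw [hL]; exact hG n hn))
    (by
      refine (sum_le_sum fun n _ => norm_tr_le y G n).trans ?_
      rw [hL]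
      exact hNc q (NeZero.pos q) hqNn)
  refine e1.trans ?_
  have e2 : N / L ^ U * (N * (L ^ 2) ^ c) ≤ ((N : ℝ) / L ^ (X + 2)) ^ 2 := by
    have e5 : L ^ (2 * c) * L ^ (2 * (X + 2)) ≤ L ^ U := by
      rw [← pow_add]
      exact pow_le_pow_right₀ hL1 (by omega)
    calc N / L ^ U * (N * (L ^ 2) ^ c)
        = (N : ℝ) ^ 2 * (L ^ (2 * c) * L ^ (2 * (X + 2))) / (L ^ U * L ^ (2 * (X + 2))) := by
          rw [← pow_mul]
          field_simp
      _ ≤ (N : ℝ) ^ 2 * L ^ U / (L ^ U * L ^ (2 * (X + 2))) := by gcongr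
      _ = _ := by
          rw [div_pow, ← pow_mul, mul_comm (X + 2) 2]
          field_simp
  have e3 : √(N / L ^ U * (N * (L ^ 2) ^ c)) ≤ (N : ℝ) / L ^ (X + 2) :=
    Real.sqrt_le_iff.2 ⟨by positivity, e2⟩
  have e4 : (N : ℝ) / q + 1 ≤ 2 * (N / q) := by
    have : (1 : ℝ) ≤ N / q := by
      rw [le_div_iff₀ hq0, one_mul]
      exact hqN
    linarith
  calc ((N : ℝ) / q + 1) * √(N / L ^ U * (N * (L ^ 2) ^ c))
      ≤ 2 * (N / q) * (N / L ^ (X + 2)) := by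
        apply mul_le_mul e4 e3 (Real.sqrt_nonneg _) (by positivity)
    _ = (N : ℝ) ^ 2 / (q * L ^ X) * (2 / L ^ 2) := by
        rw [pow_add]
        field_simp
    _ ≤ (N : ℝ) ^ 2 / (q * L ^ X) * (1 / 2) := by
        have : 2 / L ^ 2 ≤ 1 / 2 := by
          rw [div_le_div_iff₀ (by positivity) (by norm_num)]
          nlinarith
        gcongr
    _ = _ := by ring

theorem core2 (h3 : LiftStm) (h4 : ParsStm) (h5 : OrthStm) (h7 : NonUStm) : Core2Stm := by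
  classical
  intro A T ρ hρ
  refine ⟨A + 11, fun C => ?_⟩
  obtain ⟨A', hA'⟩ : ∃ A', A' = A + 2 * C + 9 := ⟨_, rfl⟩
  refine ⟨A' + 4, fun C₃ => ⟨2 * C₃ + A' + 3, fun K => ?_⟩⟩
  obtain ⟨c, hc⟩ := h7
  obtain ⟨U₁, hU₁⟩ : ∃ U₁, U₁ = C₃ + A' + 4 := ⟨_, rfl⟩
  obtain ⟨N₃, hN₃⟩ := Filter.eventually_atTop.1 (ev_log C (s := ρ / 2) (by positivity) 200)
  refine ⟨K + C + 1 + U₁ + 2 * (A' + 9) + 4 + 2 * c, max N₃ 1, ?_⟩
  intro N hN F G hF hG hMin hMaj hAp hNc hSh q _ hq a ha y₁ y₂ hy₁ hy₂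
  obtain ⟨U, hU⟩ : ∃ U, U = K + C + 1 + U₁ + 2 * (A' + 9) + 4 + 2 * c := ⟨_, rfl⟩
  rw [← hU] at hAp hNc
  have hNN₃ : N₃ ≤ N := le_trans (le_max_left _ _) hN
  have hN1 : 1 ≤ N := le_trans (le_max_right _ _) hN
  obtain ⟨hL200, hLC⟩ := hN₃ N hNN₃
  have hbF := bd_sq hF (by linarith)
  have hbG := bd_sq hG (by linarith)
  obtain ⟨L, hL⟩ : ∃ L, L = Real.log (N : ℝ) := ⟨_, rfl⟩
  rw [← hL] at hL200 hLC hbF hbG ha ⊢
  have hL8 : 8 ≤ L := by linarith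
  have hL0 : 0 < L := by linarith
  have hL1 : 1 ≤ L := by linarith
  have hN0 : (0 : ℝ) < N := by exact_mod_cast hN1
  have hNr1 : (1 : ℝ) ≤ N := by exact_mod_cast hN1
  have hq0 : (0 : ℝ) < q := by exact_mod_cast NeZero.pos q
  have hLC1 : 1 ≤ L ^ C := one_le_pow₀ hL1
  have hqLC' : (q : ℝ) * L ^ C ≤ (N : ℝ) ^ (κ - ρ / 2) := by
    calc (q : ℝ) * L ^ C ≤ (N : ℝ) ^ (κ - ρ) * (N : ℝ) ^ (ρ / 2) := by gcongr
      _ = (N : ℝ) ^ (κ - ρ / 2) := by
          rw [← Real.rpow_add hN0]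
          congr 1
          ring
  have hpowN : (N : ℝ) ^ (κ - ρ / 2) ≤ N := by
    calc (N : ℝ) ^ (κ - ρ / 2) ≤ (N : ℝ) ^ (1 : ℝ) :=
          Real.rpow_le_rpow_of_exponent_le hNr1 (by have := klt; linarith)
      _ = N := Real.rpow_one _
  have hqLC : (q : ℝ) * L ^ C ≤ N := hqLC'.trans hpowN
  have hqN : (q : ℝ) ≤ N := by
    refine le_trans ?_ hqLC
    nlinarith
  have hq2 : (q : ℝ) ≤ (N : ℝ) ^ (κ - ρ / 2) := by
    refine le_trans ?_ hqLC'
    nlinarith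
  obtain ⟨F', hF'⟩ : ∃ F', F' = tr y₁ F := ⟨_, rfl⟩
  obtain ⟨G', hG'⟩ : ∃ G', G' = tr y₂ G := ⟨_, rfl⟩
  -- the estimate for one frequency
  have hpt := pointG (a := a) h3 h5 F' G' hL hL8 hN1 hqN hqLC ha
    (fun k h β hk1 hk2 hk3 hk4 => by
      simp only [hG', cs_tr hy₂]
      have := hMin q hq2 k h β (by rw [← hL]; exact hk1) (by rw [← hL]; exact hk2) hk3 hk4 y₂ hy₂
      rw [← hL] at this
      exact this)
    (fun β => by
      simp only [hG', cl_tr hy₂]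
      exact nonu hc hL hL8 hN1 hG hNc (X := A + 9) (by omega) hqN y₂ hy₂ β)
    (fun j hj a' ha' η hη => by
      have hq' : (((j + 1) * q : ℕ) : ℝ) ≤ (N : ℝ) ^ (κ - ρ / 2) := by
        rw [Nat.cast_mul]
        calc ((j + 1 : ℕ) : ℝ) * q ≤ L ^ C * q := by gcongr
          _ = q * L ^ C := mul_comm _ _
          _ ≤ _ := hqLC'
      have hq'N : (((j + 1) * q : ℕ) : ℝ) ≤ N := hq'.trans hpowN
      obtain ⟨B, -, hBc, hB⟩ := hMaj ((j + 1) * q) hq'
      rw [← hL] at hBc hB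
      rw [show A + 2 * C + 9 = A' from hA'.symm]
      apply pwG h5 F' G' (C₃ := C₃) (K := K) (B₂ := 2 * C₃ + A' + 3) (U := U₁) hL hL200 hN1 hq'N B hBc
      · intro S hS
        simp only [hG', cs_tr hy₂]
        exact hB η hη y₂ hy₂ S hS
      · simp only [hG', cl_tr hy₂]
        refine (nonu hc hL hL8 hN1 hG hNc (X := A' + 2) (by omega) hq'N y₂ hy₂ η).trans ?_
        have : 0 ≤ (N : ℝ) ^ 2 / ((((j + 1) * q : ℕ) : ℝ) * L ^ (A' + 2)) := by positivity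
        linarith
      · intro χ hχ
        rw [hG', cs_tr hy₂]
        have hs := small_cs hAp hNc (by exact_mod_cast hq'N) χ (by rw [← hL]; exact hχ) (by rw [← hL]; linarith) hN1
          y₂ hy₂ η (C := C) (by rw [← hL]; exact hη)
        rw [← hL] at hs
        refine hs.trans ?_
        calc L ^ (K + C + 1) * (N / L ^ U) = N * (L ^ (K + C + 1) / L ^ U) := by ring
          _ ≤ N * (1 / L ^ U₁) := by
              have : L ^ (K + C + 1) / L ^ U ≤ 1 / L ^ U₁ := by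
                rw [div_le_div_iff₀ (by positivity) (by positivity), one_mul, ← pow_add]
                exact pow_le_pow_right₀ hL1 (by omega)
              gcongr
          _ = _ := by ring
      · omega
      · intro χ hχ
        simp only [hF', cl_tr hy₁]
        have := hSh ((j + 1) * q) hq' χ (by rw [← hL]; exact hχ) a' (by rw [← hL]; exact ha') η
          (by rw [← hL]; exact hη) y₁ hy₁
        rw [← hL] at this
        exact this
      · omega)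
  -- Parseval
  set D : ℝ := ((2 * N + 1 : ℕ) : ℝ) with hD
  have hD0 : 0 < D := by rw [hD]; positivity
  have hsumP : ∀ (q' : ℕ) [NeZero q'] (F : ℕ → ℂ),
      ∑ t ∈ range (2 * N + 1), P q' N F ((t : ℝ) / D) = D * ∑ n ∈ Icc 1 N, ‖F n‖ ^ 2 :=
    fun q' _ F => (h4 q' N F F hN1).2
  set WL := ∑ n ∈ Icc 1 N, ‖F' n‖ ^ 2 with hWL
  set WF := ∑ n ∈ Icc 1 N, ‖G' n‖ ^ 2 with hWF
  have hWL0 : 0 ≤ WL := sum_nonneg fun _ _ => by positivity
  have hWF0 : 0 ≤ WF := sum_nonneg fun _ _ => by positivity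
  have w1 : WL ≤ N * L ^ 8 := by
    refine le_trans (sum_le_sum fun n _ => ?_) hbF
    rw [hF']
    exact pow_le_pow_left₀ (norm_nonneg _) (norm_tr_le _ _ _) 2
  have w2 : WF ≤ N * L ^ 8 := by
    refine le_trans (sum_le_sum fun n _ => ?_) hbG
    rw [hG']
    exact pow_le_pow_left₀ (norm_nonneg _) (norm_tr_le _ _ _) 2
  set c1 := (N : ℝ) ^ 2 / (q * L ^ (A + 9)) with hc1
  set c2 := L ^ C * ((N : ℝ) ^ 2 / (q * L ^ (A + 2 * C + 9))) with hc2
  have hc10 : 0 ≤ c1 := by positivity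
  have hc20 : 0 ≤ c2 := by positivity
  have hK : ((⌊L ^ C⌋₊ : ℕ) : ℝ) ≤ L ^ C := Nat.floor_le (by positivity)
  have main := (h4 q N F' G' hN1).1 a
  have step : ∑ t ∈ range (2 * N + 1), ‖∑ l : ZMod q, cl q N F' ((t : ℝ) / D) l *
      cl q N G' ((t : ℝ) / D) (a - l)‖ ^ 2 ≤ D * (c1 * (N * L ^ 8) +
        c2 * (L ^ C * (2 * (N * L ^ 8)))) := by
    calc ∑ t ∈ range (2 * N + 1), ‖∑ l : ZMod q, cl q N F' ((t : ℝ) / D) l *
        cl q N G' ((t : ℝ) / D) (a - l)‖ ^ 2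
        ≤ ∑ t ∈ range (2 * N + 1), (c1 * P q N F' ((t : ℝ) / D) +
          c2 * ∑ j ∈ range ⌊L ^ C⌋₊, (P ((j + 1) * q) N F' ((t : ℝ) / D) +
            P ((j + 1) * q) N G' ((t : ℝ) / D))) :=
          sum_le_sum fun t _ => hpt _
      _ = c1 * (D * WL) + c2 * ∑ j ∈ range ⌊L ^ C⌋₊, (D * WL + D * WF) := by
          rw [sum_add_distrib, ← mul_sum, ← mul_sum, hsumP q F', sum_comm]
          congr 2
          refine sum_congr rfl fun j _ => ?_
          rw [sum_add_distrib, hsumP ((j + 1) * q) F', hsumP ((j + 1) * q) G']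
      _ = D * (c1 * WL + c2 * ((⌊L ^ C⌋₊ : ℕ) * (WL + WF))) := by
          rw [sum_const, card_range, nsmul_eq_mul]
          ring
      _ ≤ D * (c1 * (N * L ^ 8) + c2 * (L ^ C * (2 * (N * L ^ 8)))) := by
          have h0 : 0 ≤ WL + WF := by linarith
          have h1 : WL + WF ≤ 2 * (N * L ^ 8) := by linarith
          gcongr
  have h9 : D * ∑ n ∈ (Icc 1 (2 * N)).filter (fun n : ℕ => (n : ZMod q) = a),
      ‖∑ b ∈ Icc 1 N, ∑ c ∈ Icc 1 N, if b + c = n then F' b * G' c else 0‖ ^ 2 ≤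
        D * (c1 * (N * L ^ 8) + c2 * (L ^ C * (2 * (N * L ^ 8)))) := main.le.trans step
  have h10 := le_of_mul_le_mul_left h9 hD0
  have h11 : ∑ n ∈ (Icc 1 (2 * N)).filter (fun n : ℕ => (n : ZMod q) = a),
      ‖∑ b ∈ Icc 1 y₁, ∑ c ∈ Icc 1 y₂, if b + c = n then F b * G c else 0‖ ^ 2 =
      ∑ n ∈ (Icc 1 (2 * N)).filter (fun n : ℕ => (n : ZMod q) = a),
      ‖∑ b ∈ Icc 1 N, ∑ c ∈ Icc 1 N, if b + c = n then F' b * G' c else 0‖ ^ 2 := by
    refine sum_congr rfl fun n _ => ?_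
    rw [hF', hG', conv_tr hy₁ hy₂]
  rw [h11]
  refine h10.trans ?_
  have e1 : c1 * (N * L ^ 8) = (N : ℝ) ^ 3 / (q * L ^ A) * (1 / L) := by
    rw [hc1, show A + 9 = A + 8 + 1 by ring, pow_succ, pow_add]
    field_simp
    try ring
  have e2 : c2 * (L ^ C * (2 * (N * L ^ 8))) = (N : ℝ) ^ 3 / (q * L ^ A) * (2 / L) := by
    rw [hc2, show A + 2 * C + 9 = A + C + C + 8 + 1 by ring, pow_succ, pow_add, pow_add, pow_add]
    field_simp
    try ring
  rw [e1, e2, ← mul_add]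
  have e3 : 1 / L + 2 / L ≤ 1 := by
    rw [← add_div, div_le_one hL0]
    linarith
  calc (N : ℝ) ^ 3 / (q * L ^ A) * (1 / L + 2 / L) ≤ (N : ℝ) ^ 3 / (q * L ^ A) * 1 := by gcongr
    _ = _ := mul_one _

end Pool.Agent.L7h46.GK
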