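import Pool.Agent.L7h46.GK.Props
import Pool.Agent.L7h46.GK.Shm

set_option autoImplicit false
set_option linter.unusedSectionVars false

/-! Project GK (helper46): the file `R460/GS/ErrAll.lean` of the starting tree with a general level `κ`. -/

/-! The error terms in project GS. -/

namespace Pool.Agent.L7h46.GK

open Lv (κ)
open Pool.Agent.R460.GS

variable [Lv]

open Finset
open Pool.Agent.H807R2.Dav (ee)
open Pool.Agent.H373R2.T7 (lamz Vz pz lamz_ap)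
open Pool.Agent.Y883.T3 (lsh)
open Pool.Agent.Y883.GJ
open Pool.Agent.Y614.GJ.Core (ev_log)

/-- convolution -/
noncomputable def cv (F G : ℕ → ℂ) (y₁ y₂ n : ℕ) : ℂ :=
  ∑ b ∈ Icc 1 y₁, ∑ c ∈ Icc 1 y₂, if b + c = n then F b * G c else 0

/-- ERR: all error terms -/
def ErrStm : Prop := ∀ (A T U₀ : ℕ) (ρ : ℝ), 0 < ρ → ∃ B : ℕ, ∀ E : ℕ, ∃ N₀ : ℕ, ∀ N : ℕ, N₀ ≤ N → ∀ z : ℕ,
  Real.log N ^ B ≤ z → (z : ℝ) ≤ Real.log N ^ E → ∃ r : ℕ, Par U₀ N z r ∧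
    ∑ n ∈ Icc 1 N, |lamz z n - lsh z r n| ≤ N / Real.log N ^ U₀ ∧
    ∀ F : ℕ → ℂ, (F = LA ∨ F = GG N ∨ F = HH N z r) →
    ∀ (q : ℕ) [NeZero q], (q : ℝ) ≤ (N : ℝ) ^ (κ - ρ) → ∀ a : ZMod q,
    (Nat.gcd a.val q : ℝ) ≤ Real.log N ^ T → ∀ y₁ y₂ : ℕ, y₁ ≤ N → y₂ ≤ N →
      ∑ n ∈ (Icc 1 (2 * N)).filter (fun n : ℕ => (n : ZMod q) = a),
        ‖cv F (f0 N z r) y₁ y₂ n‖ ^ 2 ≤ (N : ℝ) ^ 3 / (q * Real.log N ^ A)

theorem wb_of (h : WtbStm) : ∃ (c : ℝ) (N₀ : ℕ), ∀ N : ℕ, N₀ ≤ N → WB (Wt N) c N := by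
  obtain ⟨c, N₀, h⟩ := h
  exact ⟨c, N₀, fun N hN => ⟨(h N hN).1, (h N hN).2.1, (h N hN).2.2⟩⟩

theorem err_all (hCore : Core2Stm) (hShm : ShmStm) (hShl : ShlStm) (hMG : MGStm) (hNG : NGStm)
    (hMH : MHStm) (hNH : NHStm) (hWtb : WtbStm) (hApg : ApgStm) (hModel : ModelStm) : ErrStm := by
  intro A T U₀ ρ hρ
  have hρ2 : 0 < ρ / 2 := by positivity
  obtain ⟨A₁, hC1⟩ := hCore A T ρ hρ
  obtain ⟨Cg, Ng, hg⟩ := hNG (A₁ + 2) (ρ / 2) hρ2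
  obtain ⟨Ch, Nh, hh⟩ := hNH (A₁ + 2) (ρ / 2) hρ2
  obtain ⟨C, hC⟩ : ∃ C, C = max Cg Ch := ⟨_, rfl⟩
  obtain ⟨A₂, hC2⟩ := hC1 C
  obtain ⟨C₃, Nm1, hm1⟩ := hMG (A₂ + 2) C (ρ / 2) hρ2
  obtain ⟨Nm2, hm2⟩ := hMH (A₂ + 2) C (ρ / 2) hρ2
  obtain ⟨B₂, hC3⟩ := hC2 C₃
  obtain ⟨A₂', hs⟩ := hShm B₂ C (T + C) (ρ / 2) hρ2
  obtain ⟨C₃', Nm3, hm3⟩ := hMG A₂' C (ρ / 2) hρ2
  obtain ⟨Nm4, hm4⟩ := hMH A₂' C (ρ / 2) hρ2
  obtain ⟨K₁, Ns1, hs1⟩ := hs C₃'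
  obtain ⟨K₂, Ns2, hs2⟩ := hShl B₂ C (T + C) (ρ / 2) hρ2
  obtain ⟨K, hK⟩ : ∃ K, K = max K₁ K₂ := ⟨_, rfl⟩
  obtain ⟨U, Nc, hC4⟩ := hC3 K
  obtain ⟨U₁, hU₁⟩ : ∃ U₁, U₁ = max U₀ (max (U + 2) (B₂ + 3)) := ⟨_, rfl⟩
  obtain ⟨Bm, hBm⟩ := hModel U₁
  obtain ⟨ct, Nw, hWB⟩ := wb_of hWtb
  refine ⟨max Bm K, fun E => ?_⟩
  obtain ⟨Nmo, hmo⟩ := hBm E
  obtain ⟨Nl, hl⟩ := lamz_ap E (U + 2)
  obtain ⟨Na, ha⟩ := hApg K (U + 2)
  obtain ⟨Ne, hNe⟩ := Filter.eventually_atTop.1 (ev_log (U + B₂ + 8) (s := (1 - κ)) kc_pos (4 + 4 * |ct|))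
  refine ⟨Ng + Nh + Nm1 + Nm2 + Nm3 + Nm4 + Ns1 + Ns2 + Nc + Nw + Nmo + Nl + Na + Ne + 1, fun N hN z hz1 hz2 => ?_⟩
  have hN1 : 1 ≤ N := by omega
  obtain ⟨hLe, hLp⟩ := hNe N (by omega)
  have hct := abs_nonneg ct
  have hctl := le_abs_self ct
  have hL1 : 1 ≤ Real.log N := by linarith
  have hL2 : 2 ≤ Real.log N := by linarith
  have hzB : Real.log N ^ Bm ≤ z := (pow_le_pow_right₀ hL1 (le_max_left _ _)).trans hz1
  have hzK : Real.log N ^ K ≤ z := (pow_le_pow_right₀ hL1 (le_max_right _ _)).trans hz1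
  have hz1' : 1 ≤ z := by
    have : (1 : ℝ) ≤ z := (one_le_pow₀ hL1).trans hz1
    exact_mod_cast this
  obtain ⟨r, hPar, hsum⟩ := hmo N (by omega) z hzB hz2
  have hW := hWB N (by omega)
  have hct0 := hW.nn
  have hdiv : ∀ V : ℕ, V ≤ U₁ → (N : ℝ) / Real.log N ^ U₁ ≤ N / Real.log N ^ V := fun V hV =>
    div_le_div_of_nonneg_left (Nat.cast_nonneg _) (by positivity) (pow_le_pow_right₀ hL1 hV)
  have hU0 : U₀ ≤ U₁ := by rw [hU₁]; exact le_max_left _ _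
  have hU2 : U + 2 ≤ U₁ := by rw [hU₁]; exact (le_max_left _ _).trans (le_max_right _ _)
  have hU3 : B₂ + 3 ≤ U₁ := by rw [hU₁]; exact (le_max_right _ _).trans (le_max_right _ _)
  have hP0 := par_mono hL1 hU0 hPar
  have hP2 := par_mono hL1 hU2 hPar
  have hP3 := par_mono hL1 hU3 hPar
  refine ⟨r, hP0, hsum.trans (hdiv _ hU0), ?_⟩
  intro F hF q _ hq a hgcd y₁ y₂ hy₁ hy₂
  -- the conditions of the core estimate
  have hMHs := fun (q : ℕ) [NeZero q] (hq : (q : ℝ) ≤ (N : ℝ) ^ (κ - ρ / 2)) => hm2 N (by omega) q hq z r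
    hPar.hD hPar.hV
  have hMin : MinAt N (ρ / 2) A₁ C (f0 N z r) := by
    rw [hC]
    exact min_f0 hL2 (hg N (by omega)) (hh N (by omega) z r hPar.hD hPar.hV)
  have hMaj : MajAt N (ρ / 2) A₂ C C₃ (f0 N z r) :=
    maj_f0 hL2 (hm1 N (by omega)) (fun q _ hq => hm2 N (by omega) q hq z r hPar.hD hPar.hV)
  have hAp : ApAt N K U (f0 N z r) := by
    refine ap_f0 hW (by linarith) ?_ (hsum.trans (hdiv _ hU2)) (ha N (by omega))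
    intro q hq hqK c y hy
    refine hl N (by omega) z hz1' hz2 q hq ?_ c y hy
    exact_mod_cast hqK.trans hzK
  have hLpow : Real.log N ^ (U + 4) ≤ (N : ℝ) ^ (1 - κ : ℝ) :=
    (pow_le_pow_right₀ hL1 (by omega)).trans hLp
  have hNc : NcAt N U (f0 N z r) := nc_f0 hN1 hW hP2 (by linarith) hLpow
  have hBdF : BdAt N F := by
    rcases hF with h | h | h
    · rw [h]; exact bd_LA hL1
    · rw [h]; exact bd_GG hL1
    · rw [h]; exact bd_HH hW hPar (by linarith)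
  have hSh : ShAt N (ρ / 2) B₂ C (T + C) K F := by
    rcases hF with h | h | h
    · rw [h]
      exact sh_mono hL1 (by rw [hK]; exact le_max_right _ _) (hs2 N (by omega))
    · rw [h]
      refine sh_mono hL1 (by rw [hK]; exact le_max_left _ _) (hs1 N (by omega) _ (bd_GG hL1) ?_ (hm3 N (by omega)))
      exact nc_GG hN1 hL2 ((pow_le_pow_right₀ hL1 (by omega)).trans hLp)
    · rw [h]
      refine sh_mono hL1 (by rw [hK]; exact le_max_left _ _) (hs1 N (by omega) _ (bd_HH hW hPar (by linarith)) ?_ ?_)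
      · exact nc_HH hW (par_mono hL1 (by omega) hP3) (by linarith)
      · exact maj_HH hL1 (fun q _ hq => hm4 N (by omega) q hq z r hPar.hD hPar.hV)
  exact hC4 N (by omega) F (f0 N z r) hBdF (bd_f0 hW hPar (by linarith)) hMin hMaj hAp hNc hSh q hq a hgcd y₁ y₂
    hy₁ hy₂

end Pool.Agent.L7h46.GK
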