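import Pool.Agent.L7h46.GK.MG

set_option autoImplicit false
set_option linter.unusedSectionVars false

/-! Project GK (helper46): the file `R460/GS/NG.lean` of the starting tree with a general level `κ`. -/

/-! The function `gr` on the minor arcs. -/

namespace Pool.Agent.L7h46.GK

open Lv (κ)
open Pool.Agent.R460.GS

variable [Lv]

open Finset
open Pool.Agent.Y883.GJ
open Pool.Agent.H807R2.Dav (ee)
open Pool.Agent.Y614.GJ.Core (ev_log)

lemma dyad {V : Type*} [AddCommGroup V] (f : ℕ → V) (W I : ℕ) :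
    ∑ m ∈ Ioc W (W * 2 ^ I), f m = ∑ i ∈ range I, ∑ m ∈ Ioc (W * 2 ^ i) (2 * (W * 2 ^ i)), f m := by
  induction I with
  | zero => simp
  | succ I ih =>
    rw [sum_range_succ, ← ih]
    have e1 : W * 2 ^ (I + 1) = 2 * (W * 2 ^ I) := by ring
    rw [e1]
    exact (sum_Ioc_consecutive f (Nat.le_mul_of_pos_right W (by positivity)) (by omega)).symm

lemma dyad_bil {V : Type*} [NormedAddCommGroup V] [NormedSpace ℂ V] (E : ℕ → V) {a b : ℕ → ℂ} {W Z I y : ℕ}
    (ha : ∀ m, a m ≠ 0 → W < m ∧ m ≤ Z) (hZ : Z ≤ W * 2 ^ I) :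
    ∑ m ∈ Icc 1 y, ∑ k ∈ Icc 1 (y / m), (a m * b k) • E (m * k) =
      ∑ i ∈ range I, ∑ m ∈ Ioc (W * 2 ^ i) (2 * (W * 2 ^ i)), ∑ k ∈ Icc 1 (y / m), (a m * b k) • E (m * k) := by
  rw [← dyad]
  obtain ⟨g, hg⟩ : ∃ g : ℕ → V, g = fun m => ∑ k ∈ Icc 1 (y / m), (a m * b k) • E (m * k) := ⟨_, rfl⟩
  have h1 : ∀ m, 1 ≤ m → g m ≠ 0 → m ≤ y ∧ W < m ∧ m ≤ Z := by
    intro m hm h
    have h2 : a m ≠ 0 := by
      intro h0
      apply h
      rw [hg]
      simp only [h0, zero_mul, zero_smul, sum_const_zero]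
    refine ⟨?_, ha m h2⟩
    by_contra h3
    apply h
    rw [hg]
    simp only
    rw [Nat.div_eq_of_lt (by omega)]
    simp
  have e1 : ∑ m ∈ Icc 1 y, g m = ∑ m ∈ Icc 1 (max y (W * 2 ^ I)), g m := by
    refine sum_subset (Icc_subset_Icc le_rfl (le_max_left _ _)) fun m hm hm' => ?_
    rw [mem_Icc] at hm hm'
    by_contra h
    exact hm' ⟨hm.1, (h1 m hm.1 h).1⟩
  have e2 : ∑ m ∈ Ioc W (W * 2 ^ I), g m = ∑ m ∈ Icc 1 (max y (W * 2 ^ I)), g m := by
    refine sum_subset (fun m hm => ?_) fun m hm hm' => ?_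
    · rw [mem_Ioc] at hm
      rw [mem_Icc]
      exact ⟨by omega, hm.2.trans (le_max_right _ _)⟩
    · rw [mem_Icc] at hm
      rw [mem_Ioc] at hm'
      by_contra h
      have := h1 m hm.1 h
      exact hm' ⟨this.2.1, this.2.2.trans hZ⟩
  rw [hg] at e1 e2
  rw [e1, e2]

lemma norm_sq_range {V : Type*} [NormedAddCommGroup V] (I : ℕ) (v : ℕ → V) {X : ℝ}
    (h : ∀ i ∈ range I, ‖v i‖ ^ 2 ≤ X) : ‖∑ i ∈ range I, v i‖ ^ 2 ≤ (I : ℝ) * (I * X) := by
  calc ‖∑ i ∈ range I, v i‖ ^ 2 ≤ (∑ i ∈ range I, ‖v i‖) ^ 2 :=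
        pow_le_pow_left₀ (norm_nonneg _) (norm_sum_le _ _) 2
    _ ≤ (range I).card * ∑ i ∈ range I, ‖v i‖ ^ 2 := sq_sum_le_card_mul_sum_sq
    _ ≤ (I : ℝ) * ∑ i ∈ range I, X := by
        rw [card_range]
        gcongr with i hi
        exact h i hi
    _ = _ := by rw [sum_const, card_range, nsmul_eq_mul]

lemma log2_le {N : ℕ} (hN : 1 ≤ N) : ((Nat.log 2 N + 1 : ℕ) : ℝ) ≤ 2 * Real.log N + 1 := by
  have h1 := Nat.pow_log_le_self 2 (x := N) (by omega)
  have h2 : ((2 : ℝ) ^ (Nat.log 2 N)) ≤ N := by exact_mod_cast h1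
  have h3 := Real.log_le_log (by positivity) h2
  rw [Real.log_pow] at h3
  have h4 := Real.log_two_gt_d9
  have h5 : (0 : ℝ) ≤ (Nat.log 2 N : ℝ) := Nat.cast_nonneg _
  push_cast
  nlinarith

/-- the bilinear sums on the minor arcs -/
lemma bil_min {K : ℝ} (hK : ∀ (q N M r : ℕ) [NeZero q] (h : ℤ) (β : ℝ) (a b : ℕ → ℂ), 1 ≤ M → M ≤ N →
    1 ≤ r → IsCoprime h (r : ℤ) → |q * β - h / r| ≤ 1 / (r : ℝ) ^ 2 →
    ‖∑ m ∈ Ioc M (2 * M), ∑ k ∈ Icc 1 (N / m),
      (a m * b k) • ev (univ : Finset (DirichletCharacter ℂ q)) β (m * k)‖ ^ 2 ≤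
    K * (∑ m ∈ Ioc M (2 * M), ‖a m‖ ^ 2) * (∑ k ∈ Icc 1 (N / M), ‖b k‖ ^ 2) *
      (q * (M + (N : ℝ) / (q * r) + (N : ℝ) / (q * M) + r) * (1 + Real.log r)))
    {q N y r C A' : ℕ} [NeZero q] {h : ℤ} {β L X : ℝ} {a b : ℕ → ℂ} (hL : L = Real.log N) (hN : 1 ≤ N)
    (hy : y ≤ N) (ha : ∀ m, a m ≠ 0 → WW N < m ∧ m ≤ ZZ N) (ha1 : ∀ m, ‖a m‖ ≤ 1) (hb1 : ∀ m, ‖b m‖ ≤ 1)
    (hr1 : 1 ≤ r) (hrN : r ≤ N) (hcop : IsCoprime h (r : ℤ)) (hβ : |q * β - h / r| ≤ 1 / (r : ℝ) ^ 2)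
    (hX : X = N / L ^ C) (hKL : 72 * |K| ≤ L) (hL1 : 1 ≤ L) (hCA : C = A' + 4)
    (hqZ : (q : ℝ) * ZZ N ≤ X) (hqr : (q : ℝ) * r ≤ X) (hNr : (N : ℝ) / r ≤ X) (hNW : (N : ℝ) / WW N ≤ X) :
    ‖∑ m ∈ Icc 1 y, ∑ k ∈ Icc 1 (y / m),
      (a m * b k) • ev (univ : Finset (DirichletCharacter ℂ q)) β (m * k)‖ ^ 2 ≤ (N : ℝ) ^ 2 / L ^ A' := by
  have hW1 := one_le_WW hN
  have hW1r : (1 : ℝ) ≤ WW N := by exact_mod_cast hW1
  have hN0 : (0 : ℝ) < N := by exact_mod_cast hN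
  have hq0 : (0 : ℝ) < q := by exact_mod_cast NeZero.pos q
  have hr0 : (0 : ℝ) < r := by exact_mod_cast hr1
  have hL0 : 0 < L := by linarith
  have hX0 : 0 ≤ X := by rw [hX]; positivity
  obtain ⟨I, hI⟩ : ∃ I, I = Nat.log 2 N + 1 := ⟨_, rfl⟩
  have hIL : (I : ℝ) ≤ 3 * L := by
    have := log2_le hN
    rw [← hI, ← hL] at this
    linarith
  have hZI : ZZ N ≤ WW N * 2 ^ I := by
    have h1 : N < 2 ^ I := by
      rw [hI]
      exact Nat.lt_pow_succ_log_self (by norm_num) N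
    calc ZZ N ≤ N := ZZ_le hN
      _ ≤ 1 * 2 ^ I := by omega
      _ ≤ _ := Nat.mul_le_mul_right _ hW1
  rw [dyad_bil (ev (univ : Finset (DirichletCharacter ℂ q)) β) ha hZI]
  have hpiece : ∀ i ∈ range I, ‖∑ m ∈ Ioc (WW N * 2 ^ i) (2 * (WW N * 2 ^ i)), ∑ k ∈ Icc 1 (y / m),
      (a m * b k) • ev (univ : Finset (DirichletCharacter ℂ q)) β (m * k)‖ ^ 2 ≤ |K| * N * (8 * X * L) := by
    intro i _
    obtain ⟨M, hM⟩ : ∃ M, M = WW N * 2 ^ i := ⟨_, rfl⟩
    rw [← hM]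
    have hWM : WW N ≤ M := by
      rw [hM]
      exact Nat.le_mul_of_pos_right _ (by positivity)
    have hM1 : 1 ≤ M := hW1.trans hWM
    have hM0 : (0 : ℝ) < M := by exact_mod_cast hM1
    have hR0 : 0 ≤ |K| * N * (8 * X * L) := by positivity
    by_cases hMy : M ≤ y
    · by_cases hMZ : M ≤ ZZ N
      · refine (hK q y M r h β a b hM1 hMy hr1 hcop hβ).trans ?_
        have e1 : ∑ m ∈ Ioc M (2 * M), ‖a m‖ ^ 2 ≤ M := by
          calc ∑ m ∈ Ioc M (2 * M), ‖a m‖ ^ 2 ≤ ∑ m ∈ Ioc M (2 * M), (1 : ℝ) :=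
                sum_le_sum fun m _ => pow_le_one₀ (norm_nonneg _) (ha1 m)
            _ = M := by
                rw [sum_const, Nat.card_Ioc, nsmul_eq_mul, mul_one]
                congr 1
                omega
        have e2 : ∑ k ∈ Icc 1 (y / M), ‖b k‖ ^ 2 ≤ (N : ℝ) / M := by
          calc ∑ k ∈ Icc 1 (y / M), ‖b k‖ ^ 2 ≤ ∑ k ∈ Icc 1 (y / M), (1 : ℝ) :=
                sum_le_sum fun m _ => pow_le_one₀ (norm_nonneg _) (hb1 m)
            _ = ((y / M : ℕ) : ℝ) := by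
                rw [sum_const, Nat.card_Icc, nsmul_eq_mul, mul_one, Nat.add_sub_cancel]
            _ ≤ (y : ℝ) / M := Nat.cast_div_le
            _ ≤ (N : ℝ) / M := by
                have : (y : ℝ) ≤ N := by exact_mod_cast hy
                gcongr
        have hyr : (y : ℝ) ≤ N := by exact_mod_cast hy
        have e3 : (q : ℝ) * (M + (y : ℝ) / (q * r) + (y : ℝ) / (q * M) + r) ≤ 4 * X := by
          have k1 : (q : ℝ) * M ≤ X := by
            refine le_trans ?_ hqZ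
            have : (M : ℝ) ≤ ZZ N := by exact_mod_cast hMZ
            gcongr
          have k2 : (y : ℝ) / r ≤ X := by
            refine le_trans ?_ hNr
            gcongr
          have k3 : (y : ℝ) / M ≤ X := by
            refine le_trans ?_ hNW
            have : (WW N : ℝ) ≤ M := by exact_mod_cast hWM
            gcongr
          have k4 : (q : ℝ) * (M + (y : ℝ) / (q * r) + (y : ℝ) / (q * M) + r) =
              q * M + y / r + y / M + q * r := by
            field_simp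
          rw [k4]
          linarith
        have e4 : 1 + Real.log r ≤ 2 * L := by
          have : Real.log r ≤ L := by
            rw [hL]
            exact Real.log_le_log hr0 (by exact_mod_cast hrN)
          linarith
        have e5 : 0 ≤ 1 + Real.log r := by
          have := Real.log_natCast_nonneg r
          linarith
        have e6 : 0 ≤ ∑ m ∈ Ioc M (2 * M), ‖a m‖ ^ 2 := sum_nonneg fun _ _ => sq_nonneg _
        have e7 : 0 ≤ ∑ k ∈ Icc 1 (y / M), ‖b k‖ ^ 2 := sum_nonneg fun _ _ => sq_nonneg _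
        have e8 : 0 ≤ (q : ℝ) * (M + (y : ℝ) / (q * r) + (y : ℝ) / (q * M) + r) := by positivity
        calc K * (∑ m ∈ Ioc M (2 * M), ‖a m‖ ^ 2) * (∑ k ∈ Icc 1 (y / M), ‖b k‖ ^ 2) *
            (q * (M + (y : ℝ) / (q * r) + (y : ℝ) / (q * M) + r) * (1 + Real.log r))
            = K * ((∑ m ∈ Ioc M (2 * M), ‖a m‖ ^ 2) * (∑ k ∈ Icc 1 (y / M), ‖b k‖ ^ 2) *
            ((q * (M + (y : ℝ) / (q * r) + (y : ℝ) / (q * M) + r)) * (1 + Real.log r))) := by ring
          _ ≤ |K| * ((∑ m ∈ Ioc M (2 * M), ‖a m‖ ^ 2) * (∑ k ∈ Icc 1 (y / M), ‖b k‖ ^ 2) *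
            ((q * (M + (y : ℝ) / (q * r) + (y : ℝ) / (q * M) + r)) * (1 + Real.log r))) := by
              apply mul_le_mul_of_nonneg_right (le_abs_self K)
              positivity
          _ ≤ |K| * ((M * (N / M)) * ((4 * X) * (2 * L))) := by
              gcongr
          _ = _ := by
              field_simp
              ring
      · -- no coefficients
        rw [sum_eq_zero, norm_zero, zero_pow two_ne_zero]
        · exact hR0
        · intro m hm
          rw [mem_Ioc] at hm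
          have : a m = 0 := by
            by_contra h0
            have := (ha m h0).2
            omega
          simp only [this, zero_mul, zero_smul, sum_const_zero]
    · rw [sum_eq_zero, norm_zero, zero_pow two_ne_zero]
      · exact hR0
      · intro m hm
        rw [mem_Ioc] at hm
        rw [Nat.div_eq_of_lt (by omega)]
        simp
  refine (norm_sq_range I _ hpiece).trans ?_
  have hI0 : (0 : ℝ) ≤ I := Nat.cast_nonneg _
  calc (I : ℝ) * (I * (|K| * N * (8 * X * L))) ≤ (3 * L) * ((3 * L) * (|K| * N * (8 * X * L))) := by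
        gcongr
    _ = (72 * |K|) * (N * X * L ^ 3) := by ring
    _ ≤ L * (N * X * L ^ 3) := by gcongr
    _ = (N : ℝ) ^ 2 / L ^ A' := by
        rw [hX, hCA, pow_add]
        field_simp

theorem nG (h1 : L2Stm) (hB : BilMinStm) (hT : TiMinStm) : NGStm := by
  classical
  intro A ρ hρ
  obtain ⟨K, hK⟩ := hB
  obtain ⟨K', hK'⟩ := hT
  obtain ⟨C, hC⟩ : ∃ C, C = A + 2 * (A + 14) + 8 + 4 := ⟨_, rfl⟩
  obtain ⟨N₂, hG⟩ := gr_vec h1 A
  obtain ⟨N₃, hN₃⟩ := Filter.eventually_atTop.1 (ev_log (C + 1) (s := ((1 - κ) / 2)) kh_pos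
    (72 * |K| + 12 * |K'| + 16))
  obtain ⟨N₄, hN₄⟩ := Filter.eventually_atTop.1 (ev_log C (s := ρ) hρ 16)
  refine ⟨C, max (max N₄ N₂) (max N₃ 1), fun N hN q _ hq k h β hk1 hk2 hcop hβ y hy => ?_⟩
  have hNN₄ : N₄ ≤ N := le_trans (le_trans (le_max_left _ _) (le_max_left _ _)) hN
  have hNN₂ : N₂ ≤ N := le_trans (le_trans (le_max_right _ _) (le_max_left _ _)) hN
  have hNN₃ : N₃ ≤ N := le_trans (le_trans (le_max_left _ _) (le_max_right _ _)) hN
  have hN1 : 1 ≤ N := le_trans (le_trans (le_max_right _ _) (le_max_right _ _)) hN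
  obtain ⟨hL16, hLp⟩ := hN₃ N hNN₃
  obtain ⟨-, hLρ⟩ := hN₄ N hNN₄
  have hN0 : (0 : ℝ) < N := by exact_mod_cast hN1
  have hNr1 : (1 : ℝ) ≤ N := by exact_mod_cast hN1
  have hq0 : (0 : ℝ) < q := by exact_mod_cast NeZero.pos q
  have hq1 : (1 : ℝ) ≤ q := by exact_mod_cast NeZero.pos q
  have hqN : (q : ℝ) ≤ N := by
    calc (q : ℝ) ≤ (N : ℝ) ^ (κ - ρ) := hq
      _ ≤ (N : ℝ) ^ (1 : ℝ) := Real.rpow_le_rpow_of_exponent_le hNr1 (by have := klt; linarith)
      _ = N := Real.rpow_one _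
  have hW1 := one_le_WW hN1
  have hW1r : (1 : ℝ) ≤ WW N := by exact_mod_cast hW1
  have hWle : (WW N : ℝ) ≤ (N : ℝ) ^ ((1 - κ) / 2 : ℝ) := Nat.floor_le (by positivity)
  have hWge : (N : ℝ) ^ ((1 - κ) / 2 : ℝ) ≤ 2 * WW N := by
    have : (N : ℝ) ^ ((1 - κ) / 2 : ℝ) < (WW N : ℝ) + 1 := Nat.lt_floor_add_one _
    linarith
  have hZle : (ZZ N : ℝ) ≤ (N : ℝ) ^ (1 - κ : ℝ) := Nat.floor_le (by positivity)
  have hKa := abs_nonneg K
  have hKb := abs_nonneg K'
  obtain ⟨L, hL⟩ : ∃ L, L = Real.log (N : ℝ) := ⟨_, rfl⟩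
  have hL16' : 16 ≤ L := by rw [hL]; linarith
  have hL0 : 0 < L := by linarith
  have hL1 : 1 ≤ L := by linarith
  rw [← hL] at hk1 hk2 hLp hLρ hL16
  have hLC1 : 1 ≤ L ^ C := one_le_pow₀ hL1
  have hk0 : (0 : ℝ) < k := lt_of_lt_of_le (by positivity) hk1
  have hkn : 1 ≤ k := by exact_mod_cast hk0
  have hkN : k ≤ N := by
    have : (k : ℝ) ≤ N := by
      calc (k : ℝ) = 1 * k * 1 := by ring
        _ ≤ q * k * L ^ C := by gcongr
        _ ≤ N := hk2
    exact_mod_cast this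
  obtain ⟨X, hX⟩ : ∃ X, X = N / L ^ C := ⟨_, rfl⟩
  have hqk : (q : ℝ) * k ≤ X := by
    rw [hX, le_div_iff₀ (by positivity)]
    exact hk2
  have hNk : (N : ℝ) / k ≤ X := by
    rw [hX]
    gcongr
  have hNsplit : (N : ℝ) ^ (1 - ρ) * (N : ℝ) ^ ρ = N := by
    rw [← Real.rpow_add hN0]
    norm_num
  have hqZ : (q : ℝ) * ZZ N ≤ X := by
    rw [hX, le_div_iff₀ (by positivity)]
    calc (q : ℝ) * ZZ N * L ^ C ≤ (N : ℝ) ^ (κ - ρ) * (N : ℝ) ^ (1 - κ : ℝ) * (N : ℝ) ^ ρ := by gcongr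
      _ = N := by
          rw [← Real.rpow_add hN0, ← Real.rpow_add hN0]
          have : κ - ρ + (1 - κ) + ρ = 1 := by ring
          rw [this, Real.rpow_one]
  have hqW : (q : ℝ) * WW N ≤ X := by
    refine le_trans ?_ hqZ
    have : (WW N : ℝ) ≤ ZZ N := by exact_mod_cast WW_le hN1
    gcongr
  have hNW : (N : ℝ) / WW N ≤ X := by
    rw [hX, div_le_div_iff₀ (by positivity) (by positivity)]
    have : L ^ C ≤ WW N := by
      have h2 : L ^ (C + 1) ≤ 2 * WW N := hLp.trans hWge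
      have h3 : 2 * L ^ C ≤ L ^ (C + 1) := by
        rw [pow_succ]
        nlinarith
      linarith
    gcongr
  apply hG N hNN₂ q hqN univ β y hy
  · obtain ⟨Y, hY1, hY2⟩ := hK' q N (WW N) k h β hW1 ((WW_le hN1).trans (ZZ_le hN1)) (by exact_mod_cast hqN) hkn hkN
      hcop hβ
    refine (sum_le_sum fun d hd => hY1 d hd (y / d) (Nat.div_le_div_right hy)).trans (hY2.trans ?_)
    rw [← hL]
    have e1 : (N : ℝ) / k + q * WW N + q * k ≤ 3 * X := by linarith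
    have e0 : 0 ≤ (N : ℝ) / k + q * WW N + q * k := by positivity
    calc K' * ((N : ℝ) / k + q * WW N + q * k) * (1 + L) ^ 2
        ≤ |K'| * ((N : ℝ) / k + q * WW N + q * k) * (1 + L) ^ 2 := by
          gcongr
          exact le_abs_self K'
      _ ≤ |K'| * (3 * X) * (2 * L) ^ 2 := by
          have hX0 : 0 ≤ X := by rw [hX]; positivity
          have h2L : 1 + L ≤ 2 * L := by linarith
          gcongr
      _ = (12 * |K'|) * (X * L ^ 2) := by ring
      _ ≤ L * (X * L ^ 2) := by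
          have : 0 ≤ X := by rw [hX]; positivity
          gcongr
          linarith
      _ = N * (L ^ 3 / L ^ C) := by
          rw [hX]
          ring
      _ ≤ N * (1 / L ^ (A + 4)) := by
          have : L ^ 3 / L ^ C ≤ 1 / L ^ (A + 4) := by
            rw [div_le_div_iff₀ (by positivity) (by positivity), one_mul, ← pow_add]
            exact pow_le_pow_right₀ hL1 (by omega)
          gcongr
      _ = _ := by ring
  · intro j _
    rw [← hL]
    exact bil_min hK hL hN1 hy (fun m hm => a2_supp hN1 hm) (a2_le _ _ _ _) (b2_le _ _ _) hkn hkN hcop hβ hX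
      (by linarith) hL1 hC hqZ hqk hNk hNW
  · intro j _
    rw [← hL]
    exact bil_min hK hL hN1 hy (fun m hm => a1_supp hm) (a1_le _ _ _ _) (b1_le _ _) hkn hkN hcop hβ hX
      (by linarith) hL1 hC hqZ hqk hNk hNW

end Pool.Agent.L7h46.GK
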