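import Pool.Agent.L7h46.GK.Wt1

/-!
Project GK, job WTD: the limit of the density of the rough numbers.
-/

set_option autoImplicit false
set_option linter.unusedSectionVars false

namespace Pool.Agent.L7h46.GK

open Lv (κ)
open Pool.Agent.R453.GS

open Finset Filter Topology

/-- sums of `1/p` between powers of `N`, lower bound -/
lemma sum_pow_low {α β : ℝ} (hα : 0 < α) (hαβ : α ≤ β) {ε : ℝ} (hε : 0 < ε) :
    ∀ᶠ N : ℕ in atTop, Real.log (β / α) - ε ≤
      ∑ p ∈ (Ioc ⌊(N : ℝ) ^ α⌋₊ ⌊(N : ℝ) ^ β⌋₊).filter Nat.Prime, (1 : ℝ) / p := by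
  obtain ⟨C, hC0, hC⟩ := Pool.Agent.Helper923.HMertens.mertens_ratio
  have hβ : 0 < β := hα.trans_le hαβ
  filter_upwards [ev_log (((C + 1) / ε + 3) / α), ev_log (2 / (ε * β) + 2 / β), ev_log ((2 * C / ε + 3) / α),
    eventually_ge_atTop 2] with N hL hL2 hL3 hN
  obtain ⟨a1, a2, a3⟩ := log_floor hα hN
  obtain ⟨b1, b2, b3⟩ := log_floor hβ hN
  have hN1 : (1 : ℝ) ≤ N := by exact_mod_cast (by omega : 1 ≤ N)
  have hab : ⌊(N : ℝ) ^ α⌋₊ ≤ ⌊(N : ℝ) ^ β⌋₊ :=
    Nat.floor_le_floor (Real.rpow_le_rpow_of_exponent_le hN1 hαβ)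
  have hL' : (C + 1) / ε + 3 ≤ α * Real.log N := by
    rw [div_le_iff₀ hα] at hL
    linarith
  have hL3' : 2 * C / ε + 3 ≤ α * Real.log N := by
    rw [div_le_iff₀ hα] at hL3
    linarith
  have hCe : 0 ≤ (C + 1) / ε := by positivity
  set la := Real.log (⌊(N : ℝ) ^ α⌋₊ : ℝ) with hla
  set lb := Real.log (⌊(N : ℝ) ^ β⌋₊ : ℝ) with hlb
  have hla1 : (C + 1) / ε + 2 ≤ la := by linarith
  have hla3 : 2 * C / ε + 2 ≤ la := by linarith
  have hla0 : 0 < la := by linarith
  have h2 : 2 ≤ ⌊(N : ℝ) ^ α⌋₊ := by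
    by_contra hcon
    have h3 : ⌊(N : ℝ) ^ α⌋₊ = 1 := by omega
    rw [h3] at hla
    rw [Nat.cast_one, Real.log_one] at hla
    linarith
  have h := (abs_le.1 (hC _ _ h2 hab)).1
  rw [← hla, ← hlb] at h
  have hL0 : 0 < Real.log N := by
    by_contra hcon
    push Not at hcon
    nlinarith
  have hβL : 2 / ε + 2 ≤ β * Real.log N := by
    have := mul_le_mul_of_nonneg_left hL2 hβ.le
    have e : β * (2 / (ε * β) + 2 / β) = 2 / ε + 2 := by field_simp
    linarith
  have h2e : 0 < 2 / ε := by positivity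
  have hβL0 : 0 < β * Real.log N := by positivity
  have e1 : Real.log (β / α) - ε / 2 ≤ Real.log (lb / la) := by
    have g1 : β / α * (1 - 1 / (β * Real.log N)) ≤ lb / la := by
      rw [le_div_iff₀ hla0]
      have g0 : 0 ≤ 1 - 1 / (β * Real.log N) := by
        rw [sub_nonneg, div_le_one hβL0]
        linarith
      calc β / α * (1 - 1 / (β * Real.log N)) * la ≤ β / α * (1 - 1 / (β * Real.log N)) * (α * Real.log N) :=
            mul_le_mul_of_nonneg_left a2 (mul_nonneg (by positivity) g0)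
        _ = β * Real.log N - 1 := by
            field_simp
        _ ≤ lb := b3
    have g3 : 0 < 1 - 1 / (β * Real.log N) := by
      rw [sub_pos, div_lt_one hβL0]
      linarith
    have g4 : 0 < β / α * (1 - 1 / (β * Real.log N)) := mul_pos (by positivity) g3
    refine le_trans ?_ (Real.log_le_log g4 g1)
    rw [Real.log_mul (by positivity) g3.ne']
    have g5 := Real.one_sub_inv_le_log_of_pos g3
    have g6 : -(ε / 2) ≤ 1 - (1 - 1 / (β * Real.log N))⁻¹ := by
      have g7 : (1 - 1 / (β * Real.log N))⁻¹ ≤ 1 + ε / 2 := by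
        rw [inv_le_comm₀ g3 (by positivity)]
        have g8 : (1 + ε / 2)⁻¹ = 1 - (ε / 2) / (1 + ε / 2) := by
          field_simp
          ring
        rw [g8]
        have g9 : 1 / (β * Real.log N) ≤ (ε / 2) / (1 + ε / 2) := by
          rw [div_le_div_iff₀ hβL0 (by positivity)]
          have g10 : (ε / 2) * (2 / ε + 2) = 1 + ε := by field_simp
          have g11 : (ε / 2) * (2 / ε + 2) ≤ (ε / 2) * (β * Real.log N) :=
            mul_le_mul_of_nonneg_left hβL (by positivity)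
          linarith
        linarith
      linarith
    linarith
  have e2 : C / la ≤ ε / 2 := by
    rw [div_le_iff₀ hla0]
    have g1 : ε / 2 * (2 * C / ε + 2) = C + ε := by field_simp
    have g2 : ε / 2 * (2 * C / ε + 2) ≤ ε / 2 * la := mul_le_mul_of_nonneg_left hla3 (by positivity)
    linarith
  linarith

/-- the primitive of `1 / (t (1 - t))` -/
noncomputable def FF (t : ℝ) : ℝ := Real.log (t / (1 - t))

lemma FF_sub {a b : ℝ} (ha : 0 < a) (hab : a ≤ b) (hb : b ≤ 1 / 2) :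
    Real.log (b / a) / (1 - a) ≤ FF b - FF a ∧ FF b - FF a ≤ Real.log (b / a) / (1 - b) ∧
    Real.log (b / a) / (1 - b) - Real.log (b / a) / (1 - a) ≤ 4 * ((b - a) ^ 2 / a) := by
  have hb0 : 0 < b := by linarith
  have h1a : 0 < 1 - a := by linarith
  have h1b : 0 < 1 - b := by linarith
  have hF : FF b - FF a = Real.log (b / a) + Real.log ((1 - a) / (1 - b)) := by
    unfold FF
    rw [Real.log_div hb0.ne' h1b.ne', Real.log_div ha.ne' h1a.ne', Real.log_div hb0.ne' ha.ne',
      Real.log_div h1a.ne' h1b.ne']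
    ring
  have p1 : Real.log (b / a) ≤ (b - a) / a := by
    have := Real.log_le_sub_one_of_pos (show 0 < b / a by positivity)
    have e : b / a - 1 = (b - a) / a := by field_simp
    linarith
  have p2 : (b - a) / b ≤ Real.log (b / a) := by
    have := Real.one_sub_inv_le_log_of_pos (show 0 < b / a by positivity)
    have e : 1 - (b / a)⁻¹ = (b - a) / b := by field_simp
    linarith
  have p3 : Real.log ((1 - a) / (1 - b)) ≤ (b - a) / (1 - b) := by
    have := Real.log_le_sub_one_of_pos (show 0 < (1 - a) / (1 - b) by positivity)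
    have e : (1 - a) / (1 - b) - 1 = (b - a) / (1 - b) := by
      field_simp
      ring
    linarith
  have p4 : (b - a) / (1 - a) ≤ Real.log ((1 - a) / (1 - b)) := by
    have := Real.one_sub_inv_le_log_of_pos (show 0 < (1 - a) / (1 - b) by positivity)
    have e : 1 - ((1 - a) / (1 - b))⁻¹ = (b - a) / (1 - a) := by
      field_simp
      ring
    linarith
  have hba : 0 ≤ b - a := by linarith
  refine ⟨?_, ?_, ?_⟩
  · rw [hF]
    have e : Real.log (b / a) / (1 - a) = Real.log (b / a) + a / (1 - a) * Real.log (b / a) := by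
      field_simp
      ring
    rw [e]
    have : a / (1 - a) * Real.log (b / a) ≤ a / (1 - a) * ((b - a) / a) :=
      mul_le_mul_of_nonneg_left p1 (by positivity)
    have e2 : a / (1 - a) * ((b - a) / a) = (b - a) / (1 - a) := by field_simp
    linarith
  · rw [hF]
    have e : Real.log (b / a) / (1 - b) = Real.log (b / a) + b / (1 - b) * Real.log (b / a) := by
      field_simp
      ring
    rw [e]
    have : b / (1 - b) * ((b - a) / b) ≤ b / (1 - b) * Real.log (b / a) :=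
      mul_le_mul_of_nonneg_left p2 (by positivity)
    have e2 : b / (1 - b) * ((b - a) / b) = (b - a) / (1 - b) := by field_simp
    linarith
  · have e : Real.log (b / a) / (1 - b) - Real.log (b / a) / (1 - a) =
        Real.log (b / a) * (b - a) * (1 / ((1 - a) * (1 - b))) := by
      field_simp
      ring
    rw [e]
    have q1 : 1 / ((1 - a) * (1 - b)) ≤ 4 := by
      rw [div_le_iff₀ (by positivity)]
      nlinarith
    have q2 : 0 ≤ Real.log (b / a) := by
      have : 0 ≤ (b - a) / b := by positivity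
      linarith
    have q3 : Real.log (b / a) * (b - a) ≤ (b - a) ^ 2 / a := by
      calc Real.log (b / a) * (b - a) ≤ (b - a) / a * (b - a) := mul_le_mul_of_nonneg_right p1 hba
        _ = (b - a) ^ 2 / a := by ring
    calc Real.log (b / a) * (b - a) * (1 / ((1 - a) * (1 - b))) ≤ (b - a) ^ 2 / a * 4 :=
          mul_le_mul q3 q1 (by positivity) (by positivity)
      _ = _ := by ring

/-- the weighted sum over the primes between two powers of `N` -/
noncomputable def TT (a b : ℝ) (N n : ℕ) : ℝ :=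
  ∑ p ∈ PP a b N, Real.log N * (1 / ((p : ℝ) * Real.log ((n : ℝ) / p)))

/-- one small interval -/
lemma TT_one {a b : ℝ} (ha : 1 / 3 ≤ a) (hab : a ≤ b) (hb : b ≤ 1 / 2) {ε : ℝ} (hε : 0 < ε) :
    ∃ δ : ℝ, 0 < δ ∧ ∀ᶠ N : ℕ in atTop, ∀ n : ℕ, n ≤ N → 1 ≤ n → (1 - δ) * Real.log N ≤ Real.log n →
      |TT a b N n - (FF b - FF a)| ≤ 12 * (b - a) ^ 2 + ε := by
  have ha0 : 0 < a := by linarith
  have hb0 : 0 < b := by linarith
  obtain ⟨f1, f2, f3⟩ := FF_sub ha0 hab hb
  set l := Real.log (b / a) with hl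
  have hl0 : 0 ≤ l := Real.log_nonneg (by rw [le_div_iff₀ ha0]; linarith)
  have hl1 : l ≤ 1 := by
    have h1 := Real.log_le_sub_one_of_pos (show 0 < b / a by positivity)
    have h2 : b / a ≤ 2 := by
      rw [div_le_iff₀ ha0]
      linarith
    linarith
  obtain ⟨ε', hε'⟩ : ∃ ε', ε' = min ε 1 := ⟨_, rfl⟩
  have hε'0 : 0 < ε' := by rw [hε']; exact lt_min hε one_pos
  have hε'1 : ε' ≤ 1 := by rw [hε']; exact min_le_right _ _
  have hε'2 : ε' ≤ ε := by rw [hε']; exact min_le_left _ _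
  refine ⟨ε' / 100, by positivity, ?_⟩
  filter_upwards [sum_pow ha0 hab (ε := ε' / 20) (by positivity), sum_pow_low ha0 hab (ε := ε' / 20) (by positivity),
    ev_log 1, eventually_ge_atTop 2] with N hS1 hS2 hL hN n hn hn1 hln
  have hL0 : 0 < Real.log N := by linarith
  have hn0 : (0 : ℝ) < n := by exact_mod_cast hn1
  have hN0 : (0 : ℝ) < N := by exact_mod_cast (by omega : 0 < N)
  have hlnN : Real.log n ≤ Real.log N := Real.log_le_log hn0 (by exact_mod_cast hn)
  change SP a b N ≤ l + ε' / 20 at hS1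
  change l - ε' / 20 ≤ SP a b N at hS2
  have hden : 0 < 1 - ε' / 100 - b := by linarith
  have hterm : ∀ p ∈ PP a b N, 1 / (1 - a) * (1 / (p : ℝ)) - 0 ≤ Real.log N * (1 / ((p : ℝ) * Real.log ((n : ℝ) / p))) ∧
      Real.log N * (1 / ((p : ℝ) * Real.log ((n : ℝ) / p))) ≤ 1 / (1 - ε' / 100 - b) * (1 / (p : ℝ)) := by
    intro p hp
    unfold PP at hp
    rw [mem_filter, mem_Ioc] at hp
    obtain ⟨⟨hp1, hp2⟩, hpp⟩ := hp
    have hp0 : (0 : ℝ) < p := by exact_mod_cast hpp.pos
    have k1 : Real.log p ≤ b * Real.log N := 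
      (Real.log_le_log hp0 (by exact_mod_cast hp2)).trans (log_floor hb0 hN).2.1
    have k2 : a * Real.log N ≤ Real.log p := by
      rw [← Real.log_rpow hN0]
      apply Real.log_le_log (by positivity)
      have h1 : (N : ℝ) ^ a < (⌊(N : ℝ) ^ a⌋₊ : ℝ) + 1 := Nat.lt_floor_add_one _
      have h2 : (⌊(N : ℝ) ^ a⌋₊ : ℝ) + 1 ≤ p := by exact_mod_cast hp1
      linarith
    have k3 : Real.log ((n : ℝ) / p) = Real.log n - Real.log p := Real.log_div hn0.ne' hp0.ne'
    have k4 : (1 - ε' / 100 - b) * Real.log N ≤ Real.log ((n : ℝ) / p) := by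
      rw [k3]
      linarith
    have k5 : Real.log ((n : ℝ) / p) ≤ (1 - a) * Real.log N := by
      rw [k3]
      linarith
    have k6 : 0 < Real.log ((n : ℝ) / p) := lt_of_lt_of_le (mul_pos hden hL0) k4
    have h1a : 0 < 1 - a := by linarith
    constructor
    · rw [sub_zero, one_div_mul_one_div, mul_one_div, div_le_div_iff₀ (by positivity) (by positivity), one_mul]
      calc (p : ℝ) * Real.log ((n : ℝ) / p) ≤ p * ((1 - a) * Real.log N) := mul_le_mul_of_nonneg_left k5 hp0.le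
        _ = _ := by ring
    · rw [one_div_mul_one_div, mul_one_div, div_le_div_iff₀ (by positivity) (by positivity), one_mul]
      calc Real.log N * ((1 - ε' / 100 - b) * p) = p * ((1 - ε' / 100 - b) * Real.log N) := by ring
        _ ≤ _ := mul_le_mul_of_nonneg_left k4 hp0.le
  have hU : TT a b N n ≤ 1 / (1 - ε' / 100 - b) * SP a b N := by
    unfold TT SP
    rw [mul_sum]
    exact sum_le_sum fun p hp => (hterm p hp).2
  have hLo : 1 / (1 - a) * SP a b N ≤ TT a b N n := by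
    unfold TT SP
    rw [mul_sum]
    refine sum_le_sum fun p hp => ?_
    have := (hterm p hp).1
    linarith
  have h4 : 4 * ((b - a) ^ 2 / a) ≤ 12 * (b - a) ^ 2 := by
    have : (b - a) ^ 2 / a ≤ 3 * (b - a) ^ 2 := by
      rw [div_le_iff₀ ha0]
      nlinarith [sq_nonneg (b - a)]
    linarith
  have h1a : 0 < 1 - a := by linarith
  have h1b : 0 < 1 - b := by linarith
  have hup : 1 / (1 - ε' / 100 - b) * SP a b N ≤ l / (1 - b) + ε := by
    have u1 : 1 / (1 - ε' / 100 - b) ≤ 1 / (1 - b) + ε' / 10 := by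
      rw [div_le_iff₀ hden]
      have u2 : (1 / (1 - b) + ε' / 10) * (1 - ε' / 100 - b) = 1 + ε' / 10 * (1 - b) -
          ε' / 100 * (1 / (1 - b)) - ε' / 10 * (ε' / 100) := by
        field_simp
        ring
      rw [u2]
      have u3 : 1 / (1 - b) ≤ 2 := by
        rw [div_le_iff₀ h1b]
        linarith
      nlinarith
    have u3 : 1 / (1 - b) ≤ 2 := by
      rw [div_le_iff₀ h1b]
      linarith
    have u4 : 0 < 1 / (1 - b) := by positivity
    have u5 := SP_nonneg a b N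
    calc 1 / (1 - ε' / 100 - b) * SP a b N ≤ (1 / (1 - b) + ε' / 10) * (l + ε' / 20) :=
          mul_le_mul u1 hS1 u5 (by positivity)
      _ = l / (1 - b) + (1 / (1 - b) * (ε' / 20) + ε' / 10 * l + ε' / 10 * (ε' / 20)) := by ring
      _ ≤ l / (1 - b) + ε := by nlinarith
  have hlo : l / (1 - a) - ε ≤ 1 / (1 - a) * SP a b N := by
    have u3 : 1 / (1 - a) ≤ 2 := by
      rw [div_le_iff₀ h1a]
      linarith
    have u4 : 0 < 1 / (1 - a) := by positivity
    calc l / (1 - a) - ε ≤ 1 / (1 - a) * (l - ε' / 20) := by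
          have : 1 / (1 - a) * (l - ε' / 20) = l / (1 - a) - 1 / (1 - a) * (ε' / 20) := by ring
          rw [this]
          nlinarith
      _ ≤ _ := mul_le_mul_of_nonneg_left hS2 u4.le
  rw [abs_le]
  constructor <;> linarith

lemma PP_union {a b c : ℝ} (hab : a ≤ b) (hbc : b ≤ c) {N : ℕ} (hN : 1 ≤ N) :
    PP a c N = PP a b N ∪ PP b c N ∧ Disjoint (PP a b N) (PP b c N) := by
  have hN1 : (1 : ℝ) ≤ N := by exact_mod_cast hN
  have h1 : ⌊(N : ℝ) ^ a⌋₊ ≤ ⌊(N : ℝ) ^ b⌋₊ :=
    Nat.floor_le_floor (Real.rpow_le_rpow_of_exponent_le hN1 hab)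
  have h2 : ⌊(N : ℝ) ^ b⌋₊ ≤ ⌊(N : ℝ) ^ c⌋₊ :=
    Nat.floor_le_floor (Real.rpow_le_rpow_of_exponent_le hN1 hbc)
  constructor
  · ext p
    unfold PP
    rw [mem_union, mem_filter, mem_filter, mem_filter, mem_Ioc, mem_Ioc, mem_Ioc]
    constructor
    · rintro ⟨⟨h3, h4⟩, h5⟩
      rcases Nat.lt_or_ge ⌊(N : ℝ) ^ b⌋₊ p with h | h
      · exact Or.inr ⟨⟨h, h4⟩, h5⟩
      · exact Or.inl ⟨⟨h3, h⟩, h5⟩
    · rintro (⟨⟨h3, h4⟩, h5⟩ | ⟨⟨h3, h4⟩, h5⟩)
      · exact ⟨⟨h3, h4.trans h2⟩, h5⟩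
      · exact ⟨⟨h1.trans_lt h3, h4⟩, h5⟩
  · rw [disjoint_left]
    intro p hp hq
    unfold PP at hp hq
    rw [mem_filter, mem_Ioc] at hp hq
    omega

lemma TT_add {a b c : ℝ} (hab : a ≤ b) (hbc : b ≤ c) {N : ℕ} (hN : 1 ≤ N) (n : ℕ) :
    TT a c N n = TT a b N n + TT b c N n := by
  obtain ⟨h1, h2⟩ := PP_union hab hbc hN
  unfold TT
  rw [h1, sum_union h2]

/-- `j` small intervals -/
lemma TT_grid {a h : ℝ} (ha : 1 / 3 ≤ a) (hh : 0 ≤ h) (j : ℕ) (hj : a + j * h ≤ 1 / 2) :
    ∀ ε : ℝ, 0 < ε → 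
    ∃ δ : ℝ, 0 < δ ∧ ∀ᶠ N : ℕ in atTop, ∀ n : ℕ, n ≤ N → 1 ≤ n → (1 - δ) * Real.log N ≤ Real.log n →
      |TT a (a + j * h) N n - (FF (a + j * h) - FF a)| ≤ 12 * j * h ^ 2 + ε := by
  induction j with
  | zero =>
    intro ε hε
    refine ⟨1, one_pos, Eventually.of_forall fun N n _ _ _ => ?_⟩
    have e : PP a a N = ∅ := by
      unfold PP
      rw [Ioc_self, filter_empty]
    have : TT a (a + ((0 : ℕ) : ℝ) * h) N n = 0 := by
      rw [Nat.cast_zero, zero_mul, add_zero]
      unfold TT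
      rw [e, sum_empty]
    rw [this, Nat.cast_zero, zero_mul, add_zero, sub_self, sub_zero, abs_zero]
    simp only [mul_zero, zero_mul, zero_add]
    exact hε.le
  | succ j ih =>
    intro ε hε
    have hj' : a + j * h ≤ 1 / 2 := by
      push_cast at hj
      linarith
    obtain ⟨δ₁, hδ₁, h1⟩ := ih hj' (ε / 2) (by positivity)
    have haj : a ≤ a + j * h := by
      have : 0 ≤ (j : ℝ) * h := by positivity
      linarith
    have hjj : a + j * h ≤ a + ((j + 1 : ℕ) : ℝ) * h := by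
      push_cast
      linarith
    obtain ⟨δ₂, hδ₂, h2⟩ := TT_one (a := a + j * h) (b := a + ((j + 1 : ℕ) : ℝ) * h) (by linarith) hjj hj
      (ε := ε / 2) (by positivity)
    refine ⟨min δ₁ δ₂, lt_min hδ₁ hδ₂, ?_⟩
    filter_upwards [h1, h2, eventually_ge_atTop 1, ev_log 1] with N h1 h2 hN hL n hn hn1 hln
    have hL0 : 0 < Real.log N := by linarith
    have e1 := h1 n hn hn1 (by
      have := mul_le_mul_of_nonneg_right (min_le_left δ₁ δ₂) hL0.le
      linarith)
    have e2 := h2 n hn hn1 (by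
      have := mul_le_mul_of_nonneg_right (min_le_right δ₁ δ₂) hL0.le
      linarith)
    rw [TT_add haj hjj hN n]
    have e3 : a + ((j + 1 : ℕ) : ℝ) * h - (a + j * h) = h := by
      push_cast
      ring
    rw [e3] at e2
    have e4 : TT a (a + j * h) N n + TT (a + j * h) (a + ((j + 1 : ℕ) : ℝ) * h) N n -
        (FF (a + ((j + 1 : ℕ) : ℝ) * h) - FF a) = (TT a (a + j * h) N n - (FF (a + j * h) - FF a)) +
        (TT (a + j * h) (a + ((j + 1 : ℕ) : ℝ) * h) N n - (FF (a + ((j + 1 : ℕ) : ℝ) * h) - FF (a + j * h))) := by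
      ring
    rw [e4]
    refine (abs_add_le _ _).trans ((add_le_add e1 e2).trans (le_of_eq ?_))
    push_cast
    ring

/-- the whole sum -/
lemma TT_lim {a : ℝ} (ha : 1 / 3 ≤ a) (ha2 : a ≤ 1 / 2) {ε : ℝ} (hε : 0 < ε) :
    ∃ δ : ℝ, 0 < δ ∧ ∀ᶠ N : ℕ in atTop, ∀ n : ℕ, n ≤ N → 1 ≤ n → (1 - δ) * Real.log N ≤ Real.log n →
      |TT a (1 / 2) N n - Real.log ((1 - a) / a)| ≤ ε := by
  obtain ⟨J, hJ⟩ := exists_nat_gt (1 / ε)
  have hJ0 : (0 : ℝ) < J := lt_trans (by positivity) hJ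
  obtain ⟨h, hh⟩ : ∃ h : ℝ, h = (1 / 2 - a) / J := ⟨_, rfl⟩
  have hh0 : 0 ≤ h := by
    rw [hh]
    apply div_nonneg _ hJ0.le
    linarith
  have hJh : (J : ℝ) * h = 1 / 2 - a := by
    rw [hh]
    field_simp
  obtain ⟨δ, hδ, h1⟩ := TT_grid ha hh0 J (by rw [hJh]; linarith) (ε / 2) (by positivity)
  refine ⟨δ, hδ, ?_⟩
  filter_upwards [h1] with N h1 n hn hn1 hln
  have h2 := h1 n hn hn1 hln
  rw [hJh, show a + (1 / 2 - a) = 1 / 2 by ring] at h2
  have h3 : FF (1 / 2) - FF a = Real.log ((1 - a) / a) := by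
    unfold FF
    have e : (1 / 2 : ℝ) / (1 - 1 / 2) = 1 := by norm_num
    rw [e, Real.log_one, zero_sub, ← Real.log_inv, inv_div]
  rw [h3] at h2
  refine h2.trans ?_
  have h4 : 12 * (J : ℝ) * h ^ 2 ≤ ε / 2 := by
    have e : 12 * (J : ℝ) * h ^ 2 = 12 * ((J : ℝ) * h) * h := by ring
    rw [e, hJh, hh]
    have h5 : (1 / 2 - a) ≤ 1 / 6 := by linarith
    have h6 : 0 ≤ 1 / 2 - a := by linarith
    have h7 : (1 / 2 - a) / (J : ℝ) ≤ (1 / 6) / J := div_le_div_of_nonneg_right h5 hJ0.le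
    have h8 : (1 : ℝ) / J < ε := by
      rw [div_lt_iff₀ hJ0]
      rw [div_lt_iff₀ hε] at hJ
      linarith
    calc 12 * (1 / 2 - a) * ((1 / 2 - a) / J) ≤ 12 * (1 / 6) * ((1 / 6) / J) := by gcongr
      _ = (1 / 3) * (1 / J) := by ring
      _ ≤ ε / 2 := by linarith
  linarith

variable [Lv]

theorem wtd : WtdStm := by
  intro B ε hε
  obtain ⟨ε', hε'⟩ : ∃ ε', ε' = min ε 1 := ⟨_, rfl⟩
  have hε'0 : 0 < ε' := by rw [hε']; exact lt_min hε one_pos
  have hε'1 : ε' ≤ 1 := by rw [hε']; exact min_le_right _ _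
  have hε'2 : ε' ≤ ε := by rw [hε']; exact min_le_left _ _
  obtain ⟨δ₁, hδ₁, h1⟩ := TT_lim (a := 1 - κ) kc_third kc_half (ε := ε' / 4) (by positivity)
  obtain ⟨δ, hδd⟩ : ∃ δ, δ = min δ₁ (ε' / 100) := ⟨_, rfl⟩
  have hδ0 : 0 < δ := by rw [hδd]; exact lt_min hδ₁ (by positivity)
  have hδ1 : δ ≤ δ₁ := by rw [hδd]; exact min_le_left _ _
  have hδ2 : δ ≤ ε' / 100 := by rw [hδd]; exact min_le_right _ _
  have hδ3 : δ ≤ 1 / 100 := by linarith
  have hLT : Tendsto (fun N : ℕ => Real.log (N : ℝ)) atTop atTop :=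
    Real.tendsto_log_atTop.comp tendsto_natCast_atTop_atTop
  have h5 : ∀ᶠ L : ℝ in atTop, B * Real.log L ≤ δ * L := by
    have h6 := Real.isLittleO_log_id_atTop.bound (show (0 : ℝ) < δ / (B + 1) by positivity)
    filter_upwards [h6, eventually_ge_atTop 1] with L h7 h8
    have h9 : 0 ≤ Real.log L := Real.log_nonneg h8
    rw [Real.norm_of_nonneg h9, id, Real.norm_of_nonneg (by linarith)] at h7
    have h10 : (B + 1 : ℝ) * Real.log L ≤ δ * L := by
      calc (B + 1 : ℝ) * Real.log L ≤ (B + 1 : ℝ) * (δ / (B + 1) * L) :=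
            mul_le_mul_of_nonneg_left h7 (by positivity)
        _ = δ * L := by field_simp
    linarith
  have hα : (0 : ℝ) < (1 - 2 * δ) / 2 := by linarith
  have hev := sum_pow (α := (1 - 2 * δ) / 2) (β := 1 / 2) hα (by linarith) (ε := ε' / 100) (by positivity)
  obtain ⟨N₀, hN₀⟩ := eventually_atTop.1 ((big.and (hLT.eventually_ge_atTop (10 / δ))).and
    ((hLT.eventually h5).and (h1.and (hev.and (eventually_ge_atTop 2)))))
  refine ⟨N₀, fun N hN n hn hnN => ?_⟩
  obtain ⟨⟨hB, hL1⟩, hBL, hT, hS, hN2⟩ := hN₀ N hN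
  have hL0 : 0 < Real.log N := hB.L
  have hLδ : 10 ≤ δ * Real.log N := by
    rw [div_le_iff₀ hδ0] at hL1
    linarith
  have hL10 : 10 ≤ Real.log N := by nlinarith
  have hN0 : (0 : ℝ) < N := by exact_mod_cast (by omega : 0 < N)
  have hN1 : (1 : ℝ) ≤ N := by exact_mod_cast (by omega : 1 ≤ N)
  have hNB : 0 < (N : ℝ) / Real.log N ^ B := by positivity
  have hnR : (0 : ℝ) < n := lt_of_lt_of_le hNB hnN
  have hn0 : 0 < n := by exact_mod_cast hnR
  have hln : (1 - δ) * Real.log N ≤ Real.log n := by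
    have h1 := Real.log_le_log hNB hnN
    rw [Real.log_div hN0.ne' (by positivity), Real.log_pow] at h1
    linarith
  have hln2 : Real.log n ≤ Real.log N := Real.log_le_log hnR (by exact_mod_cast hn)
  have hln0 : 0 < Real.log n := by nlinarith
  have hZn' : ZZ N < n := by
    have hz0 : (0 : ℝ) < ZZ N := by exact_mod_cast (by have := hB.Z2; omega : 0 < ZZ N)
    have h8 : Real.log (ZZ N) < Real.log n := by
      have := (log_floor (γ := 1 - κ) kc_pos hN2).2.1
      change Real.log (ZZ N : ℝ) ≤ _ at this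
      have h9 := kc_half
      nlinarith
    exact_mod_cast (Real.log_lt_log_iff hz0 hnR).1 h8
  set g : ℕ → ℝ := fun m => 1 / ((m : ℝ) * Real.log ((n : ℝ) / m)) with hg
  have hg0 : ∀ m ∈ mm N n, 0 ≤ g m := by
    intro m hm
    obtain ⟨h1, h2, h3⟩ := ratio (by have := hB.Z2; omega) hm
    have hZ : (2 : ℝ) ≤ ZZ N := by exact_mod_cast hB.Z2
    have : 0 ≤ Real.log ((n : ℝ) / m) := Real.log_nonneg (by linarith)
    show 0 ≤ 1 / ((m : ℝ) * Real.log ((n : ℝ) / m))
    positivity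
  have h1m : 1 ∈ mm N n := by
    rw [mem_mm]
    refine ⟨⟨le_rfl, hn0⟩, by simp, ?_⟩
    simp only [Nat.primeFactors_one, sup_empty, bot_eq_zero', zero_le, sup_of_le_right, one_mul]
    exact hZn'
  have hg1 : g 1 = 1 / Real.log n := by
    simp only [hg, Nat.cast_one, one_mul, div_one]
  have hWeq : Wt N n = Real.log N * ∑ m ∈ mm N n, g m := rfl
  constructor
  · rw [hWeq]
    have h2 : g 1 ≤ ∑ m ∈ mm N n, g m := single_le_sum hg0 h1m
    calc (1 : ℝ) ≤ Real.log N * (1 / Real.log n) := by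
          rw [mul_one_div, le_div_iff₀ hln0]
          linarith
      _ ≤ Real.log N * ∑ m ∈ mm N n, g m := mul_le_mul_of_nonneg_left (by rw [← hg1]; exact h2) hL0.le
  · -- the primes
    set A2 := (mm N n).filter Nat.Prime with hA2
    have hmm : mm N n = insert 1 A2 := by
      ext m
      rw [mem_insert, hA2, mem_filter]
      constructor
      · intro hm
        rcases shape hB hn hm with h | ⟨h1, h2, h3⟩ | ⟨p, q, h1, h2, h3, h4, h5, h6, h7, h8⟩
        · exact Or.inl h
        · exact Or.inr ⟨hm, h1⟩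
        · exfalso
          have k2 : (N : ℝ) ^ (1 - κ : ℝ) < ((ZZ N : ℕ) : ℝ) + 1 := Nat.lt_floor_add_one _
          have k3 : ((ZZ N : ℕ) : ℝ) + 1 ≤ p := by exact_mod_cast h5
          have k3' : ((ZZ N : ℕ) : ℝ) + 1 ≤ q := by exact_mod_cast h6
          have k4 : (p : ℝ) * q * q < N := by exact_mod_cast lt_of_lt_of_le h8 hn
          have k5 : (N : ℝ) ^ (1 / 3 : ℝ) ≤ (N : ℝ) ^ (1 - κ : ℝ) :=
            Real.rpow_le_rpow_of_exponent_le hN1 kc_third
          have k6 : (N : ℝ) ^ (1 / 3 : ℝ) * (N : ℝ) ^ (1 / 3 : ℝ) * (N : ℝ) ^ (1 / 3 : ℝ) = N := by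
            rw [← Real.rpow_add hN0, ← Real.rpow_add hN0]
            norm_num
          have k7 : 0 ≤ (N : ℝ) ^ (1 / 3 : ℝ) := Real.rpow_nonneg hN0.le _
          have k8 : (N : ℝ) ^ (1 / 3 : ℝ) * (N : ℝ) ^ (1 / 3 : ℝ) * (N : ℝ) ^ (1 / 3 : ℝ) ≤ (p : ℝ) * q * q := by
            have a1 : (N : ℝ) ^ (1 / 3 : ℝ) ≤ p := by linarith
            have a2 : (N : ℝ) ^ (1 / 3 : ℝ) ≤ q := by linarith
            gcongr
          linarith
      · rintro (h | h)
        · rw [h]; exact h1m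
        · exact h.1
    have h1A : 1 ∉ A2 := by
      rw [hA2, mem_filter]
      exact fun h => Nat.not_prime_one h.2
    have hW2 : Wt N n = Real.log N * (1 / Real.log n) + Real.log N * ∑ m ∈ A2, g m := by
      rw [hWeq, hmm, sum_insert h1A, hg1, mul_add]
    -- the first term
    have f1 : |Real.log N * (1 / Real.log n) - 1| ≤ 2 * δ := by
      rw [mul_one_div, abs_of_nonneg (by rw [sub_nonneg, le_div_iff₀ hln0]; linarith), sub_le_iff_le_add,
        div_le_iff₀ hln0]
      nlinarith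
    -- the sum over the primes
    have hA2sub : A2 ⊆ PP (1 - κ) (1 / 2) N := by
      intro m hm
      rw [hA2, mem_filter] at hm
      obtain ⟨hm, hp⟩ := hm
      have hZ : ZZ N < m := (mem_mm.1 hm).2.1 m (Nat.mem_primeFactors.2 ⟨hp, dvd_rfl, hp.pos.ne'⟩)
      have hmm : m * m < n := by
        refine lt_of_le_of_lt ?_ (mem_mm.1 hm).2.2
        refine Nat.mul_le_mul_left _ (le_trans ?_ (le_max_left _ _))
        exact Finset.le_sup (f := id) (Nat.mem_primeFactors.2 ⟨hp, dvd_rfl, hp.pos.ne'⟩)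
      have hup : m ≤ ⌊(N : ℝ) ^ (1 / 2 : ℝ)⌋₊ := by
        apply Nat.le_floor
        rw [← Real.sqrt_eq_rpow]
        apply Real.le_sqrt_of_sq_le
        have : ((m * m : ℕ) : ℝ) < N := by exact_mod_cast lt_of_lt_of_le hmm hn
        push_cast at this
        nlinarith
      unfold ZZ at hZ
      unfold PP
      rw [mem_filter, mem_Ioc]
      exact ⟨⟨hZ, hup⟩, hp⟩
    have hdiff : PP (1 - κ) (1 / 2) N \ A2 ⊆ PP ((1 - 2 * δ) / 2) (1 / 2) N := by
      intro p hp
      rw [Finset.mem_sdiff] at hp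
      obtain ⟨hp, hnA⟩ := hp
      unfold PP at hp ⊢
      rw [mem_filter, mem_Ioc] at hp ⊢
      obtain ⟨⟨hp1, hp2⟩, hpp⟩ := hp
      refine ⟨⟨?_, hp2⟩, hpp⟩
      have hpn : n ≤ p * p := by
        by_contra hcon
        apply hnA
        rw [hA2, mem_filter, mem_mm]
        refine ⟨⟨⟨hpp.pos, ?_⟩, ?_, ?_⟩, hpp⟩
        · nlinarith [hpp.pos]
        · intro r hr
          rw [hpp.primeFactors, mem_singleton] at hr
          rw [hr]
          exact hp1
        · rw [hpp.primeFactors, sup_singleton, id, max_eq_left (by exact hp1.le)]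
          omega
      have hp0 : (0 : ℝ) < p := by exact_mod_cast hpp.pos
      have k1 : Real.log n ≤ 2 * Real.log p := by
        have : (n : ℝ) ≤ (p : ℝ) * p := by exact_mod_cast hpn
        have h2 := Real.log_le_log hnR this
        rw [Real.log_mul hp0.ne' hp0.ne'] at h2
        linarith
      rw [Nat.floor_lt (by positivity), ← Real.log_lt_log_iff (by positivity) hp0, Real.log_rpow hN0]
      nlinarith
    have hTeq : Real.log N * ∑ m ∈ A2, g m = TT (1 - κ) (1 / 2) N n -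
        ∑ p ∈ PP (1 - κ) (1 / 2) N \ A2, Real.log N * g p := by
      unfold TT
      rw [mul_sum, ← sum_sdiff hA2sub]
      simp only [hg]
      ring
    have hsm : |∑ p ∈ PP (1 - κ) (1 / 2) N \ A2, Real.log N * g p| ≤ ε' / 4 := by
      have hterm : ∀ p ∈ PP ((1 - 2 * δ) / 2) (1 / 2) N, 0 ≤ Real.log N * g p ∧ Real.log N * g p ≤ 4 * (1 / p) := by
        intro p hp
        unfold PP at hp
        rw [mem_filter, mem_Ioc] at hp
        obtain ⟨⟨hp1, hp2⟩, hpp⟩ := hp
        have hp0 : (0 : ℝ) < p := by exact_mod_cast hpp.pos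
        have k1 : Real.log p ≤ 1 / 2 * Real.log N :=
          (Real.log_le_log hp0 (by exact_mod_cast hp2)).trans (log_floor (by norm_num) hN2).2.1
        have k3 : Real.log ((n : ℝ) / p) = Real.log n - Real.log p := Real.log_div hnR.ne' hp0.ne'
        have k4 : 1 / 4 * Real.log N ≤ Real.log ((n : ℝ) / p) := by
          rw [k3]
          nlinarith
        have k6 : 0 < Real.log ((n : ℝ) / p) := lt_of_lt_of_le (by positivity) k4
        simp only [hg]
        refine ⟨by positivity, ?_⟩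
        rw [mul_one_div, mul_one_div, div_le_div_iff₀ (by positivity) hp0]
        have := mul_le_mul_of_nonneg_left k4 hp0.le
        linarith
      rw [abs_of_nonneg (sum_nonneg fun p hp => (hterm p (hdiff hp)).1)]
      calc ∑ p ∈ PP (1 - κ) (1 / 2) N \ A2, Real.log N * g p
          ≤ ∑ p ∈ PP ((1 - 2 * δ) / 2) (1 / 2) N, Real.log N * g p :=
            sum_le_sum_of_subset_of_nonneg hdiff fun p hp _ => (hterm p hp).1
        _ ≤ ∑ p ∈ PP ((1 - 2 * δ) / 2) (1 / 2) N, 4 * (1 / (p : ℝ)) := sum_le_sum fun p hp => (hterm p hp).2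
        _ = 4 * SP ((1 - 2 * δ) / 2) (1 / 2) N := by unfold SP; rw [mul_sum]
        _ ≤ 4 * (Real.log ((1 / 2) / ((1 - 2 * δ) / 2)) + ε' / 100) := mul_le_mul_of_nonneg_left hS (by norm_num)
        _ ≤ ε' / 4 := by
            have hl : Real.log ((1 / 2) / ((1 - 2 * δ) / 2)) ≤ 3 * δ := by
              have e : (1 / 2 : ℝ) / ((1 - 2 * δ) / 2) = 1 / (1 - 2 * δ) := by
                have : (1 - 2 * δ) ≠ 0 := by
                  have : 0 < 1 - 2 * δ := by linarith
                  exact this.ne'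
                field_simp
              rw [e]
              have h12 : 0 < 1 - 2 * δ := by linarith
              have h1 := Real.log_le_sub_one_of_pos (show 0 < 1 / (1 - 2 * δ) by positivity)
              have h2 : 1 / (1 - 2 * δ) ≤ 1 + 3 * δ := by
                rw [div_le_iff₀ h12]
                nlinarith
              linarith
            nlinarith
    have hT' := hT n hn hn0 (by
      have := mul_le_mul_of_nonneg_right hδ1 hL0.le
      linarith)
    rw [show (1 : ℝ) - (1 - κ) = κ by ring] at hT'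
    have hfin : Wt N n - wk = (Real.log N * (1 / Real.log n) - 1) +
        (TT (1 - κ) (1 / 2) N n - Real.log (κ / (1 - κ))) -
        ∑ p ∈ PP (1 - κ) (1 / 2) N \ A2, Real.log N * g p := by
      rw [hW2, hTeq]
      unfold wk
      ring
    rw [hfin]
    have a1 := abs_le.1 f1
    have a2 := abs_le.1 hT'
    have a3 := abs_le.1 hsm
    rw [abs_le]
    constructor <;> linarith [a1.1, a1.2, a2.1, a2.2, a3.1, a3.2]

end Pool.Agent.L7h46.GK
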