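import Pool.Agent.L7h46.GK.Main
import Pool.Agent.L7h46.GK.ErrAll
import Pool.Agent.L7h46.GK.Core2
import Pool.Agent.L7h46.GK.Shm
import Pool.Agent.L7h46.GK.MG
import Pool.Agent.L7h46.GK.NG
import Pool.Agent.L7h46.GK.Bil2
import Pool.Agent.L7h46.GK.Wt2
import Pool.Agent.L7h46.GK.Apg2
import Pool.Agent.L7h46.GK.MH
import Pool.Agent.R460.GS.Ti2
import Pool.Agent.R461.GS.Shl5
import Pool.Agent.Y883.GJ.Asm

/-!
Project GK, the assembly: for every level `1/2 ≤ κ ≤ 2/3`, every modulus up to `N ^ (κ - ρ)` and every residue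
class whose common divisor with the modulus is at most a power of `log N`, all but few of the even numbers of
the class have in every window between `1 - log² (κ / (1 - κ)) - ε` and `1 + log (κ / (1 - κ)) + ε` times the
predicted number of representations.
-/

set_option autoImplicit false

namespace Pool.Agent.L7h46.GK

open Lv (κ)
open Pool.Agent.Y883.GJ

variable [Lv]

/-- the correlations of the primes with shifted characters, from the level `7/10` -/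
theorem shl_all : ShlStm := by
  intro B C T ρ hρ
  obtain ⟨K, N₀, h⟩ := Pool.Agent.R461.GS.shl Pool.Agent.Y235.GJ.vau Pool.Agent.Y662.GJ.jac
    Pool.Agent.Y812.GJ.l2 B C T ρ hρ
  refine ⟨K, N₀ + 1, fun N hN q _ hq => ?_⟩
  refine h N (by omega) q (hq.trans (Real.rpow_le_rpow_of_exponent_le ?_ ?_))
  · exact_mod_cast (by omega : 1 ≤ N)
  · have := Lv.hi
    linarith

theorem errStm_all : ErrStm :=
  err_all
    (core2 Pool.Agent.Y708.GJ.lift Pool.Agent.Y872.GJ.pars Pool.Agent.Y297.GJ.orth Pool.Agent.Y812.GJ.nonU)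
    (shm Pool.Agent.Y297.GJ.orth Pool.Agent.Y662.GJ.jac)
    shl_all
    (mG Pool.Agent.Y812.GJ.l2 (bilMaj2 Pool.Agent.Y812.GJ.l2 (Pool.Agent.Y662.GJ.count Pool.Agent.Y812.GJ.l2))
      (Pool.Agent.R460.GS.tiMaj2 Pool.Agent.Y812.GJ.l2))
    (nG Pool.Agent.Y812.GJ.l2 Pool.Agent.Y909.GJ.bilMin Pool.Agent.Y412.GJ.tiMin)
    (mH (Pool.Agent.R460.GS.tiMaj2 Pool.Agent.Y812.GJ.l2) Pool.Agent.Y812.GJ.lsh_le wtb)
    (nH Pool.Agent.Y412.GJ.tiMin Pool.Agent.Y812.GJ.lsh_le wtb)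
    wtb apg Pool.Agent.Y883.GJ.model_all

/-- the theorem of project GK -/
theorem gk_all (ρ : ℝ) (hρ : 0 < ρ) {ε : ℝ} (hε : 0 < ε) (hε1 : ε ≤ 1 / 2) (A T : ℕ) :
    ∃ N₀ : ℕ, ∀ N : ℕ, N₀ ≤ N → ∀ q : ℕ, 1 ≤ q → (q : ℝ) ≤ (N : ℝ) ^ (κ - ρ) → ∀ a : ℕ,
      (Nat.gcd a q : ℝ) ≤ Real.log N ^ T →
        ((Pool.Agent.Y883.T4.badc (WinK A (1 - (wk - 1) ^ 2 - ε) (wk + ε)) N q a).card : ℝ) ≤
          (N : ℝ) / (q * Real.log N ^ A) :=
  gs_main errStm_all wtb wtd ρ hρ hε hε1 A T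

end Pool.Agent.L7h46.GK
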