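import Pool.Agent.L7h46.GK.Lv

/-! Project GK: the rough numbers and their density. -/

set_option autoImplicit false

namespace Pool.Agent.L7h46.GK

open Lv (κ)

variable [Lv]

open Finset

/-- `N ^ (((1 - κ) / 2))` -/
noncomputable def WW (N : ℕ) : ℕ := ⌊(N : ℝ) ^ ((1 - κ) / 2 : ℝ)⌋₊

/-- `N ^ ((1 - κ))` -/
noncomputable def ZZ (N : ℕ) : ℕ := ⌊(N : ℝ) ^ (1 - κ : ℝ)⌋₊

/-- `log N` times the indicator function of the integers without prime factors up to `N ^ ((1 - κ))` -/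
noncomputable def gr (N n : ℕ) : ℝ := if ∀ p ∈ n.primeFactors, ZZ N < p then Real.log N else 0

/-- the same with complex values -/
noncomputable def GG (N n : ℕ) : ℂ := ((gr N n : ℝ) : ℂ)

/-- the numbers `m`, without prime factors up to `N ^ ((1 - κ))`, for which `m p` with a prime `p` not smaller
than the prime factors of `m` and larger than `N ^ ((1 - κ))` may be counted by `gr`, up to `n` -/
noncomputable def mm (N n : ℕ) : Finset ℕ :=
  (Icc 1 n).filter (fun m => (∀ p ∈ m.primeFactors, ZZ N < p) ∧ m * max (m.primeFactors.sup id) (ZZ N) < n)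

/-- the local density of `gr` -/
noncomputable def Wt (N n : ℕ) : ℝ := Real.log N * ∑ m ∈ mm N n, 1 / ((m : ℝ) * Real.log ((n : ℝ) / m))

/-- WTB: the density is bounded and of bounded variation -/
def WtbStm : Prop := ∃ (c : ℝ) (N₀ : ℕ), ∀ N : ℕ, N₀ ≤ N →
  (∀ n : ℕ, 0 ≤ Wt N n) ∧ (∀ n : ℕ, n ≤ N → Wt N n ≤ c) ∧
  ∑ n ∈ range N, |Wt N (n + 1) - Wt N n| ≤ c

/-- WTD: the limit of the density -/
def WtdStm : Prop := ∀ (B : ℕ) (ε : ℝ), 0 < ε → ∃ N₀ : ℕ, ∀ N : ℕ, N₀ ≤ N → ∀ n : ℕ, n ≤ N → (N : ℝ) / Real.log N ^ B ≤ n →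
  1 ≤ Wt N n ∧ |Wt N n - wk| ≤ ε

/-- APG: the function `gr` in arithmetic progressions with a small difference -/
def ApgStm : Prop := ∀ K U : ℕ, ∃ N₀ : ℕ, ∀ N : ℕ, N₀ ≤ N → ∀ r : ℕ, 1 ≤ r → (r : ℝ) ≤ Real.log N ^ K →
  ∀ c y : ℕ, y ≤ N → |∑ n ∈ (Icc 1 y).filter (fun n => n ≡ c [MOD r]), gr N n -
    (if c.Coprime r then (∑ n ∈ Icc 1 y, Wt N n) / (Nat.totient r : ℝ) else 0)| ≤ N / Real.log N ^ U

end Pool.Agent.L7h46.GK
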