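import Pool.Agent.L7h46.GK.Lv
import Pool.Agent.R460.GS.Det

set_option autoImplicit false
set_option linter.unusedSectionVars false

/-! The main term: deterministic part (sharp constants, lower and upper bounds). -/

namespace Pool.Agent.L7h46.GK

open Pool.Agent.R460.GS

open Finset

/-- the density of the main term -/
lemma dens_lower {N n y₁ y₂ : ℕ} {W : ℕ → ℝ} {c X : ℝ} (hW : WB W c N) (hn : n ≤ N) (h12 : y₁ ≤ y₂)
    (h2 : y₂ < n) (hX : 0 ≤ X) {w δ : ℝ} (hw : 1 ≤ w) (hδ : 0 ≤ δ)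
    (hd : ∀ b : ℕ, b ≤ N → X ≤ b → 1 ≤ W b ∧ |W b - w| ≤ δ) :
    (1 - (w - 1 + δ) ^ 2) * ((y₂ : ℝ) - y₁) - (c ^ 2 + 1) * (2 * X + 2) ≤
      ∑ b ∈ Ioc y₁ y₂, (W (n - b) + W b - W b * W (n - b)) := by
  classical
  have hc := hW.nn
  have hm1 : 1 - (w - 1 + δ) ^ 2 ≤ 1 := by
    have := sq_nonneg (w - 1 + δ)
    linarith
  have h1 : ∀ b ∈ Ioc y₁ y₂, (1 - (w - 1 + δ) ^ 2) - (if (b : ℝ) < X then (c ^ 2 + 1) else 0) -
      (if ((n - b : ℕ) : ℝ) < X then (c ^ 2 + 1) else 0) ≤ W (n - b) + W b - W b * W (n - b) := by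
    intro b hb
    rw [mem_Ioc] at hb
    have k1 := hW.h0 b
    have k2 := hW.h0 (n - b)
    have k3 := hW.h1 b (by omega)
    have k4 := hW.h1 (n - b) (by omega)
    have k5 : W b * W (n - b) ≤ c ^ 2 := by
      rw [sq]
      exact mul_le_mul k3 k4 k2 hc
    by_cases a1 : (b : ℝ) < X
    · rw [if_pos a1]
      have : (0 : ℝ) ≤ (if ((n - b : ℕ) : ℝ) < X then (c ^ 2 + 1) else 0) := by
        split_ifs
        · positivity
        · exact le_rfl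
      linarith
    · by_cases a2 : ((n - b : ℕ) : ℝ) < X
      · rw [if_neg a1, if_pos a2]
        linarith
      · rw [if_neg a1, if_neg a2]
        obtain ⟨d1, d2⟩ := hd b (by omega) (not_lt.1 a1)
        obtain ⟨d3, d4⟩ := hd (n - b) (by omega) (not_lt.1 a2)
        have d2' := (abs_le.1 d2).2
        have d4' := (abs_le.1 d4).2
        have d5 : (W b - 1) * (W (n - b) - 1) ≤ (w - 1 + δ) * (w - 1 + δ) :=
          mul_le_mul (by linarith) (by linarith) (by linarith) (by linarith)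
        rw [sub_zero, sub_zero]
        have d6 : (W b - 1) * (W (n - b) - 1) = 1 - (W (n - b) + W b - W b * W (n - b)) := by ring
        have d7 : (w - 1 + δ) * (w - 1 + δ) = (w - 1 + δ) ^ 2 := by ring
        linarith
  refine le_trans ?_ (sum_le_sum h1)
  rw [sum_sub_distrib, sum_sub_distrib, sum_const, Nat.card_Ioc, nsmul_eq_mul, ← sum_filter, ← sum_filter,
    sum_const, sum_const, nsmul_eq_mul, nsmul_eq_mul]
  have c1 : (((Ioc y₁ y₂).filter (fun b : ℕ => (b : ℝ) < X)).card : ℝ) ≤ X + 1 := by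
    have e1 : (Ioc y₁ y₂).filter (fun b : ℕ => (b : ℝ) < X) ⊆ Icc 1 ⌊X⌋₊ := by
      intro b hb
      rw [mem_filter, mem_Ioc] at hb
      rw [mem_Icc]
      exact ⟨by omega, Nat.le_floor hb.2.le⟩
    have e2 := card_le_card e1
    rw [Nat.card_Icc, Nat.add_sub_cancel] at e2
    have e3 : ((⌊X⌋₊ : ℕ) : ℝ) ≤ X := Nat.floor_le hX
    have e4 : (((Ioc y₁ y₂).filter (fun b : ℕ => (b : ℝ) < X)).card : ℝ) ≤ ((⌊X⌋₊ : ℕ) : ℝ) := by exact_mod_cast e2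
    linarith
  have c2 : (((Ioc y₁ y₂).filter (fun b : ℕ => ((n - b : ℕ) : ℝ) < X)).card : ℝ) ≤ X + 1 := by
    have e0 : ((Ioc y₁ y₂).filter (fun b : ℕ => ((n - b : ℕ) : ℝ) < X)).card ≤ (Icc 1 ⌊X⌋₊).card := by
      refine card_le_card_of_injOn (fun b => n - b) ?_ ?_
      · intro b hb
        rw [mem_coe, mem_filter, mem_Ioc] at hb
        rw [mem_coe, mem_Icc]
        have h5 : 1 ≤ n - b := by omega
        exact ⟨h5, Nat.le_floor hb.2.le⟩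
      · intro a ha b hb hab
        rw [mem_coe, mem_filter, mem_Ioc] at ha hb
        simp only at hab
        omega
    rw [Nat.card_Icc, Nat.add_sub_cancel] at e0
    have e3 : ((⌊X⌋₊ : ℕ) : ℝ) ≤ X := Nat.floor_le hX
    have e4 : (((Ioc y₁ y₂).filter (fun b : ℕ => ((n - b : ℕ) : ℝ) < X)).card : ℝ) ≤ ((⌊X⌋₊ : ℕ) : ℝ) := by
      exact_mod_cast e0
    linarith
  have c3 : ((y₂ - y₁ : ℕ) : ℝ) = (y₂ : ℝ) - y₁ := Nat.cast_sub h12
  rw [c3]
  have hc1 : 0 ≤ c ^ 2 + 1 := by positivity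
  have c4 := mul_le_mul_of_nonneg_right c1 hc1
  have c5 := mul_le_mul_of_nonneg_right c2 hc1
  have c6 : (c ^ 2 + 1) * (2 * X + 2) = (X + 1) * (c ^ 2 + 1) + (X + 1) * (c ^ 2 + 1) := by ring
  have c7 : ((y₂ : ℝ) - y₁) * (1 - (w - 1 + δ) ^ 2) = (1 - (w - 1 + δ) ^ 2) * ((y₂ : ℝ) - y₁) := by ring
  linarith

/-- upper bound for the density of the main term -/
lemma dens_upper {N n y₁ y₂ : ℕ} {W : ℕ → ℝ} {c X : ℝ} (hW : WB W c N) (hn : n ≤ N) (h12 : y₁ ≤ y₂)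
    (h2 : y₂ < n) (hX : 0 ≤ X) {w δ : ℝ} (hw : 1 ≤ w) (hδ : 0 ≤ δ)
    (hd : ∀ b : ℕ, b ≤ N → X ≤ b → 1 ≤ W b ∧ |W b - w| ≤ δ) :
    ∑ b ∈ Ioc y₁ y₂, W (n - b) ≤ (w + δ) * ((y₂ : ℝ) - y₁) + c * (X + 1) := by
  classical
  have hc := hW.nn
  have h1 : ∀ b ∈ Ioc y₁ y₂, W (n - b) ≤ (w + δ) + (if ((n - b : ℕ) : ℝ) < X then c else 0) := by
    intro b hb
    rw [mem_Ioc] at hb
    have k4 := hW.h1 (n - b) (by omega)
    by_cases a2 : ((n - b : ℕ) : ℝ) < X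
    · rw [if_pos a2]
      linarith
    · rw [if_neg a2]
      obtain ⟨d3, d4⟩ := hd (n - b) (by omega) (not_lt.1 a2)
      have d4' := (abs_le.1 d4).2
      linarith
  refine (sum_le_sum h1).trans ?_
  rw [sum_add_distrib, sum_const, Nat.card_Ioc, nsmul_eq_mul, ← sum_filter, sum_const, nsmul_eq_mul]
  have c2 : (((Ioc y₁ y₂).filter (fun b : ℕ => ((n - b : ℕ) : ℝ) < X)).card : ℝ) ≤ X + 1 := by
    have e0 : ((Ioc y₁ y₂).filter (fun b : ℕ => ((n - b : ℕ) : ℝ) < X)).card ≤ (Icc 1 ⌊X⌋₊).card := by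
      refine card_le_card_of_injOn (fun b => n - b) ?_ ?_
      · intro b hb
        rw [mem_coe, mem_filter, mem_Ioc] at hb
        rw [mem_coe, mem_Icc]
        have h5 : 1 ≤ n - b := by omega
        exact ⟨h5, Nat.le_floor hb.2.le⟩
      · intro a ha b hb hab
        rw [mem_coe, mem_filter, mem_Ioc] at ha hb
        simp only at hab
        omega
    rw [Nat.card_Icc, Nat.add_sub_cancel] at e0
    have e3 : ((⌊X⌋₊ : ℕ) : ℝ) ≤ X := Nat.floor_le hX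
    have e4 : (((Ioc y₁ y₂).filter (fun b : ℕ => ((n - b : ℕ) : ℝ) < X)).card : ℝ) ≤ ((⌊X⌋₊ : ℕ) : ℝ) := by
      exact_mod_cast e0
    linarith
  have c3 : ((y₂ - y₁ : ℕ) : ℝ) = (y₂ : ℝ) - y₁ := Nat.cast_sub h12
  rw [c3]
  have c5 := mul_le_mul_of_nonneg_right c2 hc
  have c6 : (w + δ) * ((y₂ : ℝ) - y₁) = ((y₂ : ℝ) - y₁) * (w + δ) := by ring
  have c7 : c * (X + 1) = (X + 1) * c := by ring
  linarith

/-- the first part of the main term with weights -/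
lemma det_up {N n y₁ y₂ : ℕ} {W la lz : ℕ → ℝ} {c S ε : ℝ} (hW : WB W c N) (hn : n ≤ N) (h12 : y₁ ≤ y₂)
    (h2 : y₂ < n)
    (hm1 : ∀ y < n, |∑ b ∈ Icc 1 y, la b * lz (n - b) - S * y| ≤ ε) :
    |∑ b ∈ Ioc y₁ y₂, la b * (W (n - b) * lz (n - b)) -
      S * ∑ b ∈ Ioc y₁ y₂, W (n - b)| ≤ 4 * c * ε := by
  have hc := hW.nn
  have cst : ∀ m : ℕ, ∑ _i ∈ Icc 1 m, S = S * m := by
    intro m
    rw [sum_const, Nat.card_Icc, nsmul_eq_mul, Nat.add_sub_cancel, mul_comm]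
  have p1 : ∀ m ≤ y₂, |∑ i ∈ Icc 1 m, (la i * lz (n - i) - S)| ≤ ε := by
    intro m hm
    rw [sum_sub_distrib, cst]
    exact hm1 m (by omega)
  have q1 := abelW (fun i => la i * lz (n - i) - S) (fun i => W (n - i)) ε c c y₁ y₂ h12 p1
    (fun i hi => by rw [abs_of_nonneg (hW.h0 _)]; exact hW.h1 _ (by omega)) (hW.refl hn h2) hc
  have e : ∑ b ∈ Ioc y₁ y₂, la b * (W (n - b) * lz (n - b)) - S * ∑ b ∈ Ioc y₁ y₂, W (n - b) =
      ∑ i ∈ Ioc y₁ y₂, W (n - i) * (la i * lz (n - i) - S) := by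
    rw [mul_sum, ← sum_sub_distrib]
    refine sum_congr rfl fun b _ => ?_
    ring
  rw [e]
  refine q1.trans (le_of_eq ?_)
  ring

end Pool.Agent.L7h46.GK
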