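import Pool.Agent.L7h46.GK.Grid
import Pool.Agent.Y883.T4.Gold

set_option autoImplicit false

/-! The binary Goldbach problem in the residue classes of every modulus up to `x ^ (κ - ρ)`: lower and upper
bounds in all windows. -/

namespace Pool.Agent.L7h46.GK

open Finset
open Pool.Agent.W93.PG (wn cnt lam_sub wn_le)
open Pool.Agent.H560R3.GB (sing C₂)
open Pool.Agent.W93.GB (sing_eq one_le_prod_dv C2_half)
open Pool.Agent.Y614.GJ.Core (ev_log)

/-- between `lo` and `hi` times the expected number of Goldbach pairs in all windows -/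
def WinK (A : ℕ) (lo hi : ℝ) (m : ℕ) : Prop :=
  ∀ y₁ y₂ : ℕ, y₁ < y₂ → y₂ ≤ m → (m : ℝ) / Real.log m ^ A ≤ (y₂ : ℝ) - y₁ →
    lo * (sing m * ((y₂ : ℝ) - y₁) / Real.log m ^ 2) ≤ (cnt m y₁ y₂ : ℝ) ∧
    (cnt m y₁ y₂ : ℝ) ≤ hi * (sing m * ((y₂ : ℝ) - y₁) / Real.log m ^ 2)

lemma one_le_sing (n : ℕ) : 1 ≤ sing n := by
  rw [sing_eq]
  have h1 := C2_half
  have h2 := one_le_prod_dv (n.primeFactors.filter (fun p => 2 < p)) (fun p hp => (mem_filter.1 hp).2)
  nlinarith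

lemma wn_nn_mono (n : ℕ) {a b c d : ℕ} (h1 : a ≤ b) (h2 : c ≤ d) : wn n b c ≤ wn n a d := by
  unfold wn
  refine sum_le_sum_of_subset_of_nonneg (fun x hx => ?_) fun x _ _ => ?_
  · rw [mem_Ioc] at hx ⊢
    omega
  · exact mul_nonneg ArithmeticFunction.vonMangoldt_nonneg (Pool.Agent.H373R2.T7.lamI_nonneg _)

/-- the number of pairs in terms of the weighted number -/
lemma cnt_le_wn {n a b : ℕ} (hb : b < n) {x : ℝ} (hx : 1 ≤ x) :
    Real.log x ^ 2 * ((cnt n a b : ℝ) - 2 * x) ≤ wn n a b := by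
  classical
  have hlx : 0 ≤ Real.log x := Real.log_nonneg hx
  have hx0 : 0 < x := by linarith
  obtain ⟨G, hG⟩ : ∃ G, G = (Ioc a b).filter (fun p => p.Prime ∧ (n - p).Prime) := ⟨_, rfl⟩
  have hcnt : (cnt n a b : ℝ) = (G.card : ℝ) := by rw [hG]; rfl
  have hsplit : G ⊆ G.filter (fun p : ℕ => x < p ∧ x < ((n - p : ℕ) : ℝ)) ∪
      ((Ioc a b).filter (fun p : ℕ => (p : ℝ) ≤ x) ∪ (Ioc a b).filter (fun p : ℕ => ((n - p : ℕ) : ℝ) ≤ x)) := by
    intro p hp
    rw [mem_union, mem_union, mem_filter, mem_filter, mem_filter]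
    have hp' : p ∈ Ioc a b := by
      rw [hG] at hp
      exact (mem_filter.1 hp).1
    by_cases h1 : (p : ℝ) ≤ x
    · exact Or.inr (Or.inl ⟨hp', h1⟩)
    · by_cases h2 : ((n - p : ℕ) : ℝ) ≤ x
      · exact Or.inr (Or.inr ⟨hp', h2⟩)
      · exact Or.inl ⟨hp, not_le.1 h1, not_le.1 h2⟩
  have c1 : (((Ioc a b).filter (fun p : ℕ => (p : ℝ) ≤ x)).card : ℝ) ≤ x := by
    have e1 : (Ioc a b).filter (fun b : ℕ => (b : ℝ) ≤ x) ⊆ Icc 1 ⌊x⌋₊ := by
      intro b hb
      rw [mem_filter, mem_Ioc] at hb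
      rw [mem_Icc]
      exact ⟨by omega, Nat.le_floor hb.2⟩
    have e2 := card_le_card e1
    rw [Nat.card_Icc, Nat.add_sub_cancel] at e2
    have e3 : ((⌊x⌋₊ : ℕ) : ℝ) ≤ x := Nat.floor_le hx0.le
    exact le_trans (by exact_mod_cast e2) e3
  have c2 : (((Ioc a b).filter (fun p : ℕ => ((n - p : ℕ) : ℝ) ≤ x)).card : ℝ) ≤ x := by
    have e0 : ((Ioc a b).filter (fun b : ℕ => ((n - b : ℕ) : ℝ) ≤ x)).card ≤ (Icc 1 ⌊x⌋₊).card := by
      refine card_le_card_of_injOn (fun b => n - b) ?_ ?_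
      · intro c hc
        rw [mem_coe, mem_filter, mem_Ioc] at hc
        rw [mem_coe, mem_Icc]
        have h5 : 1 ≤ n - c := by omega
        exact ⟨h5, Nat.le_floor hc.2⟩
      · intro c hc d hd hcd
        rw [mem_coe, mem_filter, mem_Ioc] at hc hd
        simp only at hcd
        omega
    rw [Nat.card_Icc, Nat.add_sub_cancel] at e0
    have e3 : ((⌊x⌋₊ : ℕ) : ℝ) ≤ x := Nat.floor_le hx0.le
    exact le_trans (by exact_mod_cast e0) e3
  have hcard : (G.card : ℝ) ≤ ((G.filter (fun p : ℕ => x < p ∧ x < ((n - p : ℕ) : ℝ))).card : ℝ) + 2 * x := by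
    have h1 := (card_le_card hsplit).trans ((card_union_le _ _).trans (Nat.add_le_add_left (card_union_le _ _) _))
    have h2 : (G.card : ℝ) ≤ ((G.filter (fun p : ℕ => x < p ∧ x < ((n - p : ℕ) : ℝ))).card : ℝ) +
        ((((Ioc a b).filter (fun p : ℕ => (p : ℝ) ≤ x)).card : ℝ) +
        (((Ioc a b).filter (fun p : ℕ => ((n - p : ℕ) : ℝ) ≤ x)).card : ℝ)) := by exact_mod_cast h1
    linarith
  rw [hcnt]
  have hw : Real.log x ^ 2 * ((G.filter (fun p : ℕ => x < p ∧ x < ((n - p : ℕ) : ℝ))).card : ℝ) ≤ wn n a b := by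
    have h1 : Real.log x ^ 2 * ((G.filter (fun p : ℕ => x < p ∧ x < ((n - p : ℕ) : ℝ))).card : ℝ) =
        ∑ _p ∈ G.filter (fun p : ℕ => x < p ∧ x < ((n - p : ℕ) : ℝ)), Real.log x ^ 2 := by
      rw [sum_const, nsmul_eq_mul, mul_comm]
    rw [h1]
    calc ∑ _p ∈ G.filter (fun p : ℕ => x < p ∧ x < ((n - p : ℕ) : ℝ)), Real.log x ^ 2
        ≤ ∑ p ∈ G.filter (fun p : ℕ => x < p ∧ x < ((n - p : ℕ) : ℝ)),
          ArithmeticFunction.vonMangoldt p * Pool.Agent.H373R2.T7.lamI ((n : ℤ) - p) := by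
          refine sum_le_sum fun p hp => ?_
          rw [mem_filter, hG, mem_filter, mem_Ioc] at hp
          obtain ⟨⟨⟨k1, k2⟩, k3, k4⟩, k5, k6⟩ := hp
          rw [lam_sub n p (by omega), ArithmeticFunction.vonMangoldt_apply_prime k3,
            ArithmeticFunction.vonMangoldt_apply_prime k4, sq]
          exact mul_le_mul (Real.log_le_log hx0 k5.le) (Real.log_le_log hx0 k6.le) hlx
            (hlx.trans (Real.log_le_log hx0 k5.le))
      _ ≤ wn n a b := by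
          unfold wn
          refine sum_le_sum_of_subset_of_nonneg (fun p hp => ?_) fun p _ _ =>
            mul_nonneg ArithmeticFunction.vonMangoldt_nonneg (Pool.Agent.H373R2.T7.lamI_nonneg _)
          rw [mem_filter, hG, mem_filter] at hp
          exact hp.1.1
  have := mul_le_mul_of_nonneg_left (show (G.card : ℝ) - 2 * x ≤
    ((G.filter (fun p : ℕ => x < p ∧ x < ((n - p : ℕ) : ℝ))).card : ℝ) by linarith) (sq_nonneg (Real.log x))
  linarith

lemma cnt_split {n y₁ y₂ a b H : ℕ} (h1 : a ≤ y₁) (h2 : y₂ ≤ b + H) :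
    (cnt n y₁ y₂ : ℝ) ≤ cnt n a b + H := by
  classical
  have hsub : (Ioc y₁ y₂).filter (fun p => p.Prime ∧ (n - p).Prime) ⊆
      (Ioc a b).filter (fun p => p.Prime ∧ (n - p).Prime) ∪ Ioc b (b + H) := by
    intro p hp
    rw [mem_filter, mem_Ioc] at hp
    rw [mem_union, mem_filter, mem_Ioc, mem_Ioc]
    rcases Nat.lt_or_ge b p with h | h
    · exact Or.inr ⟨h, by omega⟩
    · exact Or.inl ⟨⟨by omega, h⟩, hp.2⟩
  have h3 := (card_le_card hsub).trans (card_union_le _ _)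
  rw [Nat.card_Ioc, show b + H - b = H by omega] at h3
  have h4 : cnt n y₁ y₂ ≤ cnt n a b + H := h3
  exact_mod_cast h4

/-- from the grid to all windows -/
lemma windows_of_grid (A : ℕ) {lo hi ε : ℝ} (hlo0 : 0 ≤ lo) (hlo1 : lo ≤ 1) (hhi0 : 0 ≤ hi) (hhi2 : hi ≤ 2)
    (hε : 0 < ε) (hε1 : ε ≤ 1) : ∃ N₀ : ℕ, ∀ N : ℕ, N₀ ≤ N → ∀ H : ℕ, 1 ≤ H →
    (H : ℝ) ≤ 2 * (N / Real.log N ^ (2 * A + 4)) → ∀ n : ℕ, n ≤ N → (N : ℝ) / Real.log N ^ (A + 1) ≤ n →
    sing n ≤ 2 * Real.log N →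
    (∀ i j : ℕ, i ≤ j → j * H < n →
      lo * (sing n * (((j * H : ℕ) : ℝ) - ((i * H : ℕ) : ℝ))) - N / Real.log N ^ (2 * A + 4) ≤
        wn n (i * H) (j * H) ∧
      wn n (i * H) (j * H) ≤ hi * (sing n * (((j * H : ℕ) : ℝ) - ((i * H : ℕ) : ℝ))) +
        N / Real.log N ^ (2 * A + 4)) → WinK A (lo - ε) (hi + ε) n := by
  obtain ⟨N₁, h1⟩ := Filter.eventually_atTop.1 (ev_log (3 * A + 10) (s := 1 / 4) (by norm_num) (10000 / ε))
  have hLT : Filter.Tendsto (fun N : ℕ => Real.log (N : ℝ)) Filter.atTop Filter.atTop :=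
    Real.tendsto_log_atTop.comp tendsto_natCast_atTop_atTop
  have h5 : ∀ᶠ L : ℝ in Filter.atTop, ((2 * A + 4 : ℕ) : ℝ) * Real.log L ≤ ε / 24 * L := by
    have h6 := Real.isLittleO_log_id_atTop.bound (show (0 : ℝ) < ε / (24 * ((2 * A + 4 : ℕ) : ℝ)) by positivity)
    filter_upwards [h6, Filter.eventually_ge_atTop 1] with L h7 h8
    have h9 : 0 ≤ Real.log L := Real.log_nonneg h8
    rw [Real.norm_of_nonneg h9, id, Real.norm_of_nonneg (by linarith)] at h7
    calc ((2 * A + 4 : ℕ) : ℝ) * Real.log L ≤ ((2 * A + 4 : ℕ) : ℝ) * (ε / (24 * ((2 * A + 4 : ℕ) : ℝ)) * L) :=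
          mul_le_mul_of_nonneg_left h7 (by positivity)
      _ = ε / 24 * L := by field_simp
  obtain ⟨N₂, h2⟩ := Filter.eventually_atTop.1 (hLT.eventually h5)
  refine ⟨N₁ + N₂ + 2, fun N hN H hH1 hH n hn hnN hS2 hgrid y₁ y₂ h12 h2' hlen => ?_⟩
  have hN1 : 1 ≤ N := by omega
  have hN0 : (0 : ℝ) < N := by exact_mod_cast hN1
  obtain ⟨hLε, hLp⟩ := h1 N (by omega)
  have hLη := h2 N (by omega)
  obtain ⟨L, hLd⟩ : ∃ L, L = Real.log (N : ℝ) := ⟨_, rfl⟩
  rw [← hLd] at hLε hLp hH hnN hS2 hgrid hLη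
  have hLε' : 10000 ≤ ε * L := by
    rw [div_le_iff₀ hε] at hLε
    linarith
  have hL : 10000 ≤ L := by
    refine le_trans ?_ hLε
    rw [le_div_iff₀ hε]
    linarith
  have hL0 : 0 < L := by linarith
  have hL1 : 1 ≤ L := by linarith
  have hn0 : (0 : ℝ) < n := lt_of_lt_of_le (by positivity) hnN
  have hn1 : 1 ≤ n := by exact_mod_cast hn0
  have hnr : (n : ℝ) ≤ N := by exact_mod_cast hn
  have hlogn : Real.log n ≤ L := by
    rw [hLd]
    exact Real.log_le_log hn0 hnr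
  have hlogn1 : 1 ≤ Real.log n := by
    -- `n` is large
    have e1 : (N : ℝ) ^ (3 / 4 : ℝ) ≤ n := by
      refine le_trans ?_ hnN
      rw [le_div_iff₀ (by positivity)]
      calc (N : ℝ) ^ (3 / 4 : ℝ) * L ^ (A + 1) ≤ (N : ℝ) ^ (3 / 4 : ℝ) * (N : ℝ) ^ (1 / 4 : ℝ) := by
            have : L ^ (A + 1) ≤ (N : ℝ) ^ (1 / 4 : ℝ) := (pow_le_pow_right₀ hL1 (by omega)).trans hLp
            gcongr
        _ = N := by
            rw [← Real.rpow_add hN0]
            norm_num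
    have e2 : 3 / 4 * L ≤ Real.log n := by
      rw [hLd, ← Real.log_rpow hN0]
      exact Real.log_le_log (by positivity) e1
    linarith
  have hlogn0 : 0 < Real.log n := by linarith
  obtain ⟨Δ, hΔ⟩ : ∃ Δ : ℝ, Δ = (y₂ : ℝ) - y₁ := ⟨_, rfl⟩
  obtain ⟨S, hSd⟩ : ∃ S : ℝ, S = sing n := ⟨_, rfl⟩
  have hS1 : 1 ≤ S := by rw [hSd]; exact one_le_sing n
  rw [← hΔ] at hlen ⊢
  rw [← hSd] at hS2 hgrid ⊢
  have hΔ1 : (n : ℝ) / L ^ A ≤ Δ := by
    refine le_trans ?_ hlen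
    apply div_le_div_of_nonneg_left hn0.le (by positivity)
    exact pow_le_pow_left₀ hlogn0.le hlogn A
  have hΔ2 : (N : ℝ) / L ^ (2 * A + 1) ≤ Δ := by
    refine le_trans ?_ hΔ1
    rw [show 2 * A + 1 = (A + 1) + A by ring, pow_add, ← div_div]
    exact div_le_div_of_nonneg_right hnN (by positivity)
  have hΔ0 : 0 < Δ := lt_of_lt_of_le (by positivity) hΔ2
  obtain ⟨x, hx⟩ : ∃ x : ℝ, x = (N : ℝ) / L ^ (2 * A + 4) := ⟨_, rfl⟩
  rw [← hx] at hH hgrid
  have hV : x ≤ Δ / L ^ 3 := by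
    rw [hx, show 2 * A + 4 = (2 * A + 1) + 3 by ring, pow_add, ← div_div]
    exact div_le_div_of_nonneg_right hΔ2 (by positivity)
  have hx1 : 1 ≤ x := by
    rw [hx, le_div_iff₀ (by positivity), one_mul]
    calc L ^ (2 * A + 4) ≤ L ^ (3 * A + 10) := pow_le_pow_right₀ hL1 (by omega)
      _ ≤ (N : ℝ) ^ (1 / 4 : ℝ) := hLp
      _ ≤ (N : ℝ) ^ (1 : ℝ) := Real.rpow_le_rpow_of_exponent_le (by exact_mod_cast hN1) (by norm_num)
      _ = N := Real.rpow_one _
  have hx0 : 0 < x := by linarith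
  -- `Δ / L`
  obtain ⟨δ, hδ⟩ : ∃ δ : ℝ, δ = Δ / L := ⟨_, rfl⟩
  have hδ0 : 0 < δ := by rw [hδ]; positivity
  have hδε : 10000 * δ ≤ ε * Δ := by
    have e : ε * Δ = ε * L * δ := by
      rw [hδ]
      field_simp
    rw [e]
    exact mul_le_mul_of_nonneg_right hLε' hδ0.le
  have hL2x : L ^ 2 * x ≤ δ := by
    calc L ^ 2 * x ≤ L ^ 2 * (Δ / L ^ 3) := mul_le_mul_of_nonneg_left hV (by positivity)
      _ = δ := by
          rw [hδ]
          field_simp
  have hL2H : L ^ 2 * H ≤ 2 * δ := by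
    calc L ^ 2 * H ≤ L ^ 2 * (2 * x) := mul_le_mul_of_nonneg_left hH (by positivity)
      _ = 2 * (L ^ 2 * x) := by ring
      _ ≤ 2 * δ := by linarith
  have hL2 : 10000 * L ≤ L ^ 2 := by nlinarith
  have hL21 : 1 ≤ L ^ 2 := by nlinarith
  have hxδ : x ≤ δ := by
    have : 1 * x ≤ L ^ 2 * x := mul_le_mul_of_nonneg_right hL21 hx0.le
    linarith
  have hH0 : (1 : ℝ) ≤ H := by exact_mod_cast hH1
  have hHδ : (H : ℝ) ≤ 2 * δ := by
    have : 1 * (H : ℝ) ≤ L ^ 2 * H := mul_le_mul_of_nonneg_right hL21 (by linarith)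
    linarith
  have hLH : L * H ≤ δ := by
    have h3 : 10000 * (L * H) ≤ L ^ 2 * H := by
      have := mul_le_mul_of_nonneg_right hL2 (show (0 : ℝ) ≤ H by linarith)
      linarith
    have : 0 ≤ L * H := by positivity
    linarith
  have hSH : S * H ≤ 2 * δ := by
    calc S * H ≤ (2 * L) * H := mul_le_mul_of_nonneg_right hS2 (by linarith)
      _ = 2 * (L * H) := by ring
      _ ≤ 2 * δ := by linarith
  have hSΔ : Δ ≤ S * Δ := by nlinarith
  have hlog2 : Real.log n ^ 2 ≤ L ^ 2 := pow_le_pow_left₀ hlogn0.le hlogn 2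
  have h11 : 0 < Real.log n ^ 2 := by positivity
  have h10 : S * Δ / Real.log n ^ 2 * Real.log n ^ 2 = S * Δ := div_mul_cancel₀ _ (by positivity)
  -- the points of the grid
  obtain ⟨j, hj⟩ : ∃ j, j = (y₂ - 1) / H := ⟨_, rfl⟩
  have hj1 : j * H ≤ y₂ - 1 := by
    rw [hj]
    exact Nat.div_mul_le_self _ _
  have hj2 : y₂ ≤ j * H + H := by
    have h3 := Nat.lt_div_mul_add (a := y₂ - 1) (b := H) (by omega)
    rw [← hj] at h3
    omega
  have hj2r : (y₂ : ℝ) ≤ ((j * H : ℕ) : ℝ) + H := by exact_mod_cast hj2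
  constructor
  · -- the lower bound
    obtain ⟨i, hi'⟩ : ∃ i, i = (y₁ + H - 1) / H := ⟨_, rfl⟩
    have hi1 : y₁ ≤ i * H := by
      have h3 := Nat.lt_div_mul_add (a := y₁ + H - 1) (b := H) (by omega)
      rw [← hi'] at h3
      omega
    have hi2 : i * H ≤ y₁ + H := by
      have h3 := Nat.div_mul_le_self (y₁ + H - 1) H
      rw [← hi'] at h3
      omega
    have hi2r : ((i * H : ℕ) : ℝ) ≤ y₁ + H := by exact_mod_cast hi2
    have hij : i ≤ j := by
      by_contra hcon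
      have h3 : j * H ≤ i * H := Nat.mul_le_mul_right _ (by omega)
      have h4 : ((j * H : ℕ) : ℝ) ≤ ((i * H : ℕ) : ℝ) := by exact_mod_cast h3
      have : ε * Δ ≤ 1 * Δ := mul_le_mul_of_nonneg_right hε1 hΔ0.le
      linarith
    have h3 := (hgrid i j hij (by omega)).1
    have h4 := wn_nn_mono n hi1 (show j * H ≤ y₂ by omega)
    have h5 := wn_le n y₁ y₂ h2' hn1
    have hgap : Δ - 2 * H ≤ ((j * H : ℕ) : ℝ) - ((i * H : ℕ) : ℝ) := by
      rw [hΔ]
      linarith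
    have h6 : lo * (S * (Δ - 2 * H)) ≤ lo * (S * (((j * H : ℕ) : ℝ) - ((i * H : ℕ) : ℝ))) := by
      gcongr
    -- the square root
    have h7 : 4 * √(n : ℝ) * Real.log n ^ 2 ≤ δ := by
      have e1 : √(n : ℝ) ≤ √(N : ℝ) := Real.sqrt_le_sqrt hnr
      have e3 : 4 * √(n : ℝ) * Real.log n ^ 2 ≤ 4 * √(N : ℝ) * L ^ 2 := by gcongr
      refine e3.trans ?_
      have e5 : 4 * √(N : ℝ) * L ^ 2 ≤ L ^ 2 * x := by
        have e6 : 4 * √(N : ℝ) ≤ x := by
          rw [Real.sqrt_eq_rpow, hx, le_div_iff₀ (by positivity)]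
          calc 4 * (N : ℝ) ^ (1 / 2 : ℝ) * L ^ (2 * A + 4)
              = (N : ℝ) ^ (1 / 2 : ℝ) * (4 * L ^ (2 * A + 4)) := by ring
            _ ≤ (N : ℝ) ^ (1 / 2 : ℝ) * (N : ℝ) ^ (1 / 2 : ℝ) := by
                have e4 : 4 * L ^ (2 * A + 4) ≤ (N : ℝ) ^ (1 / 2 : ℝ) := by
                  calc 4 * L ^ (2 * A + 4) ≤ L * L ^ (2 * A + 4) := by
                        gcongr
                        linarith
                    _ = L ^ (2 * A + 5) := by ring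
                    _ ≤ L ^ (3 * A + 10) := pow_le_pow_right₀ hL1 (by omega)
                    _ ≤ (N : ℝ) ^ (1 / 4 : ℝ) := hLp
                    _ ≤ (N : ℝ) ^ (1 / 2 : ℝ) :=
                        Real.rpow_le_rpow_of_exponent_le (by exact_mod_cast hN1) (by norm_num)
                gcongr
            _ = N := by
                rw [← Real.rpow_add hN0]
                norm_num
        calc 4 * √(N : ℝ) * L ^ 2 ≤ x * L ^ 2 := mul_le_mul_of_nonneg_right e6 (by positivity)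
          _ = L ^ 2 * x := by ring
      linarith
    have h8 : lo * (S * (Δ - 2 * H)) = lo * (S * Δ) - 2 * (lo * (S * H)) := by ring
    have h9 : lo * (S * H) ≤ 1 * (S * H) := mul_le_mul_of_nonneg_right hlo1 (by positivity)
    have h12' : (lo - ε) * (S * Δ / Real.log n ^ 2) * Real.log n ^ 2 ≤ (cnt n y₁ y₂ : ℝ) * Real.log n ^ 2 := by
      rw [mul_assoc, h10]
      have e1 : (lo - ε) * (S * Δ) = lo * (S * Δ) - ε * (S * Δ) := by ring
      have e2 : ε * Δ ≤ ε * (S * Δ) := mul_le_mul_of_nonneg_left hSΔ hε.le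
      rw [e1]
      linarith
    exact le_of_mul_le_mul_right h12' h11
  · -- the upper bound
    obtain ⟨i, hi'⟩ : ∃ i, i = y₁ / H := ⟨_, rfl⟩
    have hi1 : i * H ≤ y₁ := by rw [hi']; exact Nat.div_mul_le_self _ _
    have hi2 : y₁ ≤ i * H + H := by
      have h3 := Nat.lt_div_mul_add (a := y₁) (b := H) (by omega)
      rw [← hi'] at h3
      omega
    have hi2r : (y₁ : ℝ) ≤ ((i * H : ℕ) : ℝ) + H := by exact_mod_cast hi2
    have hij : i ≤ j := by
      rw [hi', hj]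
      exact Nat.div_le_div_right (by omega)
    have h3 := (hgrid i j hij (by omega)).2
    have h4 := cnt_split (n := n) hi1 hj2
    have h5 := cnt_le_wn (n := n) (a := i * H) (b := j * H) (by omega) hx1
    have hj1r : ((j * H : ℕ) : ℝ) ≤ y₂ := by exact_mod_cast (show j * H ≤ y₂ by omega)
    have hgap : ((j * H : ℕ) : ℝ) - ((i * H : ℕ) : ℝ) ≤ Δ + H := by
      rw [hΔ]
      linarith
    have h6 : hi * (S * (((j * H : ℕ) : ℝ) - ((i * H : ℕ) : ℝ))) ≤ hi * (S * (Δ + H)) := by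
      gcongr
    have h7 : hi * (S * (Δ + H)) = hi * (S * Δ) + hi * (S * H) := by ring
    have h8 : hi * (S * H) ≤ 2 * (S * H) := mul_le_mul_of_nonneg_right hhi2 (by positivity)
    have hwn : wn n (i * H) (j * H) ≤ hi * (S * Δ) + 5 * δ := by linarith
    -- the logarithm of `x`
    have hlx : (1 - ε / 24) * Real.log n ≤ Real.log x := by
      rw [hx, Real.log_div hN0.ne' (by positivity), Real.log_pow, ← hLd]
      have : (1 - ε / 24) * Real.log n ≤ (1 - ε / 24) * L := mul_le_mul_of_nonneg_left hlogn (by linarith)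
      linarith
    have hlx2 : (1 - ε / 24) ^ 2 * Real.log n ^ 2 ≤ Real.log x ^ 2 := by
      rw [← mul_pow]
      exact pow_le_pow_left₀ (mul_nonneg (by linarith) hlogn0.le) hlx 2
    have hlx0 : 0 ≤ Real.log x := Real.log_nonneg hx1
    obtain ⟨K, hK⟩ : ∃ K : ℝ, K = (cnt n (i * H) (j * H) : ℝ) := ⟨_, rfl⟩
    rw [← hK] at h4 h5
    have hcnt : Real.log n ^ 2 * (K - 2 * x) ≤ (1 + ε / 8) * (hi * (S * Δ) + 5 * δ) := by
      by_cases hneg : K - 2 * x ≤ 0
      · have e1 : Real.log n ^ 2 * (K - 2 * x) ≤ 0 := mul_nonpos_of_nonneg_of_nonpos h11.le hneg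
        have e2 : 0 ≤ (1 + ε / 8) * (hi * (S * Δ) + 5 * δ) := by positivity
        linarith
      · push Not at hneg
        have e1 : (1 - ε / 24) ^ 2 * Real.log n ^ 2 * (K - 2 * x) ≤ hi * (S * Δ) + 5 * δ :=
          (mul_le_mul_of_nonneg_right hlx2 hneg.le).trans (h5.trans hwn)
        have e2 : 1 ≤ (1 + ε / 8) * (1 - ε / 24) ^ 2 := by
          have : (1 + ε / 8) * (1 - ε / 24) ^ 2 = 1 + ε / 24 - 5 * (ε / 24) ^ 2 + 3 * (ε / 24) ^ 3 := by ring
          rw [this]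
          have e4 : 5 * (ε / 24) ^ 2 ≤ ε / 24 := by nlinarith
          have e5 : 0 ≤ 3 * (ε / 24) ^ 3 := by positivity
          linarith
        have e3 : 0 ≤ Real.log n ^ 2 * (K - 2 * x) := mul_nonneg h11.le hneg.le
        calc Real.log n ^ 2 * (K - 2 * x) = 1 * (Real.log n ^ 2 * (K - 2 * x)) := (one_mul _).symm
          _ ≤ (1 + ε / 8) * (1 - ε / 24) ^ 2 * (Real.log n ^ 2 * (K - 2 * x)) :=
              mul_le_mul_of_nonneg_right e2 e3
          _ = (1 + ε / 8) * ((1 - ε / 24) ^ 2 * Real.log n ^ 2 * (K - 2 * x)) := by ring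
          _ ≤ _ := mul_le_mul_of_nonneg_left e1 (by positivity)
    have h12' : (cnt n y₁ y₂ : ℝ) * Real.log n ^ 2 ≤ (hi + ε) * (S * Δ / Real.log n ^ 2) * Real.log n ^ 2 := by
      rw [mul_assoc, h10]
      have e1 : (cnt n y₁ y₂ : ℝ) * Real.log n ^ 2 ≤ (K + H) * Real.log n ^ 2 :=
        mul_le_mul_of_nonneg_right h4 h11.le
      have e2 : (K + H) * Real.log n ^ 2 = Real.log n ^ 2 * (K - 2 * x) + Real.log n ^ 2 * (H + 2 * x) := by ring
      have e3 : Real.log n ^ 2 * (H + 2 * x) ≤ L ^ 2 * (H + 2 * x) :=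
        mul_le_mul_of_nonneg_right hlog2 (by linarith)
      have e4 : L ^ 2 * (H + 2 * x) = L ^ 2 * H + 2 * (L ^ 2 * x) := by ring
      have e5 : (1 + ε / 8) * (hi * (S * Δ) + 5 * δ) = hi * (S * Δ) + ε / 8 * (hi * (S * Δ)) + (1 + ε / 8) * (5 * δ) := by
        ring
      have e6 : ε / 8 * (hi * (S * Δ)) ≤ ε / 8 * (2 * (S * Δ)) := by
        have : hi * (S * Δ) ≤ 2 * (S * Δ) := mul_le_mul_of_nonneg_right hhi2 (by positivity)
        exact mul_le_mul_of_nonneg_left this (by positivity)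
      have e7 : (1 + ε / 8) * (5 * δ) ≤ 2 * (5 * δ) := mul_le_mul_of_nonneg_right (by linarith) (by positivity)
      have e8 : ε * Δ ≤ ε * (S * Δ) := mul_le_mul_of_nonneg_left hSΔ hε.le
      have e9 : (hi + ε) * (S * Δ) = hi * (S * Δ) + ε * (S * Δ) := by ring
      have e10 : 0 ≤ ε * (S * Δ) := by positivity
      rw [e9]
      linarith
    exact le_of_mul_le_mul_right h12' h11

end Pool.Agent.L7h46.GK
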