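import Mathlib

/-!
# Project GK (helper46): the level parameter

Project GS (helper460, helper453, helper461, helper462) works with the level `7/10`; here the level is an
arbitrary real number `κ` with `1/2 ≤ κ ≤ 2/3`, and the constants are sharp.
-/

set_option autoImplicit false

namespace Pool.Agent.L7h46.GK

/-- the level `κ` -/
class Lv where
  κ : ℝ
  lo : 1 / 2 ≤ κ
  hi : κ ≤ 2 / 3

open Lv (κ)

variable [Lv]

/-- the limit of the density of the rough numbers: `1 + log (κ / (1 - κ))` -/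
noncomputable def wk : ℝ := 1 + Real.log (κ / (1 - κ))

lemma kpos : (0 : ℝ) < κ := by
  have := Lv.lo
  linarith

lemma klt : (κ : ℝ) < 1 := by
  have := Lv.hi
  linarith

lemma kc_pos : (0 : ℝ) < 1 - κ := by
  have := Lv.hi
  linarith

lemma kh_pos : (0 : ℝ) < (1 - κ) / 2 := by
  have := kc_pos
  linarith

lemma kc_third : (1 : ℝ) / 3 ≤ 1 - κ := by
  have := Lv.hi
  linarith

lemma kc_half : (1 : ℝ) - κ ≤ 1 / 2 := by
  have := Lv.lo
  linarith

lemma pow_k_kc {N : ℝ} (hN : 0 < N) : N ^ (κ : ℝ) * N ^ (1 - κ : ℝ) = N := by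
  rw [← Real.rpow_add hN, show (κ : ℝ) + (1 - κ) = 1 by ring, Real.rpow_one]

lemma pow_kc_k {N : ℝ} (hN : 0 < N) : N ^ (1 - κ : ℝ) * N ^ (κ : ℝ) = N := by
  rw [mul_comm, pow_k_kc hN]

lemma pow_kh_kh {N : ℝ} (hN : 0 < N) : N ^ ((1 - κ) / 2 : ℝ) * N ^ ((1 - κ) / 2 : ℝ) = N ^ (1 - κ : ℝ) := by
  rw [← Real.rpow_add hN]
  congr 1
  ring

lemma wk_nonneg : 1 ≤ wk := by
  unfold wk
  have h1 := Lv.lo
  have h2 := kc_pos
  have : 0 ≤ Real.log (κ / (1 - κ)) := by
    apply Real.log_nonneg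
    rw [le_div_iff₀ h2]
    linarith
  linarith

end Pool.Agent.L7h46.GK
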